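import Mathlib

/-!
A calculus for upper bounds on the size of NAND straight line programs.
`Gen I s P Q`: from the Boolean functions in `P` those in `Q` can be computed with `s` more gates.
`TF I P s φ`: the value `φ ω` of a small type is computed in one-hot form.
`PF I P N d φ`: the same with `N ^ d` gates.
-/

set_option autoImplicit false

namespace Pool.Agent.MP_6b3410_lc.U5

open Finset

variable {Ω : Type}

/-- `f` is an input, a constant, or one of the functions computed so far -/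
def Av (I : Set (Ω → Bool)) (L : List (Ω → Bool)) (f : Ω → Bool) : Prop :=
  f ∈ I ∨ (∃ c, f = fun _ => c) ∨ f ∈ L

/-- straight line NAND programs over the inputs `I` and the constants -/
inductive Prog (I : Set (Ω → Bool)) : List (Ω → Bool) → Prop
  | nil : Prog I []
  | cons (f g : Ω → Bool) (L : List (Ω → Bool)) : Prog I L → Av I L f → Av I L g →
      Prog I ((fun ω => !(f ω && g ω)) :: L)

/-- from `P` one computes `Q` with at most `s` more gates -/
def Gen (I : Set (Ω → Bool)) (s : ℕ) (P Q : Set (Ω → Bool)) : Prop :=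
  ∀ L, Prog I L → (∀ f ∈ P, Av I L f) →
    ∃ L', Prog I L' ∧ (∀ f ∈ L, f ∈ L') ∧ L'.length ≤ L.length + s ∧ ∀ f ∈ Q, Av I L' f

open Classical in
/-- the one-hot code of a value -/
def Bits {α : Type} (φ : Ω → α) : Set (Ω → Bool) := {f | ∃ a, f = fun ω => decide (φ ω = a)}

/-- the value `φ` is computed from `P` with `s` gates -/
def TF (I P : Set (Ω → Bool)) (s : ℕ) {α : Type} (φ : Ω → α) : Prop := Gen I s P (Bits φ)

/-- the value `φ` is computed from `P` with `N ^ d` gates -/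
def PF (I P : Set (Ω → Bool)) (N d : ℕ) {α : Type} (φ : Ω → α) : Prop := TF I P (N ^ d) φ

variable {I P P' Q Q' R : Set (Ω → Bool)} {s t : ℕ}

lemma Av.mono {L L' : List (Ω → Bool)} {f : Ω → Bool} (h : Av I L f) (hL : ∀ f ∈ L, f ∈ L') :
    Av I L' f := by
  rcases h with h | h | h
  · exact Or.inl h
  · exact Or.inr (Or.inl h)
  · exact Or.inr (Or.inr (hL f h))

lemma Gen.of_subset (h : Q ⊆ P) (s : ℕ) : Gen I s P Q :=
  fun L hL hP => ⟨L, hL, fun _ hf => hf, by omega, fun f hf => hP f (h hf)⟩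

lemma Gen.mono (h : Gen I s P Q) (hs : s ≤ t) (hP : P ⊆ P') (hQ : Q' ⊆ Q) : Gen I t P' Q' := by
  intro L hL hPL
  obtain ⟨L', h1, h2, h3, h4⟩ := h L hL fun f hf => hPL f (hP hf)
  exact ⟨L', h1, h2, by omega, fun f hf => h4 f (hQ hf)⟩

lemma Gen.le (h : Gen I s P Q) (hs : s ≤ t) : Gen I t P Q := h.mono hs subset_rfl subset_rfl

lemma Gen.keep (h : Gen I s P Q) : Gen I s P (P ∪ Q) := by
  intro L hL hP
  obtain ⟨L', h1, h2, h3, h4⟩ := h L hL hP
  refine ⟨L', h1, h2, h3, ?_⟩
  rintro f (hf | hf)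
  · exact (hP f hf).mono h2
  · exact h4 f hf

/-- sequential composition; everything computed so far stays available -/
lemma Gen.trans' (h : Gen I s P Q) (h' : Gen I t (P ∪ Q) R) : Gen I (s + t) P (Q ∪ R) := by
  intro L hL hP
  obtain ⟨L1, h1, h2, h3, h4⟩ := h.keep L hL hP
  obtain ⟨L2, g1, g2, g3, g4⟩ := h' L1 h1 h4
  refine ⟨L2, g1, fun f hf => g2 f (h2 f hf), by omega, ?_⟩
  rintro f (hf | hf)
  · exact (h4 f (Or.inr hf)).mono g2
  · exact g4 f hf

lemma Gen.trans (h : Gen I s P Q) (h' : Gen I t (P ∪ Q) R) : Gen I (s + t) P R :=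
  (h.trans' h').mono le_rfl subset_rfl Set.subset_union_right

lemma Gen.union (h : Gen I s P Q) (h' : Gen I t P R) : Gen I (s + t) P (Q ∪ R) :=
  h.trans' (h'.mono le_rfl Set.subset_union_left subset_rfl)

lemma Gen.biUnion {ι : Type} (T : Finset ι) (c : ι → ℕ) (Q : ι → Set (Ω → Bool))
    (h : ∀ i ∈ T, Gen I (c i) P (Q i)) : Gen I (∑ i ∈ T, c i) P {f | ∃ i ∈ T, f ∈ Q i} := by
  classical
  induction T using Finset.induction_on with
  | empty => exact Gen.of_subset (by simp) _
  | insert i T hi ih =>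
    rw [sum_insert hi]
    refine ((h i (mem_insert_self _ _)).union
      (ih fun j hj => h j (mem_insert_of_mem hj))).mono le_rfl subset_rfl ?_
    rintro f ⟨j, hj, hf⟩
    rcases mem_insert.1 hj with rfl | hj
    · exact Or.inl hf
    · exact Or.inr ⟨j, hj, hf⟩

/-- parallel composition over a finite set -/
lemma Gen.all {ι : Type} (T : Finset ι) (Q : ι → Set (Ω → Bool))
    (h : ∀ i ∈ T, Gen I s P (Q i)) : Gen I (T.card * s) P {f | ∃ i ∈ T, f ∈ Q i} := by
  simpa using Gen.biUnion T (fun _ => s) Q h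

/-- parallel composition over a finite type -/
lemma Gen.iUnion {ι : Type} [Fintype ι] (Q : ι → Set (Ω → Bool))
    (h : ∀ i, Gen I s P (Q i)) : Gen I (Fintype.card ι * s) P (⋃ i, Q i) :=
  (Gen.all univ Q fun i _ => h i).mono le_rfl subset_rfl fun f hf => by simpa using hf

/-- iteration -/
lemma Gen.iter (S : ℕ → Set (Ω → Bool)) (k : ℕ) (h0 : S 0 ⊆ P)
    (h : ∀ j < k, Gen I s (P ∪ S j) (S (j + 1))) : Gen I (k * s) P (S k) := by
  induction k with
  | zero => exact Gen.of_subset h0 _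
  | succ k ih =>
    rw [Nat.succ_mul]
    exact (ih fun j hj => h j (by omega)).trans (h k (by omega))

lemma Gen.const (c : Bool) : Gen I 0 P {fun _ => c} :=
  fun L hL _ => ⟨L, hL, fun _ hf => hf, by omega, fun f hf => Or.inr (Or.inl ⟨c, hf⟩)⟩

lemma Gen.input {f : Ω → Bool} (hf : f ∈ I) : Gen I 0 P {f} :=
  fun L hL _ => ⟨L, hL, fun _ hf => hf, by omega, fun g hg => Or.inl (hg ▸ hf)⟩

lemma Gen.nand0 {f g : Ω → Bool} (hf : f ∈ P) (hg : g ∈ P) :
    Gen I 1 P {fun ω => !(f ω && g ω)} := by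
  intro L hL hP
  refine ⟨_, Prog.cons f g L hL (hP f hf) (hP g hg), fun f hf => List.mem_cons_of_mem _ hf,
    by simp, ?_⟩
  rintro h rfl
  exact Or.inr (Or.inr (List.mem_cons_self ..))

lemma Gen.nand {f g : Ω → Bool} (hf : Gen I s P {f}) (hg : Gen I t P {g}) :
    Gen I (s + t + 1) P {fun ω => !(f ω && g ω)} :=
  (hf.union hg).trans (Gen.nand0 (by simp) (by simp))

lemma Gen.not {f : Ω → Bool} (hf : Gen I s P {f}) : Gen I (s + 1) P {fun ω => !(f ω)} := by
  have := hf.trans (Gen.nand0 (I := I) (P := P ∪ {f}) (f := f) (g := f) (by simp) (by simp))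
  simpa using this

lemma Gen.and {f g : Ω → Bool} (hf : Gen I s P {f}) (hg : Gen I t P {g}) :
    Gen I (s + t + 2) P {fun ω => f ω && g ω} := by
  simpa using (hf.nand hg).not

lemma Gen.or {f g : Ω → Bool} (hf : Gen I s P {f}) (hg : Gen I t P {g}) :
    Gen I (s + t + 3) P {fun ω => f ω || g ω} := by
  have := (hf.not.nand hg.not).le (t := s + t + 3) (by omega)
  simpa using this

open Classical in
lemma Gen.exists {ι : Type} (T : Finset ι) (f : ι → Ω → Bool) (h : ∀ i ∈ T, Gen I s P {f i}) :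
    Gen I (T.card * (s + 3)) P {fun ω => decide (∃ i ∈ T, f i ω = true)} := by
  induction T using Finset.induction_on with
  | empty => simpa using Gen.const (I := I) (P := P) false
  | insert i T hi ih =>
    have := ((h i (mem_insert_self _ _)).or
      (ih fun j hj => h j (mem_insert_of_mem hj))).le (t := (insert i T).card * (s + 3))
      (by rw [card_insert_of_notMem hi]; nlinarith)
    convert this using 3
    simp

variable {α β γ : Type}

lemma TF.of_subset {φ : Ω → α} (h : Bits φ ⊆ P) (s : ℕ) : TF I P s φ := Gen.of_subset h s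

lemma TF.le {φ : Ω → α} (h : TF I P s φ) (hs : s ≤ t) : TF I P t φ := Gen.le h hs

lemma TF.mono {φ : Ω → α} (h : TF I P s φ) (hP : P ⊆ P') : TF I P' s φ :=
  Gen.mono h le_rfl hP subset_rfl

lemma TF.congr {φ ψ : Ω → α} (h : TF I P s φ) (e : ∀ ω, φ ω = ψ ω) : TF I P s ψ :=
  (funext e : φ = ψ) ▸ h

lemma TF.const (a : α) (s : ℕ) : TF I P s (fun _ : Ω => a) := by
  intro L hL _
  refine ⟨L, hL, fun _ hf => hf, by omega, ?_⟩
  rintro f ⟨b, rfl⟩
  exact Or.inr (Or.inl ⟨_, rfl⟩)

/-- first compute `Q`, then `φ` -/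
lemma TF.after {φ : Ω → α} (h : Gen I s P Q) (h' : TF I (P ∪ Q) t φ) : TF I P (s + t) φ :=
  Gen.trans h h'

/-- a Boolean function from its one-hot code -/
lemma TF.single {f : Ω → Bool} (h : TF I P s f) : Gen I s P {f} := by
  refine Gen.mono h le_rfl subset_rfl ?_
  rintro g rfl
  exact ⟨true, by funext ω; simp⟩

/-- the one-hot code of a Boolean function -/
lemma TF.of_single {f : Ω → Bool} (h : Gen I s P {f}) : TF I P (s + 1) f := by
  have h1 : Gen I 1 (P ∪ {f}) {fun ω => !(f ω)} := by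
    simpa using (Gen.of_subset (I := I) (P := P ∪ {f}) (Q := {f}) (by simp) 0).not
  refine (h.trans' h1).mono le_rfl subset_rfl ?_
  rintro g ⟨a, rfl⟩
  cases a
  · right; funext ω; cases f ω <;> simp
  · left; funext ω; cases f ω <;> simp

lemma TF.input {f : Ω → Bool} (hf : f ∈ I) : TF I P 1 f := by
  simpa using TF.of_single (Gen.input (P := P) hf)

open Classical in
lemma TF.op0 [Fintype α] [Fintype β] {φ : Ω → α} {ψ : Ω → β} (op : α → β → γ)
    (hφ : Bits φ ⊆ P) (hψ : Bits ψ ⊆ P) :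
    TF I P (5 * Fintype.card α * Fintype.card β) (fun ω => op (φ ω) (ψ ω)) := by
  let U : Finset γ := (univ : Finset (α × β)).image fun p => op p.1 p.2
  have h1 := Gen.biUnion (I := I) (P := P) U
    (fun c => (univ.filter fun p : α × β => op p.1 p.2 = c).card * (2 + 3))
    (fun c => {fun ω => decide (op (φ ω) (ψ ω) = c)}) (fun c _ => by
      have := Gen.exists (I := I) (P := P) (s := 2) (univ.filter fun p : α × β => op p.1 p.2 = c)
        (fun p ω => decide (φ ω = p.1) && decide (ψ ω = p.2)) (fun p _ => by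
          simpa using (Gen.of_subset (I := I) (P := P) (Q := {fun ω => decide (φ ω = p.1)})
            (by rintro f rfl; exact hφ ⟨_, rfl⟩) 0).and
            (Gen.of_subset (Q := {fun ω => decide (ψ ω = p.2)})
            (by rintro f rfl; exact hψ ⟨_, rfl⟩) 0))
      convert this using 3
      simp)
  have h2 : ∑ c ∈ U, (univ.filter fun p : α × β => op p.1 p.2 = c).card * (2 + 3)
      = 5 * Fintype.card α * Fintype.card β := by
    rw [← sum_mul, ← card_eq_sum_card_fiberwise (s := univ) (f := fun p : α × β => op p.1 p.2)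
      (t := U) (fun p _ => mem_coe.2 (mem_image_of_mem _ (mem_univ p)))]
    simp; ring
  rw [h2] at h1
  intro L hL hP
  obtain ⟨L', g1, g2, g3, g4⟩ := h1 L hL hP
  refine ⟨L', g1, g2, g3, ?_⟩
  rintro f ⟨c, rfl⟩
  by_cases hc : c ∈ U
  · exact g4 _ ⟨c, hc, rfl⟩
  · refine Or.inr (Or.inl ⟨false, funext fun ω => ?_⟩)
    rw [decide_eq_false_iff_not]
    exact fun h => hc (mem_image.2 ⟨(φ ω, ψ ω), mem_univ _, h⟩)

/-- any binary operation on small types -/
lemma TF.op2 [Fintype α] [Fintype β] {φ : Ω → α} {ψ : Ω → β} (op : α → β → γ)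
    (hφ : TF I P s φ) (hψ : TF I P t ψ) :
    TF I P (s + t + 5 * Fintype.card α * Fintype.card β) (fun ω => op (φ ω) (ψ ω)) :=
  TF.after (Gen.union hφ hψ) (TF.op0 op
    (Set.subset_union_left.trans Set.subset_union_right)
    (Set.subset_union_right.trans Set.subset_union_right))

/-- any unary operation on a small type -/
lemma TF.op1 [Fintype α] {φ : Ω → α} (op : α → γ) (hφ : TF I P s φ) :
    TF I P (s + 5 * Fintype.card α) (fun ω => op (φ ω)) := by
  simpa using TF.op2 (fun a (_ : Unit) => op a) hφ (TF.const () 0)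

lemma TF.sum [Fintype α] [AddCommMonoid α] {ι : Type} (T : Finset ι) (φ : ι → Ω → α)
    (h : ∀ i ∈ T, TF I P s (φ i)) :
    TF I P (T.card * (s + 5 * Fintype.card α * Fintype.card α)) (fun ω => ∑ i ∈ T, φ i ω) := by
  classical
  induction T using Finset.induction_on with
  | empty => simpa using TF.const (I := I) (P := P) (0 : α) 0
  | insert i T hi ih =>
    refine ((TF.op2 (· + ·) (h i (mem_insert_self _ _))
      (ih fun j hj => h j (mem_insert_of_mem hj))).le ?_).congr fun ω => by rw [sum_insert hi]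
    rw [card_insert_of_notMem hi]; nlinarith

lemma TF.prod [Fintype α] [CommMonoid α] {ι : Type} (T : Finset ι) (φ : ι → Ω → α)
    (h : ∀ i ∈ T, TF I P s (φ i)) :
    TF I P (T.card * (s + 5 * Fintype.card α * Fintype.card α)) (fun ω => ∏ i ∈ T, φ i ω) := by
  classical
  induction T using Finset.induction_on with
  | empty => simpa using TF.const (I := I) (P := P) (1 : α) 0
  | insert i T hi ih =>
    refine ((TF.op2 (· * ·) (h i (mem_insert_self _ _))
      (ih fun j hj => h j (mem_insert_of_mem hj))).le ?_).congr fun ω => by rw [prod_insert hi]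
    rw [card_insert_of_notMem hi]; nlinarith

/-- a large disjunction -/
lemma TF.exists {ι : Type} (T : Finset ι) (f : ι → Ω → Bool) (h : ∀ i ∈ T, TF I P s (f i))
    (o : Ω → Bool) (ho : ∀ ω, o ω = true ↔ ∃ i ∈ T, f i ω = true) :
    TF I P (T.card * (s + 3) + 1) o := by
  classical
  refine (TF.of_single (Gen.exists T f fun i hi => (h i hi).single)).congr fun ω => ?_
  rw [Bool.eq_iff_iff, ho, decide_eq_true_iff]

/-- a large conjunction -/
lemma TF.forall {ι : Type} (T : Finset ι) (f : ι → Ω → Bool) (h : ∀ i ∈ T, TF I P s (f i))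
    (o : Ω → Bool) (ho : ∀ ω, o ω = true ↔ ∀ i ∈ T, f i ω = true) :
    TF I P (T.card * (s + 13) + 11) o := by
  have h1 := TF.exists (I := I) (P := P) (s := s + 10) T (fun i ω => !(f i ω))
    (fun i hi => by simpa using TF.op1 (fun b => !b) (h i hi)) (fun ω => !(o ω)) (fun ω => by
      have := ho ω
      cases h : o ω <;> simp_all)
  exact ((TF.op1 (fun b => !b) h1).le (by simp)).congr fun ω => by simp

variable {N d e : ℕ}

lemma PF.tf {φ : Ω → α} (h : PF I P N d φ) : TF I P (N ^ d) φ := h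

lemma PF.of_subset {φ : Ω → α} (h : Bits φ ⊆ P) (d : ℕ) : PF I P N d φ := TF.of_subset h _

lemma PF.const (a : α) (d : ℕ) : PF I P N d (fun _ : Ω => a) := TF.const a _

lemma PF.le {φ : Ω → α} (h : PF I P N d φ) (hN : 7 ≤ N) (hd : d ≤ e) : PF I P N e φ :=
  TF.le h (Nat.pow_le_pow_right (by omega) hd)

lemma PF.mono {φ : Ω → α} (h : PF I P N d φ) (hP : P ⊆ P') : PF I P' N d φ := TF.mono h hP

lemma PF.congr {φ ψ : Ω → α} (h : PF I P N d φ) (e : ∀ ω, φ ω = ψ ω) : PF I P N d ψ :=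
  TF.congr h e

lemma sq_le_pow (hN : 7 ≤ N) (hd : 2 ≤ d) {a b : ℕ} (ha : a ≤ N) (hb : b ≤ N) :
    5 * a * b ≤ 5 * N ^ d := by
  have h1 : N ^ 2 ≤ N ^ d := Nat.pow_le_pow_right (by omega) hd
  have h2 : a * b ≤ N * N := Nat.mul_le_mul ha hb
  nlinarith

lemma PF.op2 [Fintype α] [Fintype β] {φ : Ω → α} {ψ : Ω → β} (op : α → β → γ) (hN : 7 ≤ N)
    (hd : 2 ≤ d) (ha : Fintype.card α ≤ N) (hb : Fintype.card β ≤ N)
    (hφ : PF I P N d φ) (hψ : PF I P N d ψ) : PF I P N (d + 1) (fun ω => op (φ ω) (ψ ω)) := by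
  refine (TF.op2 op hφ hψ).le ?_
  have := sq_le_pow hN hd ha hb
  have h7 : N ^ d * 7 ≤ N ^ d * N := Nat.mul_le_mul_left _ hN
  rw [pow_succ]; omega

lemma PF.op1 [Fintype α] {φ : Ω → α} (op : α → γ) (hN : 7 ≤ N) (hd : 2 ≤ d)
    (ha : Fintype.card α ≤ N) (hφ : PF I P N d φ) : PF I P N (d + 1) (fun ω => op (φ ω)) :=
  PF.op2 (fun a (_ : Unit) => op a) hN hd ha (by simp; omega) hφ (PF.const () d)

lemma PF.sum [Fintype α] [AddCommMonoid α] {ι : Type} (T : Finset ι) (φ : ι → Ω → α)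
    (hN : 7 ≤ N) (hd : 2 ≤ d) (ha : Fintype.card α ≤ N) (hT : T.card ≤ N)
    (h : ∀ i ∈ T, PF I P N d (φ i)) : PF I P N (d + 2) (fun ω => ∑ i ∈ T, φ i ω) := by
  refine (TF.sum T φ h).le ?_
  have := sq_le_pow hN hd ha ha
  have h7 : N ^ d * 7 ≤ N ^ d * N := Nat.mul_le_mul_left _ hN
  calc _ ≤ N * (N ^ d * N) := Nat.mul_le_mul hT (by omega)
    _ = _ := by ring

lemma PF.prod [Fintype α] [CommMonoid α] {ι : Type} (T : Finset ι) (φ : ι → Ω → α)
    (hN : 7 ≤ N) (hd : 2 ≤ d) (ha : Fintype.card α ≤ N) (hT : T.card ≤ N)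
    (h : ∀ i ∈ T, PF I P N d (φ i)) : PF I P N (d + 2) (fun ω => ∏ i ∈ T, φ i ω) := by
  refine (TF.prod T φ h).le ?_
  have := sq_le_pow hN hd ha ha
  have h7 : N ^ d * 7 ≤ N ^ d * N := Nat.mul_le_mul_left _ hN
  calc _ ≤ N * (N ^ d * N) := Nat.mul_le_mul hT (by omega)
    _ = _ := by ring

/-- the values of `ZMod 2` and of `Bool` are small -/
lemma card_zmod2_le (hN : 7 ≤ N) : Fintype.card (ZMod 2) ≤ N := by simp; omega

lemma card_bool_le (hN : 7 ≤ N) : Fintype.card Bool ≤ N := by simp; omega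

end Pool.Agent.MP_6b3410_lc.U5
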