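import Mathlib
import Pool.Agent.MP_6b3410_lc.U5.Calc

/-!
From straight line programs to NAND networks, and hitting lists.
-/

set_option autoImplicit false

namespace Pool.Agent.MP_6b3410_lc.U5

open Finset

lemma net_aux {E : Type} (e0 : E) (L : List ((E → Bool) → Bool))
    (hL : Prog (Set.range fun (e : E) (x : E → Bool) => x e) L) :
    ∃ (a b : ℕ → E ⊕ ℕ) (fn : ℕ → (E → Bool) → Bool),
      (∀ g < L.length + 3, ∀ j, (a g = Sum.inr j → j < g) ∧ (b g = Sum.inr j → j < g)) ∧
      (∀ g < L.length + 3, ∀ x, fn g x =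
        !(Sum.elim x (fun j => fn j x) (a g) && Sum.elim x (fun j => fn j x) (b g))) ∧
      ∀ f, ((∃ c, f = fun _ => c) ∨ f ∈ L) → ∃ j < L.length + 3, f = fn j := by
  induction hL with
  | nil =>
    refine ⟨fun g => if g = 2 then Sum.inr 1 else Sum.inl e0,
      fun g => if g = 0 then Sum.inl e0 else Sum.inr (g - 1),
      fun g x => if g = 0 then !(x e0) else if g = 1 then true else false, ?_, ?_, ?_⟩
    · intro g hg j
      simp only [List.length_nil] at hg
      interval_cases g <;> simp <;> omega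
    · intro g hg x
      simp only [List.length_nil] at hg
      interval_cases g <;> simp
    · rintro f (⟨c, rfl⟩ | h)
      · cases c
        · exact ⟨2, by simp, by simp⟩
        · exact ⟨1, by simp, by simp⟩
      · simp at h
  | cons f g L _ hf hg ih =>
    obtain ⟨a, b, fn, h1, h2, h3⟩ := ih
    have key : ∀ f, Av (Set.range fun (e : E) (x : E → Bool) => x e) L f →
        ∃ u : E ⊕ ℕ, (∀ j, u = Sum.inr j → j < L.length + 3) ∧
          ∀ x, f x = Sum.elim x (fun j => fn j x) u := by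
      rintro f (⟨e, rfl⟩ | h)
      · exact ⟨Sum.inl e, by simp, by simp⟩
      · obtain ⟨j, hj, rfl⟩ := h3 f h
        exact ⟨Sum.inr j, by simpa using hj, by simp⟩
    obtain ⟨u, hu, hu'⟩ := key f hf
    obtain ⟨v, hv, hv'⟩ := key g hg
    set s := L.length + 3 with hs
    have same : ∀ (w : E ⊕ ℕ) (x : E → Bool), (∀ j, w = Sum.inr j → j < s) →
        Sum.elim x (fun j => Function.update fn s (fun ω => !(f ω && g ω)) j x) w =
          Sum.elim x (fun j => fn j x) w := by
      rintro (e | j) x hw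
      · rfl
      · simp [Function.update_of_ne (hw j rfl).ne]
    refine ⟨Function.update a s u, Function.update b s v,
      Function.update fn s (fun ω => !(f ω && g ω)), ?_, ?_, ?_⟩
    · intro k hk j
      simp only [List.length_cons] at hk
      by_cases h : k = s
      · subst h
        simpa using ⟨hu j, hv j⟩
      · simpa [Function.update_of_ne h] using h1 k (by omega) j
    · intro k hk x
      simp only [List.length_cons] at hk
      by_cases h : k = s
      · subst h
        simp only [Function.update_self]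
        rw [same u x hu, same v x hv, hu', hv']
      · have hk' : k < s := by omega
        simp only [Function.update_of_ne h]
        rw [same _ x fun j hj => ((h1 k hk' j).1 hj).trans hk',
          same _ x fun j hj => ((h1 k hk' j).2 hj).trans hk', h2 k hk']
    · intro f' hf'
      simp only [List.length_cons, List.mem_cons] at hf' ⊢
      by_cases h : f' = fun ω => !(f ω && g ω)
      · exact ⟨s, by omega, by simp [h]⟩
      · obtain ⟨j, hj, rfl⟩ := h3 f' (by tauto)
        exact ⟨j, by omega, by rw [Function.update_of_ne hj.ne]⟩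

/-- a value computed from nothing is the output of a NAND network -/
theorem net {E : Type} (e0 : E) (s : ℕ) (o : (E → Bool) → Bool)
    (h : TF (Set.range fun (e : E) (x : E → Bool) => x e) ∅ s o) :
    ∃ s' ≤ s + 5, ∃ a b : Fin s' → E ⊕ Fin s', ∃ out : Fin s',
      (∀ g j : Fin s', (a g = Sum.inr j → j < g) ∧ (b g = Sum.inr j → j < g)) ∧
      ∀ (x : E → Bool) (val : Fin s' → Bool),
        (∀ g, val g = !(Sum.elim x val (a g) && Sum.elim x val (b g))) → val out = o x := by
  obtain ⟨L, h1, -, h3, h4⟩ := h.single [] Prog.nil (by simp)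
  have ho := h4 o rfl
  have h5 := Prog.cons _ _ _ h1 ho ho
  have h6 := Prog.cons (fun ω => !(o ω && o ω)) (fun ω => !(o ω && o ω)) _ h5
    (Or.inr (Or.inr (List.mem_cons_self ..))) (Or.inr (Or.inr (List.mem_cons_self ..)))
  obtain ⟨a, b, fn, g1, g2, g3⟩ := net_aux e0 _ h6
  obtain ⟨j0, hj0, hj⟩ := g3 _ (Or.inr (List.mem_cons_self ..))
  simp only [List.length_cons, List.length_nil] at g1 g2 hj0 h3
  set s' := L.length + 1 + 1 + 3 with hs'
  let cv : Fin s' → E ⊕ ℕ → E ⊕ Fin s' := fun g w =>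
    Sum.map id (fun j => if h : j < s' then ⟨j, h⟩ else g) w
  have hcv : ∀ (g : Fin s') (w : E ⊕ ℕ), (∀ j, w = Sum.inr j → j < g.val) →
      ∀ j : Fin s', cv g w = Sum.inr j → j < g ∧ w = Sum.inr j.val := by
    rintro g (e | i) hw j hj
    · simp [cv] at hj
    · have hi := hw i rfl
      have hi' : i < s' := hi.trans g.2
      simp only [cv, Sum.map_inr, dif_pos hi', Sum.inr.injEq] at hj
      subst hj
      exact ⟨hi, rfl⟩
  refine ⟨s', by omega, fun g => cv g (a g), fun g => cv g (b g), ⟨j0, hj0⟩, fun g j =>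
    ⟨fun h => (hcv g _ (fun j => (g1 g g.2 j).1) j h).1,
      fun h => (hcv g _ (fun j => (g1 g g.2 j).2) j h).1⟩, fun x val hval => ?_⟩
  have main : ∀ k, ∀ g : Fin s', g.val = k → val g = fn g x := by
    intro k
    induction k using Nat.strong_induction_on with
    | _ k ih =>
      intro g hg
      have e : ∀ w : E ⊕ ℕ, (∀ j, w = Sum.inr j → j < g.val) →
          Sum.elim x val (cv g w) = Sum.elim x (fun j => fn j x) w := by
        rintro (e | i) hw
        · rfl
        · have hi := hw i rfl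
          have hi' : i < s' := hi.trans g.2
          simp only [cv, Sum.map_inr, dif_pos hi', Sum.elim_inr]
          exact ih i (by omega) ⟨i, hi'⟩ rfl
      rw [hval, g2 g g.2, e _ fun j => (g1 g g.2 j).1, e _ fun j => (g1 g g.2 j).2]
  rw [main j0 ⟨j0, hj0⟩ rfl, ← hj]
  simp

open Classical in
lemma hit_aux {G Ξ : Type} [Fintype G] [Fintype Ξ] (p : Ξ → ℝ) (hp : ∀ ξ, 0 ≤ p ξ)
    (hp1 : ∑ ξ, p ξ = 1) (good : G → Ξ → Prop) (δ : ℝ) (hδ : δ ≤ 1) (K : ℕ) :
    ∃ t : ℕ → Ξ, ((univ.filter fun g => (δ ≤ ∑ ξ, if good g ξ then p ξ else 0) ∧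
      ∀ j < K, ¬ good g (t j)).card : ℝ) ≤ Fintype.card G * (1 - δ) ^ K := by
  have hne : Nonempty Ξ := by
    by_contra h
    rw [not_nonempty_iff] at h
    simp at hp1
  induction K with
  | zero =>
    refine ⟨fun _ => hne.some, ?_⟩
    rw [pow_zero, mul_one]
    exact_mod_cast card_le_univ _
  | succ K ih =>
    obtain ⟨t, ht⟩ := ih
    set R := univ.filter fun g => (δ ≤ ∑ ξ, if good g ξ then p ξ else 0) ∧
      ∀ j < K, ¬ good g (t j) with hR
    have h1 : ∑ ξ, p ξ * ((R.filter fun g => ¬ good g ξ).card : ℝ) ≤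
        ∑ ξ, p ξ * (R.card * (1 - δ)) := by
      rw [← sum_mul, hp1, one_mul]
      simp only [card_filter, Nat.cast_sum, mul_sum]
      rw [sum_comm, ← nsmul_eq_mul]
      refine sum_le_card_nsmul _ _ _ fun g hg => ?_
      have h2 := (mem_filter.1 hg).2.1
      have h3 : ∑ ξ, p ξ * ((if ¬ good g ξ then 1 else 0 : ℕ) : ℝ) +
          ∑ ξ, (if good g ξ then p ξ else 0) = ∑ ξ, p ξ := by
        rw [← sum_add_distrib]
        refine sum_congr rfl fun ξ _ => ?_
        by_cases h : good g ξ <;> simp [h]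
      linarith
    obtain ⟨ξ, hξ⟩ : ∃ ξ, ((R.filter fun g => ¬ good g ξ).card : ℝ) ≤ R.card * (1 - δ) := by
      by_contra hc
      push Not at hc
      obtain ⟨ξ0, hξ0⟩ : ∃ ξ, 0 < p ξ := by
        by_contra h
        push Not at h
        have := sum_nonpos (s := univ) fun ξ _ => h ξ
        linarith
      exact absurd h1 (not_le.2 (sum_lt_sum
        (fun ξ _ => mul_le_mul_of_nonneg_left (hc ξ).le (hp ξ))
        ⟨ξ0, mem_univ _, mul_lt_mul_of_pos_left (hc ξ0) hξ0⟩))
    refine ⟨Function.update t K ξ, ?_⟩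
    have h4 : (univ.filter fun g => (δ ≤ ∑ ξ, if good g ξ then p ξ else 0) ∧
        ∀ j < K + 1, ¬ good g (Function.update t K ξ j)) ⊆ R.filter fun g => ¬ good g ξ := by
      intro g hg
      obtain ⟨h5, h6⟩ := (mem_filter.1 hg).2
      refine mem_filter.2 ⟨mem_filter.2 ⟨mem_univ _, h5, fun j hj => ?_⟩, ?_⟩
      · simpa [Function.update_of_ne hj.ne] using h6 j (by omega)
      · simpa using h6 K (by omega)
    calc _ ≤ ((R.filter fun g => ¬ good g ξ).card : ℝ) := by exact_mod_cast card_le_card h4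
      _ ≤ R.card * (1 - δ) := hξ
      _ ≤ Fintype.card G * (1 - δ) ^ K * (1 - δ) :=
        mul_le_mul_of_nonneg_right ht (by linarith)
      _ = _ := by ring

open Classical in
/-- one short list of seeds serves all instances -/
theorem hit {G Ξ : Type} [Fintype G] [Fintype Ξ] (p : Ξ → ℝ) (hp : ∀ ξ, 0 ≤ p ξ)
    (hp1 : ∑ ξ, p ξ = 1) (good : G → Ξ → Prop) (δ : ℝ) (hδ : δ ≤ 1) (K e : ℕ)
    (hG : Fintype.card G ≤ 2 ^ e) (hK : (e : ℝ) + 1 ≤ K * δ) :
    ∃ t : ℕ → Ξ, ∀ g, (δ ≤ ∑ ξ, if good g ξ then p ξ else 0) → ∃ j < K, good g (t j) := by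
  obtain ⟨t, ht⟩ := hit_aux p hp hp1 good δ hδ K
  refine ⟨t, fun g hg => ?_⟩
  by_contra hc
  push Not at hc
  have h1 : (1 : ℝ) ≤ Fintype.card G * (1 - δ) ^ K := by
    refine le_trans ?_ ht
    have h0 : 0 < (univ.filter fun g => (δ ≤ ∑ ξ, if good g ξ then p ξ else 0) ∧
        ∀ j < K, ¬ good g (t j)).card :=
      card_pos.2 ⟨g, by rw [mem_filter]; exact ⟨mem_univ _, hg, hc⟩⟩
    exact_mod_cast h0
  have h2 : (1 - δ) ^ K ≤ Real.exp (-δ) ^ K :=
    pow_le_pow_left₀ (by linarith) (by linarith [Real.add_one_le_exp (-δ)]) K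
  have h3 : (Fintype.card G : ℝ) ≤ Real.exp 1 ^ e := by
    calc (Fintype.card G : ℝ) ≤ 2 ^ e := by exact_mod_cast hG
      _ ≤ _ := pow_le_pow_left₀ (by norm_num) (by linarith [Real.add_one_le_exp (1 : ℝ)]) e
  have h4 : (1 : ℝ) ≤ Real.exp 1 ^ e * Real.exp (-δ) ^ K :=
    h1.trans (mul_le_mul h3 h2 (pow_nonneg (by linarith) _) (by positivity))
  rw [← Real.exp_nat_mul, ← Real.exp_nat_mul, ← Real.exp_add, Real.one_le_exp_iff] at h4
  linarith

open Classical in
/-- the uniform case -/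
theorem hit_unif {G Ξ : Type} [Fintype G] [Fintype Ξ] [Nonempty Ξ] (good : G → Ξ → Prop) (δ : ℝ)
    (hδ : δ ≤ 1) (K e : ℕ) (hG : Fintype.card G ≤ 2 ^ e) (hK : (e : ℝ) + 1 ≤ K * δ) :
    ∃ t : ℕ → Ξ, ∀ g, δ * Fintype.card Ξ ≤ (univ.filter fun ξ => good g ξ).card →
      ∃ j < K, good g (t j) := by
  have hc : (0 : ℝ) < Fintype.card Ξ := by exact_mod_cast Fintype.card_pos
  obtain ⟨t, ht⟩ := hit (fun _ : Ξ => (Fintype.card Ξ : ℝ)⁻¹) (fun _ => by positivity)
    (by simp) good δ hδ K e hG hK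
  refine ⟨t, fun g hg => ht g ?_⟩
  rw [← sum_filter, sum_const, nsmul_eq_mul, ← div_eq_mul_inv, le_div_iff₀ hc]
  exact hg

end Pool.Agent.MP_6b3410_lc.U5
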