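import Mathlib
import Pool.Agent.MP_6b3410_lc.H5.DHam
import Pool.Agent.MP_6b3410_lc.U5.Calc

/-!
Definitions and the statements of the parts of the upper bound for Hamiltonicity circuits.
The paper proof is in the team store, file MP_6b3410_U5_plan.md.
-/

set_option autoImplicit false

namespace Pool.Agent.MP_6b3410_lc.U5

open Finset
open Pool.Agent.MP_6b3410_lc.H5 (Cyc)

/-- a finite sequence, continued by the constant `a` -/
def ext {V : Type} {l : ℕ} (a : V) (g : Fin l → V) : ℕ → V :=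
  fun t => if h : t < l then g ⟨t, h⟩ else a

/-- the weight of the first `l` terms of `f`: vertices, steps and triples -/
def pw {V R : Type} [CommRing R] (l : ℕ) (va : V → R) (eb : V → V → R) (tr : V → V → V → R)
    (f : ℕ → V) : R :=
  (∏ t ∈ range l, va (f t)) * (∏ t ∈ range (l - 1), eb (f t) (f (t + 1))) *
    ∏ t ∈ range (l - 2), tr (f t) (f (t + 1)) (f (t + 2))

/-- the total weight of the sequences of `l` vertices from `a` to `b` -/
def wsum {V R : Type} [Fintype V] [DecidableEq V] [CommRing R] (l : ℕ) (a b : V) (va : V → R)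
    (eb : V → V → R) (tr : V → V → V → R) : R :=
  ∑ g : Fin l → V, if ext a g 0 = a ∧ ext a g (l - 1) = b then pw l va eb tr (ext a g) else 0

/-- `f 0, …, f (n-1)` is a path from `a` to `b` -/
def IsPath {V : Type} (n : ℕ) (A : V → V → Prop) (a b : V) (f : ℕ → V) : Prop :=
  Set.InjOn f {t | t < n} ∧ f 0 = a ∧ f (n - 1) = b ∧ ∀ t, t + 1 < n → A (f t) (f (t + 1))

/-- the edge set of `f 0, …, f (n-1)` -/
def pe {V : Type} [DecidableEq V] (n : ℕ) (f : ℕ → V) : Finset (Sym2 V) :=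
  (range (n - 1)).image fun t => s(f t, f (t + 1))

/-- the number of labels: visits to `W` and steps outside `W` -/
def kc {V : Type} (n : ℕ) (W : V → Bool) (f : ℕ → V) : ℕ :=
  ((range n).filter fun t => W (f t) = true).card +
    ((range (n - 1)).filter fun t => W (f t) = false ∧ W (f (t + 1)) = false).card

section sieve

variable {n m : ℕ} {F : Type}

/-- vertex weights of the sieve -/
def svV [CommRing F] (W : Fin n → Bool) (z : Sym2 (Fin n) × Option (Fin m) → F) (S : Finset (Fin m)) (τ : F)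
    (v : Fin n) : F :=
  if W v = true then τ * ∑ l ∈ S, z (s(v, v), some l) else 1

/-- step weights of the sieve -/
def svE [CommRing F] (W : Fin n → Bool) (z : Sym2 (Fin n) × Option (Fin m) → F) (S : Finset (Fin m)) (τ : F)
    (u v : Fin n) : F :=
  z (s(u, v), none) *
    if W u = false ∧ W v = false then τ * ∑ l ∈ S, z (s(u, v), some l) else 1

/-- going into `W` and straight back is forbidden -/
def svT [CommRing F] (W : Fin n → Bool) (u v w : Fin n) : F :=
  if u = w ∧ W u = false ∧ W v = true then 0 else 1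

/-- the labelled walk sieve -/
def sv [Field F] [Fintype F] [DecidableEq F] (A : Fin n → Fin n → Bool) (a b : Fin n) (W : Fin n → Bool)
    (z : Sym2 (Fin n) × Option (Fin m) → F) : F :=
  ∑ S : Finset (Fin m), ∑ τ : Fˣ, ((τ⁻¹ : Fˣ) : F) ^ m *
    wsum n a b (svV W z S τ) (fun u v => if A u v = true then svE W z S τ u v else 0) (svT W)

end sieve

/-- the family `T` shatters a mistake tree of depth `L` (Littlestone dimension at least `L`) -/
def Sh {ι ε : Type} [DecidableEq ε] (E : ι → Finset ε) : ℕ → Finset ι → Prop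
  | 0, T => T.Nonempty
  | L + 1, T => ∃ e, Sh E L (T.filter fun i => e ∈ E i) ∧ Sh E L (T.filter fun i => e ∉ E i)

/-- the local factors of the parity formula -/
def phi {n : ℕ} (B : Fin n → Fin n → ZMod 2) (a : Fin n) (x y : Fin n → ZMod 2) (v : Fin n) :
    ZMod 2 :=
  if v = a then (1 + x v) * ∑ u, B v u * y u
  else (1 + y v) * (∑ u, B v u * x u) + (1 + x v) * ∑ u, B v u * y u

/-- `x` is locally odd at the first `k` vertices -/
def Good {n : ℕ} (k : ℕ) (B : Fin n → Fin n → ZMod 2) (x : Fin n → ZMod 2) : Prop :=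
  ∀ v : Fin n, v.val < k → x v = 1 → ∑ u, B v u * x u = 1

open Classical in
/-- the number of cyclic permutations along arcs of `B` -/
noncomputable def ncyc {n : ℕ} (B : Fin n → Fin n → ZMod 2) : ℕ :=
  (univ.filter fun σ : Fin n → Fin n => Cyc (fun u v => B u v = 1) σ).card

open Classical in
/-- the number of locally odd vectors -/
noncomputable def ngood {n : ℕ} (k : ℕ) (B : Fin n → Fin n → ZMod 2) : ℕ :=
  (univ.filter fun x : Fin n → ZMod 2 => Good k B x).card

/-- the multiset of the valid items of an array of `2 ^ d` groups of `G` slots -/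
def ms {Ω : Type} {n : ℕ} (d G : ℕ) (vd : (Fin d → Bool) → ℕ → Ω → Bool)
    (pl : (Fin d → Bool) → ℕ → Ω → Fin n → ZMod 2) (ω : Ω) : Multiset (Fin n → ZMod 2) :=
  ∑ u : Fin d → Bool, ∑ r ∈ range G, if vd u r ω = true then {pl u r ω} else 0

/-- the bits of an array -/
def ArrBits {Ω : Type} {n : ℕ} (d G : ℕ) (vd : (Fin d → Bool) → ℕ → Ω → Bool)
    (pl : (Fin d → Bool) → ℕ → Ω → Fin n → ZMod 2) : Set (Ω → Bool) :=
  {f | ∃ u r, r < G ∧ (f ∈ Bits (vd u r) ∨ ∃ v, f ∈ Bits fun ω => pl u r ω v)}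

/-- row DP: walk sums have small circuits -/
def DPStmt : Prop :=
  ∃ D : ℕ, ∀ (Ω : Type) (I P : Set (Ω → Bool)) (N n : ℕ) (F : Type) [CommRing F] [Fintype F]
    (A : Ω → Fin n → Fin n → Bool) (a b : Fin n) (va : Fin n → F) (eb : Fin n → Fin n → F)
    (tr : Fin n → Fin n → Fin n → F), 7 ≤ N → n ≤ N → Fintype.card F ≤ N → 2 ≤ n →
    (∀ u v, Bits (fun ω => A ω u v) ⊆ P) →
    PF I P N D fun ω => wsum n a b va (fun u v => if A ω u v = true then eb u v else 0) tr

/-- row SOUND: only paths survive in the sieve -/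
def SoundStmt : Prop :=
  ∀ (n m : ℕ) (F : Type) [Field F] [Fintype F] [DecidableEq F] [CharP F 2]
    (A : Fin n → Fin n → Bool) (a b : Fin n) (W : Fin n → Bool)
    (z : Sym2 (Fin n) × Option (Fin m) → F), 2 ≤ n → 8 * n ≤ Fintype.card F → m ≤ n →
    (∀ u v, A u v = A v u) → (∀ u, A u u = false) →
    sv A a b W z = ∑ g : Fin n → Fin n, open Classical in
      if IsPath n (fun u v => A u v = true) a b (ext a g) ∧ kc n W (ext a g) = m then
        ∑ S : Finset (Fin m), pw n (svV W z S 1) (svE W z S 1) (fun _ _ _ => 1) (ext a g)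
      else 0

/-- row COMPL: a path with `m` labels is seen by half of the weights -/
def ComplStmt : Prop :=
  ∀ (n m : ℕ) (F : Type) [Field F] [Fintype F] [DecidableEq F] [CharP F 2]
    (A : Fin n → Fin n → Bool) (a b : Fin n) (W : Fin n → Bool) (f : ℕ → Fin n),
    2 ≤ n → 8 * n ≤ Fintype.card F → m ≤ n → (∀ u v, A u v = A v u) → (∀ u, A u u = false) →
    IsPath n (fun u v => A u v = true) a b f → kc n W f = m →
    Fintype.card (Sym2 (Fin n) × Option (Fin m) → F) ≤
      2 * (univ.filter fun z : Sym2 (Fin n) × Option (Fin m) → F => sv A a b W z ≠ 0).card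

/-- two paths through all vertices with the same start and nested edge sets are equal -/
def UniqStmt : Prop :=
  ∀ (V : Type) [DecidableEq V] (n : ℕ) (f g : ℕ → V), Set.InjOn f {t | t < n} →
    Set.InjOn g {t | t < n} → f 0 = g 0 → pe n f ⊆ pe n g → ∀ t < n, f t = g t

/-- row CAP: a deep mistake tree makes random colourings succeed more often -/
def CapStmt : Prop :=
  ∀ (n : ℕ) (ι : Type) (T : Finset ι) (sq : ι → ℕ → Fin n) (L : ℕ), 2 ≤ n →
    (∀ i ∈ T, Set.InjOn (sq i) {t | t < n}) → Sh (fun i => pe n (sq i)) L T →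
    ∃ m ≤ n, (2 : ℝ) ^ m * (1 + 1 / 1000) ^ L * 2 ^ n ≤
      2 * (n + 1) * (4 * (Real.sqrt 2 - 1)) ^ n *
        ((open Classical in
          univ.filter fun W : Fin n → Bool => ∃ i ∈ T, kc n W (sq i) = m).card : ℝ)

/-- row ISO: without a deep mistake tree, random deletion leaves an odd number of members -/
def IsoStmt : Prop :=
  ∀ (ι ε : Type) [Fintype ε] [DecidableEq ε] (E : ι → Finset ε) (T : Finset ι) (L M : ℕ) (ρ : ℝ),
    0 ≤ ρ → ρ ≤ 1 / 2 → T.Nonempty → ¬ Sh E (L + 1) T → Set.InjOn E T →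
    (∀ i ∈ T, (E i).card ≤ M) →
    ρ ^ L * (1 - ρ) ^ M ≤ ∑ z : ε → Bool,
      if Odd (T.filter fun i => ∀ e ∈ E i, z e = true).card then
        ∏ e, (if z e = true then 1 - ρ else ρ) else 0

/-- row PAR: the parity formula -/
def ParStmt : Prop :=
  ∀ (n : ℕ) (B : Fin n → Fin n → ZMod 2) (a : Fin n),
    (ncyc B : ZMod 2) = ∑ x : Fin n → ZMod 2, ∑ y : Fin n → ZMod 2, ∏ v, phi B a x y v

/-- row MARK: for half of the diagonals there are few locally odd vectors -/
def MarkStmt : Prop :=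
  ∀ (n k : ℕ) (B : Fin n → Fin n → ZMod 2), k ≤ n →
    2 ^ n ≤ 2 * (univ.filter fun r : Fin n → ZMod 2 =>
      ngood k (fun u v => if u = v then r u else B u v) * 2 ^ k ≤ 2 * 3 ^ k * 2 ^ (n - k)).card

/-- row GAUSS: linear systems over the field with two elements -/
def GaussStmt : Prop :=
  ∃ D : ℕ, ∀ (Ω : Type) (I P : Set (Ω → Bool)) (N n : ℕ) (κ : Type) [Fintype κ]
    (α : κ → Fin n → Ω → ZMod 2) (c : κ → Ω → ZMod 2), 7 ≤ N → n ≤ N →
    Fintype.card κ + 1 ≤ N → (∀ k i, Bits (α k i) ⊆ P) → (∀ k, Bits (c k) ⊆ P) →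
    (∀ o : Ω → Bool,
      (∀ ω, o ω = true ↔ ∃ y : Fin n → ZMod 2, ∀ k, ∑ i, α k i ω * y i = c k ω) →
      PF I P N D o) ∧
    PF I P N D fun ω =>
      (((univ.filter fun y : Fin n → ZMod 2 => ∀ k, ∑ i, α k i ω * y i = c k ω).card : ℕ) :
        ZMod 2)

/-- row BAL: oblivious load balancing on the hypercube -/
def BalStmt : Prop :=
  ∃ D : ℕ, ∀ (Ω : Type) (I P : Set (Ω → Bool)) (N n d G : ℕ)
    (vd : (Fin d → Bool) → ℕ → Ω → Bool) (pl : (Fin d → Bool) → ℕ → Ω → Fin n → ZMod 2),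
    7 ≤ N → n ≤ N → 2 * G ≤ N → d + 1 ≤ N → ArrBits d G vd pl ⊆ P →
    ∃ (vd' : (Fin d → Bool) → ℕ → Ω → Bool) (pl' : (Fin d → Bool) → ℕ → Ω → Fin n → ZMod 2),
      Gen I (2 ^ d * N ^ D) P (ArrBits d G vd' pl') ∧
      ∀ ω, ms d G vd' pl' ω = ms d G vd pl ω ∧ ∀ u r, r < G → vd' u r ω = true →
        2 * 2 ^ d * (r + 1) ≤ 2 * Multiset.card (ms d G vd pl ω) + d * 2 ^ d

/-- row SEARCH: oblivious backtracking -/
def SearchStmt : Prop :=
  ∃ D : ℕ, ∀ (Ω : Type) (I P : Set (Ω → Bool)) (N n d c : ℕ)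
    (val : ℕ → Ω → (Fin n → ZMod 2) → Bool) (Φ : Ω → (Fin n → ZMod 2) → ZMod 2),
    7 ≤ N → n ≤ N → 4 * (d + 1) ≤ N →
    (∀ j ≤ n, ∀ (P' : Set (Ω → Bool)) (x : Ω → Fin n → ZMod 2), P ⊆ P' →
      (∀ v, Bits (fun ω => x ω v) ⊆ P') → TF I P' c fun ω => val j ω (x ω)) →
    (∀ (P' : Set (Ω → Bool)) (x : Ω → Fin n → ZMod 2), P ⊆ P' →
      (∀ v, Bits (fun ω => x ω v) ⊆ P') → TF I P' c fun ω => Φ ω (x ω)) →
    (∀ ω (j : Fin n) (x : Fin n → ZMod 2), (∀ v, j < v → x v = 0) → val (j + 1) ω x = true →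
      val j ω (Function.update x j 0) = true) →
    ∃ o : Ω → Bool, TF I P (2 ^ d * N ^ D * (c + 1)) o ∧ ∀ ω,
      (o ω = true → ∑ x ∈ univ.filter (fun x => val n ω x = true), Φ ω x = 1) ∧
      ((∀ j ≤ n, (univ.filter fun x : Fin n → ZMod 2 =>
          (∀ v : Fin n, j ≤ v.val → x v = 0) ∧ val j ω x = true).card ≤ 2 ^ d) →
        ∑ x ∈ univ.filter (fun x => val n ω x = true), Φ ω x = 1 → o ω = true)

/-- row PARC: circuits for the parity of the number of Hamilton cycles -/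
def ParcStmt : Prop :=
  ∃ D : ℕ, ∀ (Ω : Type) (I P : Set (Ω → Bool)) (N n k d : ℕ)
    (B : Ω → Fin n → Fin n → ZMod 2), 7 ≤ N → 1 ≤ n → 2 * n + 1 ≤ N → 4 * (d + 1) ≤ N →
    k ≤ n → k ≤ d → (∀ u v, Bits (fun ω => B ω u v) ⊆ P) →
    ∃ o : Ω → Bool, TF I P (2 ^ d * N ^ D) o ∧ ∀ ω,
      (o ω = true → Odd (ncyc (B ω))) ∧
      (ngood k (B ω) ≤ 2 ^ d → Odd (ncyc (B ω)) → o ω = true)

end Pool.Agent.MP_6b3410_lc.U5
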