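import Mathlib
import Pool.Agent.MP_6b3410_lc.U5.Spec

/-!
The family of Hamilton cycles through a fixed arc.
-/

set_option autoImplicit false

namespace Pool.Agent.MP_6b3410_lc.U5

open Finset
open Pool.Agent.MP_6b3410_lc.H5 (Cyc DHam)

variable {n : ℕ}

open Classical in
/-- the Hamilton cycles that use the arc from `b` to `a` -/
noncomputable def fam (A : Fin n → Fin n → Bool) (a b : Fin n) : Finset (Fin n → Fin n) :=
  univ.filter fun σ => Cyc (fun u v => A u v = true) σ ∧ σ b = a

/-- the orbit of `a` -/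
def orb (a : Fin n) (σ : Fin n → Fin n) : ℕ → Fin n := fun t => σ^[t] a

lemma mem_fam {A : Fin n → Fin n → Bool} {a b : Fin n} {σ : Fin n → Fin n} :
    σ ∈ fam A a b ↔ Cyc (fun u v => A u v = true) σ ∧ σ b = a := by
  simp [fam]

lemma orb_succ (a : Fin n) (σ : Fin n → Fin n) (t : ℕ) : orb a σ (t + 1) = σ (orb a σ t) :=
  Function.iterate_succ_apply' _ _ _

lemma cyc_orb {Arc : Fin n → Fin n → Prop} {σ : Fin n → Fin n} (hσ : Cyc Arc σ) (a : Fin n) :
    Set.InjOn (orb a σ) {t | t < n} ∧ orb a σ n = a ∧ ∀ v, ∃ t < n, orb a σ t = v := by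
  have hper : a ∈ Function.periodicPts σ := hσ.inj.mem_periodicPts a
  have hT : 0 < Function.minimalPeriod σ a := Function.minimalPeriod_pos_of_mem_periodicPts hper
  have hinj := Function.iterate_injOn_Iio_minimalPeriod (f := σ) (x := a)
  have hit := Function.iterate_minimalPeriod (f := σ) (x := a)
  set T := Function.minimalPeriod σ a with hTdef
  have hall := hσ.clo {v | ∃ i, i < T ∧ σ^[i] a = v} ⟨a, 0, hT, rfl⟩ (by
    rintro v ⟨i, hi, rfl⟩
    rcases (Nat.succ_le_of_lt hi).lt_or_eq with h | h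
    · exact ⟨i + 1, h, Function.iterate_succ_apply' _ _ _⟩
    · refine ⟨0, hT, ?_⟩
      rw [← Function.iterate_succ_apply' σ, h, hit]; rfl)
  have hcard : T = n := by
    rw [← Fintype.card_fin T, ← Fintype.card_fin n]
    refine (Fintype.card_of_bijective (f := fun i : Fin T => σ^[i] a)
      ⟨fun i j hij => ?_, fun v => ?_⟩).trans (by simp)
    · exact Fin.ext (hinj i.2 j.2 hij)
    · obtain ⟨i, hi, h⟩ := hall v
      exact ⟨⟨i, hi⟩, h⟩
  rw [hcard] at hinj hit hall
  exact ⟨hinj, hit, hall⟩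

lemma fam_path {A : Fin n → Fin n → Bool} {a b : Fin n} {σ : Fin n → Fin n}
    (h : σ ∈ fam A a b) : IsPath n (fun u v => A u v = true) a b (orb a σ) := by
  obtain ⟨h1, h2⟩ := mem_fam.1 h
  obtain ⟨g1, g2, -⟩ := cyc_orb h1 a
  have hn : 0 < n := a.pos
  refine ⟨g1, rfl, h1.inj ?_, fun t _ => ?_⟩
  · rw [← orb_succ a σ, Nat.sub_add_cancel hn, g2, h2]
  · rw [orb_succ]; exact h1.arc _

lemma fam_injOn (hu : UniqStmt) (A : Fin n → Fin n → Bool) (a b : Fin n) :
    Set.InjOn (fun σ => pe n (orb a σ)) (fam A a b) := by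
  intro σ hσ τ hτ h
  have h1 := fam_path (mem_coe.1 hσ)
  have h2 := fam_path (mem_coe.1 hτ)
  have h3 := hu (Fin n) n _ _ h1.1 h2.1 rfl (le_of_eq h)
  funext v
  obtain ⟨t, ht, rfl⟩ := (cyc_orb (mem_fam.1 (mem_coe.1 hσ)).1 a).2.2 v
  by_cases h4 : t + 1 < n
  · rw [← orb_succ a σ, h3 _ h4, orb_succ, h3 t ht]
  · obtain rfl : t = n - 1 := by omega
    rw [h1.2.2.1, (mem_fam.1 (mem_coe.1 hσ)).2, (mem_fam.1 (mem_coe.1 hτ)).2]

lemma card_pe {V : Type} [DecidableEq V] (f : ℕ → V) : (pe n f).card ≤ n :=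
  card_image_le.trans (by simp)

lemma dham_of_path {A : Fin n → Fin n → Prop} {a b : Fin n} {f : ℕ → Fin n}
    (h : IsPath n A a b f) (hab : A b a) : DHam A := by
  obtain ⟨h1, h2, h3, h4⟩ := h
  have hn : 0 < n := a.pos
  have hs : Function.Surjective fun t : Fin n => f t :=
    Finite.injective_iff_surjective.1 fun s t hst => Fin.ext (h1 s.2 t.2 hst)
  choose idx hidx0 using hs
  have hidx : ∀ v, f (idx v) = v := hidx0
  have hid : ∀ t, t < n → (idx (f t)).val = t := fun t ht => h1 (idx (f t)).2 ht (hidx _)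
  refine ⟨fun v => f ((idx v + 1) % n), Cyc.of_rank (fun u v huv => ?_) (fun v => ?_)
    (fun v => idx v) b fun v hv => ?_⟩
  · have := h1 (Nat.mod_lt _ hn) (Nat.mod_lt _ hn) huv
    have h5 : (idx u).val = idx v := by
      have hu := (idx u).2
      have hv := (idx v).2
      rcases Nat.lt_or_ge (idx u + 1) n with c1 | c1 <;>
        rcases Nat.lt_or_ge (idx v + 1) n with c2 | c2
      · rw [Nat.mod_eq_of_lt c1, Nat.mod_eq_of_lt c2] at this; omega
      · rw [Nat.mod_eq_of_lt c1, show (idx v).val + 1 = n by omega, Nat.mod_self] at this; omega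
      · rw [Nat.mod_eq_of_lt c2, show (idx u).val + 1 = n by omega, Nat.mod_self] at this; omega
      · omega
    rw [← hidx u, ← hidx v]
    exact congrArg f h5
  · have hv := (idx v).2
    rcases Nat.lt_or_ge (idx v + 1) n with c | c
    · rw [Nat.mod_eq_of_lt c]
      have := h4 _ c
      rwa [hidx v] at this
    · have h5 : (idx v).val = n - 1 := by omega
      have h6 : v = b := by rw [← h3, ← h5]; exact (hidx v).symm
      rw [show (idx v).val + 1 = n by omega, Nat.mod_self, h2, h6]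
      exact hab
  · have hv' := (idx v).2
    have c : (idx v).val + 1 < n := by
      by_contra c
      exact hv (by rw [← h3, ← show (idx v).val = n - 1 by omega]; exact (hidx v).symm)
    rw [Nat.mod_eq_of_lt c, hid _ c]
    omega

/-- the matrix of the subgraph kept by `z`, with the arc from `b` to `a` forced -/
def mat (A : Fin n → Fin n → Bool) (a b : Fin n) (z : Sym2 (Fin n) → Bool) (u v : Fin n) :
    ZMod 2 :=
  if A u v = true ∧ (if u = b then v = a else z s(u, v) = true) then 1 else 0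

lemma cyc_ne {Arc : Fin n → Fin n → Prop} {σ : Fin n → Fin n} (hσ : Cyc Arc σ) (hn : 2 ≤ n)
    (v : Fin n) : σ v ≠ v := by
  intro h
  have := hσ.clo {v} ⟨v, rfl⟩ (by rintro w rfl; exact h)
  have h0 := this ⟨0, by omega⟩
  have h1 := this ⟨1, by omega⟩
  rw [Set.mem_singleton_iff] at h0 h1
  have := h0.trans h1.symm
  simp at this

lemma ncyc_mat (hn : 2 ≤ n) (A : Fin n → Fin n → Bool) (a b : Fin n) (z : Sym2 (Fin n) → Bool)
    (r : Fin n → ZMod 2) :
    ncyc (fun u v => if u = v then r u else mat A a b z u v) =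
      ((fam A a b).filter fun σ => ∀ e ∈ pe n (orb a σ), z e = true).card := by
  unfold ncyc
  congr 1
  ext σ
  simp only [mem_filter, mem_univ, true_and]
  constructor
  · intro h
    have h1 : ∀ u, A u (σ u) = true ∧ (if u = b then σ u = a else z s(u, σ u) = true) := by
      intro u
      have := h.arc u
      rw [if_neg (cyc_ne h hn u).symm] at this
      by_contra hc
      simp [mat, hc] at this
    have h2 : σ ∈ fam A a b :=
      mem_fam.2 ⟨⟨h.inj, fun u => (h1 u).1, h.clo⟩, by simpa using (h1 b).2⟩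
    refine ⟨h2, fun e he => ?_⟩
    obtain ⟨t, ht, rfl⟩ := mem_image.1 he
    rw [mem_range] at ht
    have h3 := fam_path h2
    have h4 : orb a σ t ≠ b := by
      intro h5
      have := h3.1 (show t < n by omega) (show n - 1 < n by omega) (h5.trans h3.2.2.1.symm)
      omega
    rw [orb_succ]
    simpa [h4] using (h1 (orb a σ t)).2
  · rintro ⟨h2, h5⟩
    obtain ⟨h, hb⟩ := mem_fam.1 h2
    refine ⟨h.inj, fun u => ?_, h.clo⟩
    rw [if_neg (cyc_ne h hn u).symm]
    refine if_pos ⟨h.arc u, ?_⟩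
    split_ifs with hu
    · rw [hu, hb]
    · obtain ⟨t, ht, rfl⟩ := (cyc_orb h a).2.2 u
      have h6 : t ≠ n - 1 := fun h7 => hu (by rw [h7]; exact (fam_path h2).2.2.1)
      rw [← orb_succ a σ]
      exact h5 _ (mem_image.2 ⟨t, mem_range.2 (by omega), rfl⟩)

end Pool.Agent.MP_6b3410_lc.U5
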