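import Pool.Agent.MP_6b3410_lc.U5.Spec

/-!
Row PARC: circuits for the parity of the number of Hamilton cycles, from the parity formula,
Gaussian elimination and oblivious backtracking.
-/

set_option autoImplicit false

namespace Pool.Agent.MP_6b3410_lc.U5

open Finset

namespace Parc

/-- Gaussian elimination with coefficients that are computed first -/
lemma gauss' (hG : GaussStmt) (e : ℕ) :
    ∃ D : ℕ, ∀ (Ω : Type) (I P : Set (Ω → Bool)) (N n : ℕ) (κ : Type) [Fintype κ]
      (α : κ → Fin n → Ω → ZMod 2) (c : κ → Ω → ZMod 2), 7 ≤ N → n ≤ N →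
      Fintype.card κ + 1 ≤ N → (∀ k i, PF I P N e (α k i)) → (∀ k, PF I P N e (c k)) →
      (∀ o : Ω → Bool,
        (∀ ω, o ω = true ↔ ∃ y : Fin n → ZMod 2, ∀ k, ∑ i, α k i ω * y i = c k ω) →
        PF I P N D o) ∧
      PF I P N D fun ω =>
        (((univ.filter fun y : Fin n → ZMod 2 => ∀ k, ∑ i, α k i ω * y i = c k ω).card : ℕ) :
          ZMod 2) := by
  obtain ⟨D, hD⟩ := hG
  refine ⟨e + 2 + D + 1, ?_⟩
  intro Ω I P N n κ _ α c hN hn hκ hα hc
  have g1 := Gen.iUnion (I := I) (P := P) (s := N ^ e)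
    (fun p : κ × Fin n => Bits (α p.1 p.2)) fun p => hα p.1 p.2
  have g2 := Gen.iUnion (I := I) (P := P) (s := N ^ e) (fun k : κ => Bits (c k)) hc
  have g := g1.union g2
  have key := hD Ω I (P ∪ ((⋃ p : κ × Fin n, Bits (α p.1 p.2)) ∪ ⋃ k : κ, Bits (c k))) N n κ α c
    hN hn hκ
    (fun k i f hf => Or.inr (Or.inl (Set.mem_iUnion.2 ⟨(k, i), hf⟩)))
    (fun k f hf => Or.inr (Or.inr (Set.mem_iUnion.2 ⟨k, hf⟩)))
  have hle : Fintype.card (κ × Fin n) * N ^ e + Fintype.card κ * N ^ e + N ^ D ≤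
      N ^ (e + 2 + D + 1) := by
    have h0 : 0 < N := by omega
    have h1 : Fintype.card (κ × Fin n) ≤ N * N := by
      rw [Fintype.card_prod, Fintype.card_fin]
      exact Nat.mul_le_mul (by omega) hn
    have h2 : Fintype.card κ ≤ N * N := by nlinarith
    have h3 : N * N * N ^ e ≤ N ^ (e + 2 + D) := by
      calc N * N * N ^ e = N ^ (e + 2) := by ring
        _ ≤ _ := Nat.pow_le_pow_right h0 (by omega)
    have h4 : N ^ D ≤ N ^ (e + 2 + D) := Nat.pow_le_pow_right h0 (by omega)
    have h5 := Nat.mul_le_mul_right (N ^ e) h1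
    have h6 := Nat.mul_le_mul_right (N ^ e) h2
    have h7 : N ^ (e + 2 + D) * 7 ≤ N ^ (e + 2 + D) * N := Nat.mul_le_mul_left _ hN
    rw [pow_succ]; omega
  exact ⟨fun o ho => (TF.after g (key.1 o ho)).le hle, (TF.after g key.2).le hle⟩

variable {n : ℕ}

open Classical in
/-- the first `j` coordinates of `x` extend to a vector that is odd where `x` asks for it -/
noncomputable def val (k j : ℕ) (B : Fin n → Fin n → ZMod 2) (x : Fin n → ZMod 2) : Bool :=
  decide (∃ y : Fin n → ZMod 2, (∀ i : Fin n, i.val < j → y i = x i) ∧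
    ∀ v : Fin n, v.val < k → x v * ∑ u, B v u * y u = x v)

lemma val_iff (k j : ℕ) (B : Fin n → Fin n → ZMod 2) (x : Fin n → ZMod 2) :
    val k j B x = true ↔ ∃ y : Fin n → ZMod 2, (∀ i : Fin n, i.val < j → y i = x i) ∧
      ∀ v : Fin n, v.val < k → x v * ∑ u, B v u * y u = x v := by
  simp [val]

/-- the inner sum of the parity formula -/
def Phi (B : Fin n → Fin n → ZMod 2) (a : Fin n) (x : Fin n → ZMod 2) : ZMod 2 :=
  ∑ y : Fin n → ZMod 2, ∏ v, phi B a x y v

lemma z2 (a : ZMod 2) : a = 0 ∨ a = 1 := by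
  revert a; decide

lemma good_iff (k : ℕ) (B : Fin n → Fin n → ZMod 2) (x : Fin n → ZMod 2) :
    Good k B x ↔ ∀ v : Fin n, v.val < k → x v * ∑ u, B v u * x u = x v := by
  refine forall_congr' fun v => forall_congr' fun _ => ?_
  rcases z2 (x v) with h | h <;> simp [h]

lemma val_top (k : ℕ) (B : Fin n → Fin n → ZMod 2) (x : Fin n → ZMod 2) :
    val k n B x = true ↔ Good k B x := by
  rw [val_iff, good_iff]
  constructor
  · rintro ⟨y, h1, h2⟩
    obtain rfl : y = x := funext fun i => h1 i i.2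
    exact h2
  · exact fun h => ⟨x, fun _ _ => rfl, h⟩

lemma val_prefix (k : ℕ) (B : Fin n → Fin n → ZMod 2) (j : Fin n) (x : Fin n → ZMod 2)
    (h : val k (j + 1) B x = true) : val k j B (Function.update x j 0) = true := by
  rw [val_iff] at h ⊢
  obtain ⟨y, h1, h2⟩ := h
  refine ⟨y, fun i hi => ?_, fun v hv => ?_⟩
  · rw [Function.update_of_ne (by rintro rfl; omega)]
    exact h1 i (by omega)
  · by_cases hvj : v = j
    · subst hvj; simp
    · rw [Function.update_of_ne hvj]; exact h2 v hv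

lemma Phi_eq_zero (k : ℕ) (B : Fin n → Fin n → ZMod 2) (a : Fin n) (x : Fin n → ZMod 2)
    (h : ¬ Good k B x) : Phi B a x = 0 := by
  simp only [Good, not_forall] at h
  obtain ⟨v, -, h1, h2⟩ := h
  have h3 : ∑ u, B v u * x u = 0 := (z2 _).resolve_right h2
  have h4 : (1 : ZMod 2) + 1 = 0 := by decide
  refine sum_eq_zero fun y _ => prod_eq_zero (mem_univ v) ?_
  unfold phi
  rw [h1, h3, h4]; simp

lemma sum_val (hP : ParStmt) (k : ℕ) (B : Fin n → Fin n → ZMod 2) (a : Fin n) :
    ∑ x ∈ univ.filter (fun x => val k n B x = true), Phi B a x = (ncyc B : ZMod 2) := by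
  rw [hP n B a, sum_filter]
  refine sum_congr rfl fun x _ => ?_
  split_ifs with h
  · rfl
  · exact (Phi_eq_zero k B a x (by rwa [val_top] at h)).symm

lemma card_low (j : ℕ) (p : (Fin n → ZMod 2) → Prop) [DecidablePred p] :
    (univ.filter fun x : Fin n → ZMod 2 => (∀ v : Fin n, j ≤ v.val → x v = 0) ∧ p x).card
      ≤ 2 ^ j := by
  have h : (univ : Finset (Fin j → ZMod 2)).card = 2 ^ j := by simp
  rw [← h]
  refine card_le_card_of_injOn (fun x i => if h : i.val < n then x ⟨i.val, h⟩ else 0)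
    (fun _ _ => mem_coe.2 (mem_univ _)) ?_
  intro x hx y hy hxy
  simp only [coe_filter, mem_univ, true_and, Set.mem_ofPred_eq] at hx hy
  funext v
  by_cases hv : j ≤ v.val
  · rw [hx.1 v hv, hy.1 v hv]
  · have := congrFun hxy ⟨v.val, by omega⟩
    simpa using this

lemma card_high (k j : ℕ) (hkj : k ≤ j) (B : Fin n → Fin n → ZMod 2) :
    (univ.filter fun x : Fin n → ZMod 2 =>
      (∀ v : Fin n, j ≤ v.val → x v = 0) ∧ val k j B x = true).card ≤ ngood k B := by
  classical
  unfold ngood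
  refine le_trans (card_le_card (t := (univ.filter fun y : Fin n → ZMod 2 => Good k B y).image
    fun y v => if v.val < j then y v else 0) ?_) (by convert card_image_le)
  intro x hx
  simp only [mem_filter, mem_univ, true_and, val_iff] at hx
  obtain ⟨h0, y, h1, h2⟩ := hx
  refine mem_image.2 ⟨y, mem_filter.2 ⟨mem_univ _, (good_iff k B y).2 fun v hv => ?_⟩, ?_⟩
  · rw [h1 v (by omega)]; exact h2 v hv
  · funext v
    split_ifs with hv
    · exact h1 v hv
    · exact (h0 v (by omega)).symm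

/-- the linear system behind `val` -/
lemma val_lin (k j : ℕ) (B : Fin n → Fin n → ZMod 2) (x : Fin n → ZMod 2) :
    val k j B x = true ↔ ∃ y : Fin n → ZMod 2, ∀ r : Fin n ⊕ Fin n,
      ∑ u, Sum.elim (fun i => if i.val < j ∧ u = i then (1 : ZMod 2) else 0)
          (fun v => if v.val < k then x v * B v u else 0) r * y u =
        Sum.elim (fun i => if i.val < j then x i else 0)
          (fun v => if v.val < k then x v else 0) r := by
  rw [val_iff]
  refine exists_congr fun y => ?_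
  rw [Sum.forall]
  refine and_congr (forall_congr' fun i => ?_) (forall_congr' fun v => ?_)
  · by_cases h : i.val < j <;> simp [h]
  · by_cases h : v.val < k <;> simp [h, mul_sum, mul_assoc]

/-- the row sums of the parity formula -/
def rs (B : Fin n → Fin n → ZMod 2) (a : Fin n) (x : Fin n → ZMod 2) (v : Fin n) : ZMod 2 :=
  if v = a then 0 else ∑ u, B v u * x u

lemma phi_eq (B : Fin n → Fin n → ZMod 2) (a : Fin n) (x y : Fin n → ZMod 2) (v : Fin n) :
    phi B a x y v = rs B a x v +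
      ∑ u, ((if u = v then rs B a x v else 0) + (1 + x v) * B v u) * y u := by
  simp only [add_mul, sum_add_distrib, ite_mul, zero_mul, sum_ite_eq', mem_univ, if_true,
    mul_assoc, ← mul_sum]
  unfold phi rs
  split_ifs <;> ring

lemma prod_z2 {ι : Type} [Fintype ι] (f : ι → ZMod 2) (p : Prop) [Decidable p]
    (h : p ↔ ∀ i, f i = 1) : ∏ i, f i = if p then 1 else 0 := by
  split_ifs with hp
  · exact prod_eq_one fun i _ => h.1 hp i
  · rw [h, not_forall] at hp
    obtain ⟨i, hi⟩ := hp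
    exact prod_eq_zero (mem_univ i) ((z2 _).resolve_right hi)

/-- the linear system behind `Phi` -/
lemma Phi_lin (B : Fin n → Fin n → ZMod 2) (a : Fin n) (x : Fin n → ZMod 2) :
    (((univ.filter fun y : Fin n → ZMod 2 => ∀ v,
      ∑ u, ((if u = v then rs B a x v else 0) + (1 + x v) * B v u) * y u =
        1 - rs B a x v).card : ℕ) : ZMod 2) = Phi B a x := by
  unfold Phi
  rw [card_filter, Nat.cast_sum]
  refine sum_congr rfl fun y _ => ?_
  rw [prod_z2 (fun v => phi B a x y v) (∀ v,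
      ∑ u, ((if u = v then rs B a x v else 0) + (1 + x v) * B v u) * y u =
        1 - rs B a x v) (forall_congr' fun v => by
      rw [phi_eq, eq_sub_iff_add_eq'])]
  split_ifs <;> simp

/-- circuits for `val` and for `Phi` -/
lemma circ (hG : GaussStmt) :
    ∃ D : ℕ, ∀ (Ω : Type) (I P : Set (Ω → Bool)) (N n : ℕ) (B : Ω → Fin n → Fin n → ZMod 2)
      (x : Ω → Fin n → ZMod 2), 7 ≤ N → 2 * n + 1 ≤ N →
      (∀ u v, Bits (fun ω => B ω u v) ⊆ P) → (∀ v, Bits (fun ω => x ω v) ⊆ P) →
      (∀ k j, TF I P (N ^ D) fun ω => val k j (B ω) (x ω)) ∧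
      ∀ a, TF I P (N ^ D) fun ω => Phi (B ω) a (x ω) := by
  obtain ⟨D, h1⟩ := gauss' hG 8
  refine ⟨D, ?_⟩
  intro Ω I P N n B x hN h2n hB hx
  have hz := card_zmod2_le hN
  have hnN : n ≤ N := by omega
  have hB' : ∀ u v e, PF I P N e fun ω => B ω u v := fun u v e => PF.of_subset (hB u v) e
  have hx' : ∀ v e, PF I P N e fun ω => x ω v := fun v e => PF.of_subset (hx v) e
  refine ⟨fun k j => ?_, fun a => ?_⟩
  · have hα : ∀ (r : Fin n ⊕ Fin n) (u : Fin n), PF I P N 8 fun ω =>
        Sum.elim (fun i : Fin n => if i.val < j ∧ u = i then (1 : ZMod 2) else 0)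
          (fun v => if v.val < k then x ω v * B ω v u else 0) r := by
      rintro (i | v) u
      · exact (PF.const (if i.val < j ∧ u = i then (1 : ZMod 2) else 0) 8).congr fun ω => rfl
      · exact (PF.op2 (d := 7) (fun s t : ZMod 2 => if v.val < k then s * t else 0) hN (by omega)
          hz hz (hx' v 7) (hB' v u 7)).congr fun ω => rfl
    have hc : ∀ (r : Fin n ⊕ Fin n), PF I P N 8 fun ω =>
        Sum.elim (fun i : Fin n => if i.val < j then x ω i else 0)
          (fun v => if v.val < k then x ω v else 0) r := by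
      rintro (i | v)
      · exact (PF.op1 (d := 7) (fun s : ZMod 2 => if i.val < j then s else 0) hN (by omega)
          hz (hx' i 7)).congr fun ω => rfl
      · exact (PF.op1 (d := 7) (fun s : ZMod 2 => if v.val < k then s else 0) hN (by omega)
          hz (hx' v 7)).congr fun ω => rfl
    exact ((h1 Ω I P N n (Fin n ⊕ Fin n) _ _ hN hnN (by simp; omega) hα hc).1
      (fun ω => val k j (B ω) (x ω)) fun ω => val_lin k j (B ω) (x ω)).tf
  · have hm : ∀ v u, PF I P N 4 fun ω => B ω v u * x ω u := fun v u =>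
      PF.op2 (d := 3) (fun s t : ZMod 2 => s * t) hN (by omega) hz hz (hB' v u 3) (hx' u 3)
    have hs : ∀ v, PF I P N 6 fun ω => ∑ u, B ω v u * x ω u := fun v =>
      PF.sum (d := 4) univ (fun u ω => B ω v u * x ω u) hN (by omega) hz (by simpa using hnN)
        fun u _ => hm v u
    have hrs : ∀ v, PF I P N 7 fun ω => rs (B ω) a (x ω) v := fun v =>
      (PF.op1 (d := 6) (fun s : ZMod 2 => if v = a then 0 else s) hN (by omega) hz
        (hs v)).congr fun ω => rfl
    have hα : ∀ v u, PF I P N 8 fun ω =>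
        (if u = v then rs (B ω) a (x ω) v else 0) + (1 + x ω v) * B ω v u := fun v u =>
      PF.op2 (d := 7) (fun s t : ZMod 2 => (if u = v then s else 0) + t) hN (by omega)
        hz hz (hrs v) (PF.op2 (d := 6) (fun s t : ZMod 2 => (1 + s) * t) hN (by omega) hz hz
          (hx' v 6) (hB' v u 6))
    have hc : ∀ v, PF I P N 8 fun ω => 1 - rs (B ω) a (x ω) v := fun v =>
      PF.op1 (d := 7) (fun s : ZMod 2 => 1 - s) hN (by omega) hz (hrs v)
    refine TF.congr (h1 Ω I P N n (Fin n) _ _ hN hnN (by simp; omega) hα hc).2.tf fun ω => ?_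
    convert Phi_lin (B ω) a (x ω)

end Parc

open Parc in
/-- row PARC -/
theorem parc (hPar : ParStmt) (hG : GaussStmt) (hS : SearchStmt) : ParcStmt := by
  obtain ⟨D1, h1⟩ := circ hG
  obtain ⟨D2, h2⟩ := hS
  refine ⟨D2 + (D1 + 1), ?_⟩
  intro Ω I P N n k d B hN hn h2n hd hk hkd hB
  have hnN : n ≤ N := by omega
  obtain ⟨a⟩ : Nonempty (Fin n) := ⟨⟨0, hn⟩⟩
  obtain ⟨o, ho1, ho2⟩ := h2 Ω I P N n d (N ^ D1) (fun j ω x => val k j (B ω) x)
    (fun ω x => Phi (B ω) a x) hN hnN hd
    (fun j _ P' x hP hx => (h1 Ω I P' N n B x hN h2n (fun u v => (hB u v).trans hP) hx).1 k j)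
    (fun P' x hP hx => (h1 Ω I P' N n B x hN h2n (fun u v => (hB u v).trans hP) hx).2 a)
    (fun ω j x _ h => val_prefix k (B ω) j x h)
  refine ⟨o, ho1.le ?_, fun ω => ?_⟩
  · have h3 : N ^ D1 + 1 ≤ N ^ (D1 + 1) := by
      have h4 : 1 ≤ N ^ D1 := Nat.one_le_pow _ _ (by omega)
      have h7 : N ^ D1 * 7 ≤ N ^ D1 * N := Nat.mul_le_mul_left _ hN
      rw [pow_succ]; omega
    rw [pow_add N D2, ← mul_assoc]
    exact Nat.mul_le_mul_left _ h3
  · obtain ⟨g1, g2⟩ := ho2 ω
    have e := sum_val hPar k (B ω) a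
    have e2 := ZMod.natCast_eq_one_iff_odd (n := ncyc (B ω))
    refine ⟨fun h => e2.1 (e.symm.trans (g1 h)), fun hg hodd =>
      g2 (fun j _ => ?_) (e.trans (e2.2 hodd))⟩
    by_cases hj : k ≤ j
    · exact (card_high k j hj (B ω)).trans hg
    · exact (card_low j _).trans (Nat.pow_le_pow_right (by omega) (by omega))

end Pool.Agent.MP_6b3410_lc.U5
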