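import Mathlib
import Pool.Agent.MP_6b3410_lc.U5.Net
import Pool.Agent.MP_6b3410_lc.U5.Fam

/-!
The flexible case: random colourings and the walk sieve.
-/

set_option autoImplicit false

namespace Pool.Agent.MP_6b3410_lc.U5

open Finset
open Pool.Agent.MP_6b3410_lc.H5 (Cyc DHam)

lemma sv_tf (hdp : DPStmt) : ∃ D : ℕ, ∀ (Ω : Type) (I P : Set (Ω → Bool)) (N n m : ℕ) (F : Type)
    [Field F] [Fintype F] [DecidableEq F] (A : Ω → Fin n → Fin n → Bool) (a b : Fin n)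
    (W : Fin n → Bool) (z : Sym2 (Fin n) × Option (Fin m) → F), 7 ≤ N → n ≤ N →
    Fintype.card F ≤ N → 2 ≤ n → (∀ u v, Bits (fun ω => A ω u v) ⊆ P) →
    TF I P (2 ^ m * N ^ D) fun ω => A ω b a && decide (sv (A ω) a b W z ≠ 0) := by
  obtain ⟨D, hD⟩ := hdp
  refine ⟨D + 6, fun Ω I P N n m F _ _ _ A a b W z hN hn hF h2 hA => ?_⟩
  have hU : (univ : Finset Fˣ).card ≤ N :=
    (Fintype.card_le_of_injective (fun u : Fˣ => (u : F)) Units.val_injective).trans hF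
  have h1 : ∀ S : Finset (Fin m), PF I P N (D + 2 + 1 + 2) fun ω => ∑ τ : Fˣ,
      ((τ⁻¹ : Fˣ) : F) ^ m * wsum n a b (svV W z S τ)
        (fun u v => if A ω u v = true then svE W z S τ u v else 0) (svT W) := fun S =>
    PF.sum univ _ hN (by omega) hF hU fun τ _ =>
      PF.op1 (fun x => ((τ⁻¹ : Fˣ) : F) ^ m * x) hN (by omega) hF
        ((hD Ω I P N n F A a b _ _ _ hN hn hF h2 hA).le hN (by omega))
  have h3 := TF.sum univ _ fun S _ => (h1 S).tf
  have h4 := TF.op2 (fun (x : Bool) (y : F) => x && decide (y ≠ 0)) (TF.of_subset (hA b a) 0) h3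
  refine h4.le ?_
  have e1 : 5 * Fintype.card F * Fintype.card F ≤ 5 * N ^ (D + 4) :=
    sq_le_pow hN (by omega) hF hF
  have e2 : 5 * 2 * Fintype.card F ≤ 5 * N ^ (D + 4) := sq_le_pow hN (by omega) (by omega) hF
  have e3 : N ^ (D + 4) * 7 ≤ N ^ (D + 5) := by
    rw [pow_succ N (D + 4)]; exact Nat.mul_le_mul_left _ hN
  have e4 : N ^ (D + 5) * 7 ≤ N ^ (D + 6) := by
    rw [pow_succ N (D + 5)]; exact Nat.mul_le_mul_left _ hN
  have e5 : 1 ≤ 2 ^ m := Nat.one_le_two_pow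
  simp only [card_univ, Fintype.card_finset, Fintype.card_fin, Fintype.card_bool, zero_add]
  calc 2 ^ m * (N ^ (D + 2 + 1 + 2) + 5 * Fintype.card F * Fintype.card F) +
        5 * 2 * Fintype.card F
      ≤ 2 ^ m * (N ^ (D + 5) + 5 * N ^ (D + 4)) + 2 ^ m * (5 * N ^ (D + 4)) :=
        Nat.add_le_add (Nat.mul_le_mul_left _ (Nat.add_le_add le_rfl e1)) (by nlinarith)
    _ = 2 ^ m * (N ^ (D + 5) + 10 * N ^ (D + 4)) := by ring
    _ ≤ _ := Nat.mul_le_mul_left _ (by omega)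

lemma exists_field (n : ℕ) (hn : 1 ≤ n) : ∃ (F : Type) (_ : Field F) (_ : Fintype F)
    (_ : CharP F 2), 8 * n ≤ Fintype.card F ∧ Fintype.card F ≤ 16 * n := by
  have : Fact (Nat.Prime 2) := ⟨Nat.prime_two⟩
  let j := Nat.log 2 (8 * n) + 1
  let _ : Fintype (GaloisField 2 j) := Fintype.ofFinite _
  have hc : Fintype.card (GaloisField 2 j) = 2 ^ j := by
    rw [← Nat.card_eq_fintype_card, GaloisField.card 2 j (by omega)]
  refine ⟨GaloisField 2 j, inferInstance, inferInstance, inferInstance, ?_, ?_⟩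
  · rw [hc]; exact (Nat.lt_pow_succ_log_self (by norm_num) _).le
  · have := Nat.pow_log_le_self 2 (show 8 * n ≠ 0 by omega)
    rw [hc, pow_succ]; omega

open Classical in
lemma part1_m (hdp : DPStmt) (hs : SoundStmt) (hc : ComplStmt) :
    ∃ D : ℕ, ∀ (Ω : Type) [Fintype Ω] (I P : Set (Ω → Bool)) (n m X : ℕ) (Λ : ℝ)
      (A : Ω → Fin n → Fin n → Bool) (a : Fin n), 2 ≤ n → m ≤ n →
      Fintype.card Ω ≤ 2 ^ (n * n) → (∀ ω u v, A ω u v = A ω v u) → (∀ ω u, A ω u u = false) →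
      (∀ u v, Bits (fun ω => A ω u v) ⊆ P) → 0 < Λ → ((n * n + n : ℕ) + 2 : ℝ) / Λ ≤ X →
      ∃ o : Ω → Bool, TF I P (X * (16 * n) ^ D) o ∧ ∀ ω,
        (o ω = true → DHam fun u v => A ω u v = true) ∧
        ∀ b, 2 ^ m * Λ * 2 ^ n ≤ ((univ.filter fun W : Fin n → Bool =>
          ∃ σ ∈ fam (A ω) a b, kc n W (orb a σ) = m).card : ℝ) → o ω = true := by
  obtain ⟨D, hD⟩ := sv_tf hdp
  refine ⟨D + 5, fun Ω _ I P n m X Λ A a h2 hm hΩ hsym hirr hA hΛ hX => ?_⟩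
  by_cases hδ : 2 ^ m * Λ ≤ 1
  swap
  · refine ⟨fun _ => false, TF.const _ _, fun ω => ⟨by simp, fun b hb => ?_⟩⟩
    have h1 : ((univ.filter fun W : Fin n → Bool =>
        ∃ σ ∈ fam (A ω) a b, kc n W (orb a σ) = m).card : ℝ) ≤ 2 ^ n := by
      have := card_le_univ (univ.filter fun W : Fin n → Bool =>
        ∃ σ ∈ fam (A ω) a b, kc n W (orb a σ) = m)
      rw [Fintype.card_fun, Fintype.card_bool, Fintype.card_fin] at this
      exact_mod_cast this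
    have h3 : (0 : ℝ) < 2 ^ n := by positivity
    nlinarith
  obtain ⟨F, _, _, _, hF1, hF2⟩ := exists_field n (by omega)
  have hδ0 : (0 : ℝ) < 2 ^ m * Λ := by positivity
  set K := ⌈((n * n + n : ℕ) + 1 : ℝ) / (2 ^ m * Λ)⌉₊ with hK
  have hn2 : n ≤ 2 ^ n := Nat.lt_two_pow_self.le
  obtain ⟨tW, htW⟩ := hit_unif (G := Ω × Fin n) (Ξ := Fin n → Bool)
    (fun g W => ∃ σ ∈ fam (A g.1) a g.2, kc n W (orb a σ) = m) (2 ^ m * Λ) hδ K (n * n + n)
    (by rw [Fintype.card_prod, Fintype.card_fin, pow_add]; exact Nat.mul_le_mul hΩ hn2)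
    (by rw [← div_le_iff₀ hδ0]; exact Nat.le_ceil _)
  obtain ⟨tz, htz⟩ := hit_unif (G := Ω × Fin n × (Fin n → Bool))
    (Ξ := Sym2 (Fin n) × Option (Fin m) → F)
    (fun g z => sv (A g.1) a g.2.1 g.2.2 z ≠ 0) (1 / 2) (by norm_num)
    (2 * (n * n + n + n + 1)) (n * n + n + n)
    (by
      rw [Fintype.card_prod, Fintype.card_prod, Fintype.card_fun, Fintype.card_bool,
        Fintype.card_fin, add_assoc, pow_add, pow_add]
      exact Nat.mul_le_mul hΩ (Nat.mul_le_mul hn2 le_rfl))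
    (by push_cast; linarith)
  have h1 := TF.exists (I := I) (P := P)
    ((univ : Finset (Fin n)) ×ˢ range K ×ˢ range (2 * (n * n + n + n + 1)))
    (fun p ω => A ω p.1 a && decide (sv (A ω) a p.1 (tW p.2.1) (tz p.2.2) ≠ 0))
    (fun p _ => hD Ω I P (16 * n) n m F A a p.1 _ _ (by omega) (by omega) hF2 h2 hA) _
    (fun ω => decide_eq_true_iff)
  refine ⟨_, h1.le ?_, fun ω => ⟨fun ho => ?_, fun b hb => ?_⟩⟩
  · have e1 : K * 2 ^ m ≤ X := by
      have e2 : (K : ℝ) ≤ ((n * n + n : ℕ) + 1 : ℝ) / (2 ^ m * Λ) + 1 :=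
        (Nat.ceil_lt_add_one (by positivity)).le
      have e3 : (K : ℝ) * 2 ^ m ≤ ((n * n + n : ℕ) + 2 : ℝ) / Λ := by
        rw [le_div_iff₀ hΛ, mul_assoc]
        rw [div_add_one hδ0.ne', le_div_iff₀ hδ0] at e2
        linarith
      exact_mod_cast e3.trans hX
    have e4 : 1 ≤ X := by
      have : (0 : ℝ) < X := lt_of_lt_of_le (by positivity) hX
      exact_mod_cast this
    set N := 16 * n with hN
    have e5 : 2 * (n * n + n + n + 1) ≤ N * N := by nlinarith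
    have e6 : 1 ≤ 2 ^ m * N ^ D := Nat.mul_pos (by positivity) (Nat.pow_pos (by omega))
    have e7 : 1 ≤ X * N ^ (D + 4) := Nat.mul_pos e4 (Nat.pow_pos (by omega))
    simp only [card_product, card_univ, Fintype.card_fin, card_range]
    calc n * (K * (2 * (n * n + n + n + 1))) * (2 ^ m * N ^ D + 3) + 1
        ≤ N * (K * (N * N)) * (N * (2 ^ m * N ^ D)) + X * N ^ (D + 4) :=
          Nat.add_le_add (Nat.mul_le_mul (Nat.mul_le_mul (by omega) (Nat.mul_le_mul_left _ e5))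
            (by nlinarith)) e7
      _ = K * 2 ^ m * N ^ (D + 4) + X * N ^ (D + 4) := by ring
      _ ≤ X * N ^ (D + 4) + X * N ^ (D + 4) := by gcongr
      _ = X * (N ^ (D + 4) * 2) := by ring
      _ ≤ X * N ^ (D + 5) := by
          rw [pow_succ N (D + 4)]
          exact Nat.mul_le_mul_left _ (Nat.mul_le_mul_left _ (by omega))
  · obtain ⟨p, -, hp⟩ := of_decide_eq_true ho
    rw [Bool.and_eq_true, decide_eq_true_iff,
      hs n m F (A ω) a p.1 _ _ h2 hF1 hm (hsym ω) (hirr ω)] at hp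
    obtain ⟨g, -, hg⟩ := exists_ne_zero_of_sum_ne_zero hp.2
    exact dham_of_path (by_contra fun h => hg (if_neg fun h' => h h'.1)) hp.1
  · obtain ⟨i, hi, σ, hσ, hk⟩ := htW (ω, b) (by simpa using hb)
    have h3 := hc n m F (A ω) a b (tW i) (orb a σ) h2 hF1 hm (hsym ω) (hirr ω) (fam_path hσ) hk
    obtain ⟨j, hj, hz⟩ := htz (ω, b, tW i) (by
      have : (Fintype.card (Sym2 (Fin n) × Option (Fin m) → F) : ℝ) ≤
        2 * ((univ.filter fun z : Sym2 (Fin n) × Option (Fin m) → F =>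
          sv (A ω) a b (tW i) z ≠ 0).card : ℝ) := by exact_mod_cast h3
      have h5 : (1 / 2 : ℝ) * Fintype.card (Sym2 (Fin n) × Option (Fin m) → F) ≤ ((univ.filter
        fun z : Sym2 (Fin n) × Option (Fin m) → F => sv (A ω) a b (tW i) z ≠ 0).card : ℝ) := by
        linarith
      convert h5)
    have h4 : A ω b a = true := by
      have := (mem_fam.1 hσ).1.arc b
      rwa [(mem_fam.1 hσ).2] at this
    exact decide_eq_true ⟨(b, i, j), by simp [hi, hj], by simp [h4, hz]⟩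

theorem part1 (hdp : DPStmt) (hs : SoundStmt) (hc : ComplStmt) (hcap : CapStmt) :
    ∃ D : ℕ, ∀ (Ω : Type) [Fintype Ω] (I P : Set (Ω → Bool)) (n L : ℕ)
      (A : Ω → Fin n → Fin n → Bool) (a : Fin n), 2 ≤ n → L ≤ n →
      Fintype.card Ω ≤ 2 ^ (n * n) → (∀ ω u v, A ω u v = A ω v u) → (∀ ω u, A ω u u = false) →
      (∀ u v, Bits (fun ω => A ω u v) ⊆ P) →
      ∃ (s : ℕ) (o : Ω → Bool), TF I P s o ∧
        (s : ℝ) * (1 + 1 / 1000) ^ L ≤ (16 * n) ^ D * (4 * (Real.sqrt 2 - 1)) ^ n ∧ ∀ ω,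
        (o ω = true → DHam fun u v => A ω u v = true) ∧
        ∀ b, Sh (fun σ => pe n (orb a σ)) L (fam (A ω) a b) → o ω = true := by
  classical
  obtain ⟨D, hD⟩ := part1_m hdp hs hc
  refine ⟨D + 6, fun Ω _ I P n L A a h2 hL hΩ hsym hirr hA => ?_⟩
  set γ : ℝ := 4 * (Real.sqrt 2 - 1) with hγ
  have hγ1 : 1 + 1 / 1000 ≤ γ := by
    have : (1.4 : ℝ) ≤ Real.sqrt 2 := Real.le_sqrt_of_sq_le (by norm_num)
    rw [hγ]; linarith
  have hγ0 : 0 < γ := by linarith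
  set Λ : ℝ := (1 + 1 / 1000) ^ L / (2 * (n + 1) * γ ^ n) with hΛ
  have hΛ0 : 0 < Λ := by positivity
  set X := ⌈((n * n + n : ℕ) + 2 : ℝ) / Λ⌉₊ with hX
  have h1 := fun m : Fin (n + 1) => hD Ω I P n m X Λ A a h2 (by omega) hΩ hsym hirr hA hΛ0
    (Nat.le_ceil _)
  choose o ho1 ho2 using h1
  refine ⟨_, _, TF.exists univ o (fun m _ => ho1 m) _ (fun ω => decide_eq_true_iff), ?_,
    fun ω => ⟨fun h => ?_, fun b hb => ?_⟩⟩
  · have hn : (2 : ℝ) ≤ n := by exact_mod_cast h2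
    set N : ℝ := 16 * n with hN
    have hN1 : 1 ≤ N := by linarith
    have e1 : (X : ℝ) ≤ ((n * n + n : ℕ) + 2 : ℝ) / Λ + 1 :=
      (Nat.ceil_lt_add_one (by positivity)).le
    have e2 : (1 + 1 / 1000 : ℝ) ^ L ≤ γ ^ n :=
      (pow_le_pow_right₀ (by norm_num) hL).trans (pow_le_pow_left₀ (by norm_num) hγ1 n)
    have hγn : 0 < γ ^ n := by positivity
    have e3 : (X : ℝ) * (1 + 1 / 1000) ^ L ≤ N ^ 3 * γ ^ n := by
      have e4 : ((n * n + n : ℕ) + 2 : ℝ) / Λ * (1 + 1 / 1000) ^ L =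
          ((n * n + n + 2) * (2 * (n + 1))) * γ ^ n := by
        rw [hΛ]; push_cast; field_simp
      have e5 : ((n : ℝ) * n + n + 2) * (2 * (n + 1)) + 1 ≤ N ^ 3 := by
        rw [hN]; nlinarith [mul_nonneg (mul_nonneg (by linarith : (0 : ℝ) ≤ n)
          (by linarith : (0 : ℝ) ≤ n)) (by linarith : (0 : ℝ) ≤ n - 2)]
      calc (X : ℝ) * (1 + 1 / 1000) ^ L
          ≤ (((n * n + n : ℕ) + 2 : ℝ) / Λ + 1) * (1 + 1 / 1000) ^ L := by gcongr
        _ ≤ ((n * n + n + 2) * (2 * (n + 1))) * γ ^ n + γ ^ n := by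
          rw [add_mul, e4, one_mul]; gcongr
        _ = (((n : ℝ) * n + n + 2) * (2 * (n + 1)) + 1) * γ ^ n := by ring
        _ ≤ _ := by gcongr
    have e6 : (1 : ℝ) ≤ X := by
      have : 0 < X := Nat.ceil_pos.2 (by positivity)
      exact_mod_cast this
    have e7 : 1 ≤ (X : ℝ) * N ^ D := one_le_mul_of_one_le_of_one_le e6 (one_le_pow₀ hN1)
    have e8 : ((n : ℝ) + 1) * (X * N ^ D + 3) + 1 ≤ N * (X * N ^ D) := by
      rw [hN] at *; nlinarith
    simp only [card_univ, Fintype.card_fin]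
    push_cast
    calc (((n : ℝ) + 1) * (X * N ^ D + 3) + 1) * (1 + 1 / 1000) ^ L
        ≤ N * (X * N ^ D) * (1 + 1 / 1000) ^ L := by gcongr
      _ = N ^ (D + 1) * (X * (1 + 1 / 1000) ^ L) := by ring
      _ ≤ N ^ (D + 1) * (N ^ 3 * γ ^ n) := by gcongr
      _ = N ^ (D + 4) * γ ^ n := by ring
      _ ≤ N ^ (D + 6) * γ ^ n := by gcongr; omega
  · obtain ⟨m, -, hm⟩ := of_decide_eq_true h
    exact (ho2 m ω).1 hm
  · obtain ⟨m, hm, h⟩ := hcap n _ _ (orb a) L h2 (fun σ hσ => (fam_path hσ).1) hb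
    refine decide_eq_true ⟨⟨m, by omega⟩, mem_univ _, (ho2 ⟨m, by omega⟩ ω).2 b ?_⟩
    have h3 : (0 : ℝ) < 2 * (n + 1) * γ ^ n := by positivity
    rw [hΛ, show (2 : ℝ) ^ m * ((1 + 1 / 1000) ^ L / (2 * (n + 1) * γ ^ n)) * 2 ^ n =
      2 ^ m * (1 + 1 / 1000) ^ L * 2 ^ n / (2 * (n + 1) * γ ^ n) by ring, div_le_iff₀' h3]
    convert h

end Pool.Agent.MP_6b3410_lc.U5
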