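import Mathlib
import Pool.Agent.MP_6b3410_lc.U5.Net
import Pool.Agent.MP_6b3410_lc.U5.Fam

/-!
The rigid case: random deletion of edges and the parity of the number of Hamilton cycles.
-/

set_option autoImplicit false

namespace Pool.Agent.MP_6b3410_lc.U5

open Finset
open Pool.Agent.MP_6b3410_lc.H5 (Cyc DHam)

lemma three_pow_le (k j : ℕ) (h : 5 * j ≤ 2 * k) : 3 ^ k * 2 ^ j ≤ 2 ^ k * 2 ^ k := by
  rw [← Nat.pow_le_pow_iff_left (n := 5) (by norm_num)]
  calc (3 ^ k * 2 ^ j) ^ 5 = 243 ^ k * 2 ^ (5 * j) := by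
        rw [mul_pow, ← pow_mul, ← pow_mul, mul_comm k, pow_mul, mul_comm j]; norm_num
    _ ≤ 243 ^ k * 2 ^ (2 * k) := Nat.mul_le_mul_left _ (Nat.pow_le_pow_right (by norm_num) h)
    _ = 972 ^ k := by rw [pow_mul, ← mul_pow]; norm_num
    _ ≤ 1024 ^ k := Nat.pow_le_pow_left (by norm_num) k
    _ = (2 ^ k * 2 ^ k) ^ 5 := by rw [← mul_pow, ← pow_mul, mul_comm k, pow_mul]; norm_num

theorem part2 (hp : ParcStmt) (hm : MarkStmt) (hi : IsoStmt) (hu : UniqStmt) :
    ∃ D : ℕ, ∀ (Ω : Type) [Fintype Ω] (I P : Set (Ω → Bool)) (n L : ℕ)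
      (A : Ω → Fin n → Fin n → Bool) (a : Fin n), 2 ≤ n →
      Fintype.card Ω ≤ 2 ^ (n * n) → (∀ u v, Bits (fun ω => A ω u v) ⊆ P) →
      ∃ (s : ℕ) (o : Ω → Bool), TF I P s o ∧
        (s : ℝ) * ((1 / 1000) ^ L * (999 / 1000) ^ n) ≤ (16 * n) ^ D * 2 ^ (n - 2 * n / 7) ∧ ∀ ω,
        (o ω = true → DHam fun u v => A ω u v = true) ∧
        ∀ b, (fam (A ω) a b).Nonempty →
          ¬ Sh (fun σ => pe n (orb a σ)) (L + 1) (fam (A ω) a b) → o ω = true := by
  classical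
  obtain ⟨D, hD⟩ := hp
  refine ⟨D + 9, fun Ω _ I P n L A a h2 hΩ hA => ?_⟩
  set k := n - 2 * n / 7 with hk
  set δ : ℝ := (1 / 1000) ^ L * (999 / 1000) ^ n with hδ
  have hδ0 : 0 < δ := by positivity
  have hδ1 : δ ≤ 1 := mul_le_one₀ (pow_le_one₀ (by norm_num) (by norm_num)) (by positivity)
    (pow_le_one₀ (by norm_num) (by norm_num))
  set K := ⌈((n * n + n : ℕ) + 1 : ℝ) / δ⌉₊ with hK
  have hn2 : n ≤ 2 ^ n := Nat.lt_two_pow_self.le
  obtain ⟨tz, htz⟩ := hit (G := Ω × Fin n) (Ξ := Sym2 (Fin n) → Bool)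
    (fun z => ∏ e, (if z e = true then 1 - 1 / 1000 else 1 / 1000 : ℝ))
    (fun z => prod_nonneg fun e _ => by split_ifs <;> norm_num)
    (by
      have := prod_univ_sum (fun _ : Sym2 (Fin n) => (univ : Finset Bool))
        (fun _ b => (if b = true then 1 - 1 / 1000 else 1 / 1000 : ℝ))
      rw [Fintype.piFinset_univ] at this
      rw [← this]
      simp)
    (fun g z => Odd ((fam (A g.1) a g.2).filter fun σ => ∀ e ∈ pe n (orb a σ), z e = true).card)
    δ hδ1 K (n * n + n)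
    (by rw [Fintype.card_prod, Fintype.card_fin, pow_add]; exact Nat.mul_le_mul hΩ hn2)
    (by rw [← div_le_iff₀ hδ0]; exact Nat.le_ceil _)
  obtain ⟨tr, htr⟩ := hit_unif (G := Fin n → Fin n → ZMod 2) (Ξ := Fin n → ZMod 2)
    (fun B r => ngood k (fun u v => if u = v then r u else B u v) * 2 ^ k ≤
      2 * 3 ^ k * 2 ^ (n - k)) (1 / 2) (by norm_num) (2 * (n * n + 1)) (n * n)
    (by simp [← pow_mul]) (by push_cast; linarith)
  have h1 : ∀ p : Fin n × ℕ × ℕ, ∃ o : Ω → Bool,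
      TF I P (n * n * 10 + 2 ^ (k + 1) * (16 * n) ^ D) o ∧ ∀ ω,
      (o ω = true → Odd (ncyc fun u v =>
        if u = v then tr p.2.2 u else mat (A ω) a p.1 (tz p.2.1) u v)) ∧
      (ngood k (fun u v => if u = v then tr p.2.2 u else mat (A ω) a p.1 (tz p.2.1) u v) ≤
        2 ^ (k + 1) → Odd (ncyc fun u v =>
          if u = v then tr p.2.2 u else mat (A ω) a p.1 (tz p.2.1) u v) → o ω = true) := by
    intro p
    have g1 := Gen.iUnion (I := I) (P := P) (s := 10) (fun q : Fin n × Fin n => Bits fun ω =>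
      if q.1 = q.2 then tr p.2.2 q.1 else mat (A ω) a p.1 (tz p.2.1) q.1 q.2) (fun q => by
        have := TF.op1 (I := I) (fun x : Bool => if q.1 = q.2 then tr p.2.2 q.1 else
          if x = true ∧ (if q.1 = p.1 then q.2 = a else tz p.2.1 s(q.1, q.2) = true) then 1 else 0)
          (TF.of_subset (hA q.1 q.2) 0)
        exact this)
    obtain ⟨o, g2, g3⟩ := hD Ω I (P ∪ _) (16 * n) n k (k + 1)
      (fun ω u v => if u = v then tr p.2.2 u else mat (A ω) a p.1 (tz p.2.1) u v)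
      (by omega) (by omega) (by omega) (by omega) (by omega) (by omega)
      (fun u v => (Set.subset_iUnion (fun q : Fin n × Fin n => Bits fun ω =>
        if q.1 = q.2 then tr p.2.2 q.1 else mat (A ω) a p.1 (tz p.2.1) q.1 q.2) (u, v)).trans
        Set.subset_union_right)
    exact ⟨o, by simpa using TF.after g1 g2, g3⟩
  choose o ho1 ho2 using h1
  refine ⟨_, _, TF.exists ((univ : Finset (Fin n)) ×ˢ range K ×ˢ range (2 * (n * n + 1))) o
    (fun p _ => ho1 p) _ (fun ω => decide_eq_true_iff), ?_,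
    fun ω => ⟨fun h => ?_, fun b hb hS => ?_⟩⟩
  · have hn : (2 : ℝ) ≤ n := by exact_mod_cast h2
    set N : ℝ := 16 * n with hN
    have hN1 : 1 ≤ N := by linarith
    have e1 : (K : ℝ) * δ ≤ N ^ 2 := by
      have e2 : (K : ℝ) ≤ ((n * n + n : ℕ) + 1 : ℝ) / δ + 1 :=
        (Nat.ceil_lt_add_one (by positivity)).le
      rw [div_add_one hδ0.ne', le_div_iff₀ hδ0] at e2
      push_cast at e2
      rw [hN]; nlinarith
    have e3 : (1 : ℝ) ≤ 2 ^ k * N ^ D :=
      one_le_mul_of_one_le_of_one_le (one_le_pow₀ (by norm_num)) (one_le_pow₀ hN1)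
    have e4 : (n : ℝ) * n * 10 + 2 ^ (k + 1) * N ^ D + 3 ≤ N ^ 2 * (2 ^ k * N ^ D) := by
      have e5 : (n : ℝ) * n * 10 + 5 ≤ N ^ 2 := by rw [hN]; nlinarith
      rw [pow_succ 2 k]
      nlinarith [mul_nonneg (by positivity : (0 : ℝ) ≤ n * n * 10 + 3) (sub_nonneg.2 e3)]
    have e6 : (2 : ℝ) * (n * n + 1) ≤ N ^ 2 := by rw [hN]; nlinarith
    have e7 : (1 : ℝ) ≤ N ^ (D + 7) * 2 ^ k :=
      one_le_mul_of_one_le_of_one_le (one_le_pow₀ hN1) (one_le_pow₀ (by norm_num))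
    simp only [card_product, card_univ, Fintype.card_fin, card_range]
    push_cast
    calc ((n : ℝ) * (K * (2 * (n * n + 1))) * (n * n * 10 + 2 ^ (k + 1) * N ^ D + 3) + 1) * δ
        = n * (K * δ) * (2 * (n * n + 1)) * (n * n * 10 + 2 ^ (k + 1) * N ^ D + 3) + δ := by ring
      _ ≤ N * N ^ 2 * N ^ 2 * (N ^ 2 * (2 ^ k * N ^ D)) + N ^ (D + 7) * 2 ^ k := by
          gcongr <;> linarith
      _ = 2 * N ^ (D + 7) * 2 ^ k := by ring
      _ ≤ N ^ 2 * N ^ (D + 7) * 2 ^ k := by gcongr; nlinarith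
      _ = _ := by ring
  · obtain ⟨p, -, hp⟩ := of_decide_eq_true h
    have h3 := (ho2 p ω).1 hp
    rw [ncyc_mat h2] at h3
    obtain ⟨σ, hσ⟩ := card_pos.1 h3.pos
    exact ⟨σ, (mem_fam.1 (mem_filter.1 hσ).1).1⟩
  · have h3 := hi _ _ _ _ L n (1 / 1000) (by norm_num) (by norm_num) hb hS
      (fam_injOn hu (A ω) a b) fun σ _ => card_pe _
    obtain ⟨i, hi, h4⟩ := htz (ω, b) (by
      rw [show (1 - 1 / 1000 : ℝ) ^ n = (999 / 1000) ^ n by norm_num] at h3
      convert h3)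
    have h5 := hm n k (mat (A ω) a b (tz i)) (by omega)
    obtain ⟨j, hj, h6⟩ := htr (mat (A ω) a b (tz i)) (by
      have h7 : ((2 : ℝ) ^ n) ≤ 2 * ((univ.filter fun r : Fin n → ZMod 2 =>
        ngood k (fun u v => if u = v then r u else mat (A ω) a b (tz i) u v) * 2 ^ k ≤
          2 * 3 ^ k * 2 ^ (n - k)).card : ℝ) := by exact_mod_cast h5
      have h8 : (1 / 2 : ℝ) * Fintype.card (Fin n → ZMod 2) ≤
          ((univ.filter fun r : Fin n → ZMod 2 =>
        ngood k (fun u v => if u = v then r u else mat (A ω) a b (tz i) u v) * 2 ^ k ≤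
          2 * 3 ^ k * 2 ^ (n - k)).card : ℝ) := by
        simp only [Fintype.card_fun, ZMod.card, Fintype.card_fin]
        push_cast
        linarith
      convert h8)
    refine decide_eq_true ⟨(b, i, j), by simp [hi, hj], (ho2 (b, i, j) ω).2 ?_ ?_⟩
    · have h9 := three_pow_le k (n - k) (by omega)
      refine Nat.le_of_mul_le_mul_right (c := 2 ^ k) (h6.trans ?_) (by positivity)
      rw [pow_succ 2 k]; nlinarith
    · rw [ncyc_mat h2]
      convert h4

end Pool.Agent.MP_6b3410_lc.U5
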