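import Mathlib
import Pool.Agent.MP_6b3410_lc.U5.P1
import Pool.Agent.MP_6b3410_lc.U5.P2

/-!
Assembly of the upper bound.
-/

set_option autoImplicit false

namespace Pool.Agent.MP_6b3410_lc.U5

open Finset
open Pool.Agent.MP_6b3410_lc.H5 (Cyc DHam dham_of_isHamiltonian isHamiltonian_of_dham)

/-- adjacency read off the edge variables -/
def adj {n : ℕ} (x : {p : Fin n × Fin n // p.1 < p.2} → Bool) (u v : Fin n) : Bool :=
  if h : u < v then x ⟨(u, v), h⟩ else if h : v < u then x ⟨(v, u), h⟩ else false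

lemma adj_iff {n : ℕ} (x : {p : Fin n × Fin n // p.1 < p.2} → Bool) (u v : Fin n) :
    adj x u v = true ↔
      (SimpleGraph.fromRel fun i j : Fin n => ∃ h : i < j, x ⟨(i, j), h⟩ = true).Adj u v := by
  rw [SimpleGraph.fromRel_adj, adj]
  rcases lt_trichotomy u v with h | rfl | h
  · simp [h, h.ne, not_lt.2 h.le]
  · simp
  · simp [h, h.ne', not_lt.2 h.le]

lemma num1 (n : ℕ) : (1 + 9 / 10 ^ 7 : ℝ) ^ n ≤ (1 + 1 / 1000) ^ (n / 1000 + 1) := by
  have h1 : (1 + 9 / 10 ^ 7 : ℝ) ^ 1000 ≤ 1 + 1 / 1000 := by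
    have h2 : (1 + 9 / 10 ^ 7 : ℝ) ^ 1000 ≤ Real.exp (9 / 10 ^ 7) ^ 1000 :=
      pow_le_pow_left₀ (by norm_num) (by linarith [Real.add_one_le_exp (9 / 10 ^ 7 : ℝ)]) _
    rw [← Real.exp_nat_mul] at h2
    have h3 := Real.add_one_le_exp (-(((1000 : ℕ) : ℝ) * (9 / 10 ^ 7)))
    have h4 := Real.exp_pos (((1000 : ℕ) : ℝ) * (9 / 10 ^ 7))
    rw [Real.exp_neg, ← one_div, le_div_iff₀ h4] at h3
    refine h2.trans ?_
    clear h2
    set E := Real.exp (((1000 : ℕ) : ℝ) * (9 / 10 ^ 7))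
    push_cast at h3
    linarith
  calc (1 + 9 / 10 ^ 7 : ℝ) ^ n ≤ (1 + 9 / 10 ^ 7) ^ (1000 * (n / 1000 + 1)) :=
        pow_le_pow_right₀ (by norm_num) (by omega)
    _ ≤ _ := by rw [pow_mul]; exact pow_le_pow_left₀ (by positivity) h1 _

lemma num2 (n : ℕ) : (1000 : ℝ) ^ (n / 1000) ≤ 1.007 ^ n := by
  have h1 : (1000 : ℝ) ≤ 1.007 ^ 1000 := by
    have h2 : (2 : ℝ) ≤ 1.007 ^ 100 := by norm_num
    calc (1000 : ℝ) ≤ 2 ^ 10 := by norm_num
      _ ≤ (1.007 ^ 100) ^ 10 := pow_le_pow_left₀ (by norm_num) h2 _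
      _ = _ := by rw [← pow_mul]
  calc (1000 : ℝ) ^ (n / 1000) ≤ (1.007 ^ 1000) ^ (n / 1000) :=
        pow_le_pow_left₀ (by norm_num) h1 _
    _ ≤ _ := by rw [← pow_mul]; exact pow_le_pow_right₀ (by norm_num) (by omega)

lemma num3 (n : ℕ) : (2 : ℝ) ^ (n - 2 * n / 7) ≤ 2 * 1.641 ^ n := by
  refine le_of_pow_le_pow_left₀ (n := 7) (by norm_num) (by positivity) ?_
  calc ((2 : ℝ) ^ (n - 2 * n / 7)) ^ 7 ≤ 2 ^ (7 + 5 * n) := by
        rw [← pow_mul]; exact pow_le_pow_right₀ (by norm_num) (by omega)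
    _ = 2 ^ 7 * 32 ^ n := by rw [pow_add, pow_mul]; norm_num
    _ ≤ 2 ^ 7 * (1.641 ^ 7) ^ n := by gcongr; norm_num
    _ = _ := by rw [mul_pow, ← pow_mul, ← pow_mul, mul_comm n]

theorem main (hdp : DPStmt) (hs : SoundStmt) (hc : ComplStmt) (hcap : CapStmt) (hp : ParcStmt)
    (hm : MarkStmt) (hi : IsoStmt) (hu : UniqStmt) :
    ∃ n₀ : ℕ, ∀ n : ℕ, n₀ ≤ n → ∃ s : ℕ,
      ((n.choose 2 + s : ℕ) : ℝ) ≤ (4 / (1 + Real.sqrt 2) - 1 / 10 ^ 6) ^ n ∧
      ∃ a b : Fin s → ({p : Fin n × Fin n // p.1 < p.2} ⊕ Fin s), ∃ o : Fin s,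
        (∀ g j : Fin s, (a g = Sum.inr j → j < g) ∧ (b g = Sum.inr j → j < g)) ∧
        ∀ x : {p : Fin n × Fin n // p.1 < p.2} → Bool, ∀ val : Fin s → Bool,
          (∀ g : Fin s, val g = !(Sum.elim x val (a g) && Sum.elim x val (b g))) →
          (val o = true ↔
            (SimpleGraph.fromRel
              (fun i j : Fin n => ∃ h : i < j, x ⟨(i, j), h⟩ = true)).IsHamiltonian) := by
  classical
  obtain ⟨D1, h1⟩ := part1 hdp hs hc hcap
  obtain ⟨D2, h2⟩ := part2 hp hm hi hu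
  set γ : ℝ := 4 * (Real.sqrt 2 - 1) with hγ
  have hs2 : (1.4142 : ℝ) ≤ Real.sqrt 2 := Real.le_sqrt_of_sq_le (by norm_num)
  have hγ' : 4 / (1 + Real.sqrt 2) = γ := by
    rw [div_eq_iff (by positivity), hγ]
    nlinarith [Real.sq_sqrt (show (0 : ℝ) ≤ 2 by norm_num)]
  have hγ1 : 1.6568 ≤ γ := by rw [hγ]; linarith
  set c1 : ℝ := γ / (1 + 9 / 10 ^ 7) with hc1
  have hc1' : 1.6567 ≤ c1 := by rw [hc1, le_div_iff₀ (by norm_num)]; linarith
  have hc10 : 0 < c1 := by linarith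
  have hr : 1 < (γ - 1 / 10 ^ 6) / c1 := by
    rw [lt_div_iff₀ hc10, hc1, one_mul, div_lt_iff₀ (by norm_num)]; nlinarith
  set D := D1 + D2 + 2 with hD
  obtain ⟨n₀, hn₀⟩ := Filter.eventually_atTop.1
    ((isLittleO_pow_const_const_pow_of_one_lt (R := ℝ) D hr).bound
      (show (0 : ℝ) < 1 / (4 * 16 ^ D) by positivity))
  refine ⟨max n₀ 3, fun n hn => ?_⟩
  have hn3 : 3 ≤ n := le_of_max_le_right hn
  set E := {p : Fin n × Fin n // p.1 < p.2}
  set I : Set ((E → Bool) → Bool) := Set.range fun (e : E) (x : E → Bool) => x e with hI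
  let a : Fin n := ⟨0, by omega⟩
  have hΩ : Fintype.card (E → Bool) ≤ 2 ^ (n * n) := by
    rw [Fintype.card_fun, Fintype.card_bool]
    exact Nat.pow_le_pow_right (by norm_num) ((Fintype.card_subtype_le _).trans (by simp))
  have g0 := Gen.iUnion (I := I) (P := ∅) (s := 1)
    (fun q : Fin n × Fin n => Bits fun x : E → Bool => adj x q.1 q.2) (fun q => by
      unfold adj
      by_cases h : q.1 < q.2
      · simp only [dif_pos h]; exact TF.input ⟨_, rfl⟩
      · by_cases h' : q.2 < q.1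
        · simp only [dif_neg h, dif_pos h']; exact TF.input ⟨_, rfl⟩
        · simp only [dif_neg h, dif_neg h']; exact TF.const _ _)
  have hA : ∀ u v, Bits (fun x : E → Bool => adj x u v) ⊆
      ∅ ∪ ⋃ q : Fin n × Fin n, Bits fun x : E → Bool => adj x q.1 q.2 := fun u v =>
    (Set.subset_iUnion (fun q : Fin n × Fin n => Bits fun x : E → Bool => adj x q.1 q.2)
      (u, v)).trans Set.subset_union_right
  obtain ⟨s1, o1, t1, b1, p1⟩ := h1 (E → Bool) I _ n (n / 1000 + 1) adj a (by omega) (by omega) hΩ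
    (fun x u v => by rw [Bool.eq_iff_iff, adj_iff, adj_iff, SimpleGraph.adj_comm])
    (fun x u => by simp [adj]) hA
  obtain ⟨s2, o2, t2, b2, p2⟩ := h2 (E → Bool) I _ n (n / 1000) adj a (by omega) hΩ hA
  obtain ⟨s, hs', ga, gb, out, k1, k2⟩ := net (E := E) ⟨(a, ⟨1, by omega⟩), by simp [a, Fin.lt_def]⟩
    _ _ (TF.after g0 (TF.op2 (fun x y : Bool => x || y) t1 t2))
  refine ⟨s, ?_, ga, gb, out, k1, fun x val hval => ?_⟩
  · have hn' : (3 : ℝ) ≤ n := by exact_mod_cast hn3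
    set N : ℝ := 16 * n with hN
    have hN1 : 1 ≤ N := by linarith
    have hcn : 1 ≤ c1 ^ n := one_le_pow₀ (by linarith)
    have e1 : (s1 : ℝ) ≤ N ^ D * c1 ^ n := by
      have e2 : (s1 : ℝ) * (1 + 9 / 10 ^ 7) ^ n ≤ N ^ D1 * γ ^ n :=
        (mul_le_mul_of_nonneg_left (num1 n) (by positivity)).trans b1
      rw [← le_div_iff₀ (by positivity), mul_div_assoc, ← div_pow] at e2
      exact e2.trans (by gcongr; omega)
    have e3 : (s2 : ℝ) ≤ 2 * (N ^ D * c1 ^ n) := by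
      have e4 : (s2 : ℝ) = s2 * ((1 / 1000) ^ (n / 1000) * (999 / 1000) ^ n) *
          (1000 ^ (n / 1000) * (1000 / 999) ^ n) := by
        rw [mul_assoc, mul_mul_mul_comm, ← mul_pow, ← mul_pow]; norm_num
      calc (s2 : ℝ) ≤ N ^ D2 * 2 ^ (n - 2 * n / 7) * (1000 ^ (n / 1000) * (1000 / 999) ^ n) := by
            exact e4.trans_le (mul_le_mul_of_nonneg_right b2 (by positivity))
        _ ≤ N ^ D * (2 * 1.641 ^ n) * (1.007 ^ n * (1000 / 999) ^ n) := by
            gcongr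
            · omega
            · exact num3 n
            · exact num2 n
        _ = 2 * (N ^ D * (1.641 * (1.007 * (1000 / 999))) ^ n) := by
            rw [mul_pow (1.641 : ℝ), mul_pow (1.007 : ℝ), mul_assoc, mul_assoc, mul_left_comm]
        _ ≤ _ := by
            have : (1.641 * (1.007 * (1000 / 999)) : ℝ) ≤ c1 := le_trans (by norm_num) hc1'
            gcongr
    have e5 : ((n.choose 2 : ℕ) : ℝ) + n * n + 25 ≤ N ^ D * c1 ^ n := by
      have e6 : ((n.choose 2 : ℕ) : ℝ) ≤ n * n := by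
        have := Nat.choose_le_pow n 2
        rw [sq] at this
        exact_mod_cast this
      have e7 : N ^ 2 ≤ N ^ D := pow_le_pow_right₀ hN1 (by omega)
      have e8 : N ^ D ≤ N ^ D * c1 ^ n := le_mul_of_one_le_right (by positivity) hcn
      have e9 : (n : ℝ) * n + n * n + 25 ≤ N ^ 2 := by rw [hN]; nlinarith
      linarith
    have e10 : (s : ℝ) ≤ n * n + (s1 + s2 + 20) + 5 := by
      simp only [Fintype.card_prod, Fintype.card_fin, Fintype.card_bool, mul_one] at hs'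
      exact_mod_cast hs'
    have e11 := hn₀ n (le_of_max_le_left hn)
    rw [Real.norm_of_nonneg (by positivity), Real.norm_of_nonneg (by positivity)] at e11
    have e12 : 4 * (N ^ D * c1 ^ n) ≤ (γ - 1 / 10 ^ 6) ^ n := by
      rw [div_pow, one_div, inv_mul_eq_div, div_div, le_div_iff₀ (by positivity)] at e11
      calc 4 * (N ^ D * c1 ^ n) = n ^ D * (c1 ^ n * (4 * 16 ^ D)) := by rw [hN, mul_pow]; ring
        _ ≤ _ := e11
    rw [hγ']
    push_cast
    linarith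
  · have hG : (fun u v => adj x u v = true) = (SimpleGraph.fromRel
        fun i j : Fin n => ∃ h : i < j, x ⟨(i, j), h⟩ = true).Adj := by
      funext u v; exact propext (adj_iff x u v)
    rw [k2 x val hval, Bool.or_eq_true]
    constructor
    · intro h
      refine isHamiltonian_of_dham (by simpa using hn3) (hG ▸ ?_)
      exact h.elim (p1 x).1 (p2 x).1
    · intro h
      obtain ⟨σ, hσ⟩ := dham_of_isHamiltonian (by simpa using hn3) h
      rw [← hG] at hσ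
      obtain ⟨b, hb⟩ := Finite.injective_iff_surjective.1 hσ.inj a
      by_cases hS : Sh (fun σ => pe n (orb a σ)) (n / 1000 + 1) (fam (adj x) a b)
      · exact Or.inl ((p1 x).2 b hS)
      · exact Or.inr ((p2 x).2 b ⟨σ, mem_fam.2 ⟨hσ, hb⟩⟩ hS)

end Pool.Agent.MP_6b3410_lc.U5
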