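import Pool.Agent.MP_6b3410_lc.U5.Spec

/-!
The colouring step succeeds more often on families of paths that shatter a deep mistake tree.
-/

set_option autoImplicit false

namespace Pool.Agent.MP_6b3410_lc.U5

open Finset

namespace Cap

/-- the spin of a colour -/
def sg (b : Bool) : ℝ := if b = true then -1 else 1

lemma sg_mul_self (b : Bool) : sg b * sg b = 1 := by cases b <;> simp [sg]

lemma sg_mul (b c : Bool) : sg b * sg c = 1 ∨ sg b * sg c = -1 := by
  cases b <;> cases c <;> simp [sg]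

lemma chain (k : ℕ) : ∀ g : ℕ → ℝ → ℝ,
    ∑ σ : Fin (k + 1) → Bool, ∏ t ∈ range k, g t (sg (ext false σ t) * sg (ext false σ (t + 1))) =
      2 * ∏ t ∈ range k, (g t 1 + g t (-1)) := by
  induction k with
  | zero => intro g; simp
  | succ k ih =>
    intro g
    have e0 : ∀ (x : Bool) (σ : Fin (k + 1) → Bool),
        ext false (Fin.cons x σ : Fin (k + 2) → Bool) 0 = x := fun x σ => by simp [ext]
    have e1 : ∀ (x : Bool) (σ : Fin (k + 1) → Bool) (t : ℕ),
        ext false (Fin.cons x σ : Fin (k + 2) → Bool) (t + 1) = ext false σ t := fun x σ t => by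
      unfold ext
      by_cases h : t < k + 1
      · rw [dif_pos h, dif_pos (by omega)]
        exact Fin.cons_succ (α := fun _ => Bool) x σ ⟨t, h⟩
      · rw [dif_neg h, dif_neg (by omega)]
    rw [← (Fin.consEquiv fun _ : Fin (k + 2) => Bool).sum_comp, Fintype.sum_prod_type_right,
      prod_range_succ', ← mul_assoc, ← ih fun t => g (t + 1), sum_mul]
    refine sum_congr rfl fun σ _ => ?_
    have e2 : ∀ x : Bool, (Fin.consEquiv fun _ : Fin (k + 2) => Bool) (x, σ) = Fin.cons x σ :=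
      fun _ => rfl
    simp only [e2, prod_range_succ' _ k, e0, e1, ← mul_sum]
    congr 1
    rw [Fintype.sum_bool]
    cases ext false σ 0 <;> simp [sg, add_comm]

lemma exists_equiv {n : ℕ} {f : ℕ → Fin n} (h : Set.InjOn f {t | t < n}) :
    ∃ e : Fin n ≃ Fin n, ∀ t : Fin n, e t = f t :=
  ⟨Equiv.ofBijective (fun t : Fin n => f t) (Finite.injective_iff_bijective.1
    fun a b hab => Fin.ext (h a.2 b.2 hab)), fun _ => rfl⟩

lemma chainf {k : ℕ} {f : ℕ → Fin (k + 1)} (h : Set.InjOn f {t | t < k + 1}) (g : ℕ → ℝ → ℝ) :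
    ∑ W : Fin (k + 1) → Bool, ∏ t ∈ range k, g t (sg (W (f t)) * sg (W (f (t + 1)))) =
      2 * ∏ t ∈ range k, (g t 1 + g t (-1)) := by
  obtain ⟨e, he⟩ := exists_equiv h
  rw [← chain k g]
  refine Fintype.sum_equiv (Equiv.arrowCongr e.symm (Equiv.refl Bool)) _ _ fun W => ?_
  refine prod_congr rfl fun t ht => ?_
  have ht' := mem_range.1 ht
  simp [ext, he, show t < k + 1 by omega, show t + 1 < k + 1 by omega]

/-- the chain measure along `f` -/
noncomputable def mu (β : ℝ) {k : ℕ} (f : ℕ → Fin (k + 1)) (W : Fin (k + 1) → Bool) : ℝ :=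
  (∏ t ∈ range k, (1 - β * (sg (W (f t)) * sg (W (f (t + 1)))))) / 2 ^ (k + 1)

lemma tele (s : ℕ → Bool) {i j : ℕ} (h : i ≤ j) :
    ∏ t ∈ Ico i j, (sg (s t) * sg (s (t + 1))) = sg (s i) * sg (s j) := by
  induction j, h using Nat.le_induction with
  | base => simp [sg_mul_self]
  | succ j h ih =>
    rw [prod_Ico_succ_top h, ih]
    linear_combination (sg (s i) * sg (s (j + 1))) * sg_mul_self (s j)

lemma corr (β : ℝ) {k : ℕ} {f : ℕ → Fin (k + 1)} (h : Set.InjOn f {t | t < k + 1}) {i j : ℕ}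
    (hij : i ≤ j) (hj : j ≤ k) :
    ∑ W, mu β f W * (sg (W (f i)) * sg (W (f j))) = (-β) ^ (j - i) := by
  have hs : range k ∩ Ico i j = Ico i j :=
    inter_eq_right.2 fun t ht => mem_range.2 ((mem_Ico.1 ht).2.trans_le hj)
  have := chainf h fun t d => (1 - β * d) * if t ∈ Ico i j then d else 1
  have e : ∀ t, ((1 - β * 1) * (if t ∈ Ico i j then (1 : ℝ) else 1) +
      (1 - β * -1) * if t ∈ Ico i j then (-1 : ℝ) else 1) =
      2 * if t ∈ Ico i j then -β else 1 := fun t => by split_ifs <;> ring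
  simp only [e, prod_mul_distrib (f := fun _ => (2 : ℝ)), prod_const, card_range,
    prod_mul_distrib (f := fun t => 1 - β * _), prod_ite_mem, hs, Nat.card_Ico] at this
  simp only [mu, div_mul_eq_mul_div, ← sum_div]
  rw [div_eq_iff (by positivity), pow_succ]
  refine Eq.trans (sum_congr rfl fun W _ => ?_) (this.trans (by ring))
  rw [tele (fun t => W (f t)) hij]

lemma mu_sum (β : ℝ) {k : ℕ} {f : ℕ → Fin (k + 1)} (h : Set.InjOn f {t | t < k + 1}) :
    ∑ W, mu β f W = 1 := by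
  simpa [sg_mul_self] using corr β h le_rfl (Nat.zero_le k)

lemma mu_nonneg {β : ℝ} (h0 : 0 ≤ β) (h1 : β ≤ 1) {k : ℕ} (f : ℕ → Fin (k + 1))
    (W : Fin (k + 1) → Bool) : 0 ≤ mu β f W := by
  refine div_nonneg (prod_nonneg fun t _ => ?_) (by positivity)
  rcases sg_mul (W (f t)) (W (f (t + 1))) with h | h <;> rw [h] <;> linarith

/-- the spin of an edge -/
def se {V : Type} (e : Sym2 V) (W : V → Bool) : ℝ :=
  Sym2.lift ⟨fun u v => sg (W u) * sg (W v), fun _ _ => mul_comm _ _⟩ e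

lemma se_mk {V : Type} (u v : V) (W : V → Bool) : se s(u, v) W = sg (W u) * sg (W v) := rfl

lemma se_pm {V : Type} (e : Sym2 V) (W : V → Bool) : se e W = 1 ∨ se e W = -1 := by
  induction e using Sym2.ind with
  | _ u v => exact sg_mul _ _

lemma corr_mem (β : ℝ) {k : ℕ} {f : ℕ → Fin (k + 1)} (h : Set.InjOn f {t | t < k + 1})
    {e : Sym2 (Fin (k + 1))} (he : e ∈ pe (k + 1) f) : ∑ W, mu β f W * se e W = -β := by
  obtain ⟨t, ht, rfl⟩ := mem_image.1 he
  simpa [se_mk] using corr β h (Nat.le_succ t) (by simpa using ht)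

lemma corr_not {β : ℝ} (h0 : 0 ≤ β) (h1 : β ≤ 1) {k : ℕ} {f : ℕ → Fin (k + 1)}
    (h : Set.InjOn f {t | t < k + 1}) {e : Sym2 (Fin (k + 1))} (he : e ∉ pe (k + 1) f) :
    -β ^ 2 ≤ ∑ W, mu β f W * se e W := by
  have key : ∀ i j, i ≤ j → j ≤ k → s(f i, f j) ∉ pe (k + 1) f →
      -β ^ 2 ≤ ∑ W, mu β f W * se s(f i, f j) W := by
    intro i j hij hj he
    simp only [se_mk]
    rw [corr β h hij hj]
    have hne : j ≠ i + 1 := by
      rintro rfl
      exact he (mem_image.2 ⟨i, by simpa using hj, rfl⟩)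
    rcases Nat.eq_zero_or_pos (j - i) with h2 | h2
    · rw [h2, pow_zero]; nlinarith [sq_nonneg β]
    · refine neg_le_of_abs_le ?_
      rw [abs_pow, abs_neg, abs_of_nonneg h0]
      exact pow_le_pow_of_le_one h0 h1 (by omega)
  obtain ⟨q, hq⟩ := exists_equiv h
  induction e using Sym2.ind with
  | _ u v =>
    obtain ⟨i, rfl⟩ := q.surjective u
    obtain ⟨j, rfl⟩ := q.surjective v
    rw [hq, hq] at he ⊢
    rcases le_total (i : ℕ) j with hij | hij
    · exact key i j hij (Nat.lt_succ_iff.1 j.2) he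
    · rw [Sym2.eq_swap] at he ⊢
      exact key j i hij (Nat.lt_succ_iff.1 i.2) he

lemma exp_le {s : ℝ} (h : s = 1 ∨ s = -1) : Real.exp (s / 28 - 1 / 756) ≤ 1 + s / 28 := by
  have h1 := Real.add_one_le_exp (-(s / 28 - 1 / 756))
  have h2 : Real.exp (s / 28 - 1 / 756) * Real.exp (-(s / 28 - 1 / 756)) = 1 := by
    rw [← Real.exp_add, add_neg_cancel, Real.exp_zero]
  have h3 := mul_le_mul_of_nonneg_left h1 (Real.exp_pos (s / 28 - 1 / 756)).le
  rw [h2] at h3
  generalize Real.exp (s / 28 - 1 / 756) = y at h3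
  rcases h with rfl | rfl <;> linarith

/-- the tree lemma -/
lemma tree {ι ε Ω : Type} [DecidableEq ε] [Fintype Ω] (E : ι → Finset ε) (μ : ι → Ω → ℝ)
    (s : ε → Ω → ℝ) (M : Ω → ℝ) {β : ℝ} (b0 : 171 / 1000 ≤ β) (b1 : β ≤ 172 / 1000)
    (hs : ∀ e W, s e W = 1 ∨ s e W = -1) (hM : ∀ W, 0 ≤ M W) (L : ℕ) :
    ∀ (T : Finset ι) (φ : Ω → ℝ) (x : ℝ), Sh E L T →
      (∀ i ∈ T, (∀ W, μ i W ≤ M W) ∧ (∀ W, 0 ≤ μ i W) ∧ ∑ W, μ i W = 1 ∧
        (∀ e ∈ E i, ∑ W, μ i W * s e W ≤ -β) ∧ ∀ e ∉ E i, -β ^ 2 ≤ ∑ W, μ i W * s e W) →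
      (∀ i ∈ T, x ≤ ∑ W, μ i W * φ W) →
      Real.exp x * (1 + 1 / 1000) ^ L ≤ ∑ W, Real.exp (φ W) * M W := by
  induction L with
  | zero =>
    rintro T φ x ⟨i, hi⟩ H hx
    obtain ⟨h1, h2, h3, -⟩ := H i hi
    have e : ∑ W, Real.exp x * (μ i W * φ W + (1 - x) * μ i W) =
        Real.exp x * (∑ W, μ i W * φ W + (1 - x)) := by
      rw [← mul_sum, sum_add_distrib, ← mul_sum, h3, mul_one]
    calc _ ≤ Real.exp x * (∑ W, μ i W * φ W + (1 - x)) := by
          rw [pow_zero]
          exact mul_le_mul_of_nonneg_left (by linarith [hx i hi]) (Real.exp_pos x).le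
      _ ≤ _ := by
          rw [← e]
          refine sum_le_sum fun W _ => le_trans ?_
            (mul_le_mul_of_nonneg_left (h1 W) (Real.exp_pos _).le)
          have a1 : Real.exp (φ W) = Real.exp x * Real.exp (φ W - x) := by
            rw [← Real.exp_add, add_sub_cancel]
          have a2 := mul_le_mul_of_nonneg_right (Real.add_one_le_exp (φ W - x)) (h2 W)
          rw [a1, mul_assoc]
          exact mul_le_mul_of_nonneg_left (by linarith) (Real.exp_pos x).le
  | succ L ih =>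
    rintro T φ x ⟨e, h1, h0⟩ H hx
    have lin : ∀ i ∈ T, ∀ c : ℝ, ∑ W, μ i W * (φ W + (c * s e W / 28 - 1 / 756)) =
        ∑ W, μ i W * φ W + c / 28 * ∑ W, μ i W * s e W - 1 / 756 := fun i hi c => by
      have : ∀ W, μ i W * (φ W + (c * s e W / 28 - 1 / 756)) =
          μ i W * φ W + c / 28 * (μ i W * s e W) - 1 / 756 * μ i W := fun W => by ring
      simp only [this, sum_sub_distrib, sum_add_distrib, ← mul_sum, (H i hi).2.2.1, mul_one]
    have a1 := ih _ (fun W => φ W + (-1 * s e W / 28 - 1 / 756)) (x + (β / 28 - 1 / 756)) h1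
      (fun i hi => H i (mem_filter.1 hi).1) fun i hi => by
        obtain ⟨hi, he⟩ := mem_filter.1 hi
        rw [lin i hi]
        linarith [hx i hi, (H i hi).2.2.2.1 e he]
    have a0 := ih _ (fun W => φ W + (1 * s e W / 28 - 1 / 756)) (x + (-β ^ 2 / 28 - 1 / 756)) h0
      (fun i hi => H i (mem_filter.1 hi).1) fun i hi => by
        obtain ⟨hi, he⟩ := mem_filter.1 hi
        rw [lin i hi]
        linarith [hx i hi, (H i hi).2.2.2.2 e he]
    have c : ∑ W, Real.exp (φ W + (-1 * s e W / 28 - 1 / 756)) * M W +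
        ∑ W, Real.exp (φ W + (1 * s e W / 28 - 1 / 756)) * M W ≤
        2 * ∑ W, Real.exp (φ W) * M W := by
      rw [← sum_add_distrib, mul_sum]
      refine sum_le_sum fun W _ => ?_
      have d1 := exp_le (s := -1 * s e W) (by rcases hs e W with h | h <;> simp [h])
      have d0 := exp_le (s := 1 * s e W) (by rcases hs e W with h | h <;> simp [h])
      have d2 := mul_le_mul_of_nonneg_left (add_le_add d1 d0)
        (mul_nonneg (Real.exp_pos (φ W)).le (hM W))
      rw [Real.exp_add, Real.exp_add]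
      linarith
    rw [Real.exp_add] at a1 a0
    have d1 := Real.add_one_le_exp (β / 28 - 1 / 756)
    have d0 := Real.add_one_le_exp (-β ^ 2 / 28 - 1 / 756)
    have d2 : 2 * (1 + 1 / 1000) ≤
        Real.exp (β / 28 - 1 / 756) + Real.exp (-β ^ 2 / 28 - 1 / 756) := by nlinarith
    have d3 := mul_le_mul_of_nonneg_left d2
      (show 0 ≤ Real.exp x * (1 + 1 / 1000 : ℝ) ^ L by positivity)
    rw [pow_succ]
    linarith

lemma kc_one {V : Type} (W : V → Bool) (f : ℕ → V) :
    kc 1 W f = if W (f 0) = true then 1 else 0 := by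
  simp only [kc, card_filter, sum_range_one, Nat.sub_self, sum_range_zero, add_zero]

lemma kc_succ {V : Type} (k : ℕ) (W : V → Bool) (f : ℕ → V) :
    kc (k + 2) W f = kc (k + 1) W f + (if W (f (k + 1)) = true then 1 else 0) +
      if W (f k) = false ∧ W (f (k + 1)) = false then 1 else 0 := by
  simp only [kc, card_filter, Nat.add_succ_sub_one, add_zero, sum_range_succ _ (k + 1),
    show k + 2 - 1 = k + 1 from rfl, sum_range_succ (fun t =>
      if W (f t) = false ∧ W (f (t + 1)) = false then 1 else 0) k]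
  omega

lemma kc_le {V : Type} (W : V → Bool) (f : ℕ → V) (k : ℕ) :
    kc (k + 1) W f ≤ k + if W (f k) = true then 1 else 0 := by
  induction k with
  | zero => rw [kc_one, zero_add]
  | succ k ih =>
    rw [kc_succ]
    revert ih
    cases W (f k) <;> cases W (f (k + 1)) <;> simp <;> omega

lemma prod_le {V : Type} (W : V → Bool) (f : ℕ → V) {β r : ℝ} (hr : r * r = 2) (r0 : 1 ≤ r)
    (hb : 1 + β = r * (1 - β)) (b1 : β ≤ 1) (k : ℕ) :
    (∏ t ∈ range k, (1 - β * (sg (W (f t)) * sg (W (f (t + 1)))))) * 2 ^ kc (k + 1) W f ≤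
      (1 - β) ^ k * 2 ^ k * (r * if W (f k) = true then r else 1) := by
  induction k with
  | zero =>
    rw [kc_one]
    cases W (f 0) <;> simp [hr, r0]
  | succ k ih =>
    rw [kc_succ, prod_range_succ, pow_add, pow_add, pow_succ, pow_succ]
    have h0 : 0 ≤ 1 - β := sub_nonneg.2 b1
    have h1 := mul_le_mul_of_nonneg_right ih h0
    have h2 := mul_le_mul_of_nonneg_right h1 (zero_le_one.trans r0)
    clear ih
    generalize ∏ t ∈ range k, (1 - β * (sg (W (f t)) * sg (W (f (t + 1))))) = P at h1 h2 ⊢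
    generalize (2 : ℝ) ^ kc (k + 1) W f = A at h1 h2 ⊢
    generalize (1 - β) ^ k = B at h1 h2 ⊢
    generalize (2 : ℝ) ^ k = C at h1 h2 ⊢
    revert h1 h2
    cases W (f k) <;> cases W (f (k + 1)) <;> simp [sg, hb] <;> intro h1 h2
    · linarith
    · linarith
    · rw [hr] at h2; linarith
    · linarith

end Cap

open Cap in
theorem cap : CapStmt := by
  classical
  intro n ι T sq L hn hinj hsh
  obtain ⟨k, rfl⟩ : ∃ k, n = k + 1 := ⟨n - 1, by omega⟩
  have hr : √2 * √2 = (2 : ℝ) := Real.mul_self_sqrt (by norm_num)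
  have r1 : (1414 / 1000 : ℝ) ≤ √2 := Real.le_sqrt_of_sq_le (by norm_num)
  have r2 : √2 ≤ (14145 / 10000 : ℝ) := Real.sqrt_le_iff.2 (by norm_num)
  generalize √2 = r at hr r1 r2 ⊢
  obtain ⟨β, hβ⟩ : ∃ β : ℝ, β = 3 - 2 * r := ⟨_, rfl⟩
  have b0 : 171 / 1000 ≤ β := by linarith
  have b1 : β ≤ 172 / 1000 := by linarith
  have hb : 1 + β = r * (1 - β) := by rw [hβ]; linear_combination (-2) * hr
  have h1 : 0 ≤ 1 - β := by linarith
  have key := tree (fun i => pe (k + 1) (sq i)) (fun i => mu β (sq i)) se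
    (fun W => ∑ m ∈ range (k + 2),
      if ∃ i ∈ T, kc (k + 1) W (sq i) = m then (1 - β) ^ k / 2 ^ m else 0) b0 b1 se_pm
    (fun W => sum_nonneg fun m _ => by split_ifs <;> positivity) L T (fun _ => 0) 0 hsh
    (fun i hi => ⟨fun W => ?_, mu_nonneg (by linarith) (by linarith) _, mu_sum β (hinj i hi),
      fun e he => (corr_mem β (hinj i hi) he).le,
      fun e he => corr_not (by linarith) (by linarith) (hinj i hi) he⟩) (fun i _ => by simp)
  swap
  · have a1 : kc (k + 1) W (sq i) ∈ range (k + 2) := by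
      have := kc_le W (sq i) k
      rw [mem_range]; split_ifs at this <;> omega
    refine le_trans ?_ (single_le_sum (fun m _ => by split_ifs <;> positivity) a1)
    rw [if_pos ⟨i, hi, rfl⟩, mu, div_le_div_iff₀ (by positivity) (by positivity)]
    refine (prod_le W (sq i) hr (by linarith) hb (by linarith) k).trans ?_
    rw [pow_succ, ← mul_assoc ((1 - β) ^ k)]
    refine mul_le_mul_of_nonneg_left ?_ (by positivity)
    split_ifs <;> linarith
  simp only [Real.exp_zero, one_mul] at key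
  rw [sum_comm] at key
  simp only [← sum_filter, sum_const, nsmul_eq_mul] at key
  obtain ⟨m, hm, h⟩ := exists_le_of_sum_le (s := range (k + 2)) (by simp)
    (f := fun _ => (1 + 1 / 1000 : ℝ) ^ L / (k + 2)) (le_of_eq_of_le (by
      rw [sum_const, card_range, nsmul_eq_mul]; push_cast; field_simp) key)
  refine ⟨m, Nat.lt_succ_iff.1 (mem_range.1 hm), ?_⟩
  rw [show 4 * (r - 1) = (1 - β) * 2 by rw [hβ]; ring, mul_pow, pow_succ (1 - β)]
  generalize ((univ.filter fun W : Fin (k + 1) → Bool =>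
    ∃ i ∈ T, kc (k + 1) W (sq i) = m).card : ℝ) = c at h ⊢
  rw [← mul_div_assoc, div_le_div_iff₀ (by positivity) (by positivity)] at h
  have h2 := mul_le_mul_of_nonneg_right h (show (0 : ℝ) ≤ 2 ^ (k + 1) by positivity)
  have h3 : 0 ≤ c * (1 - β) ^ k * (k + 2) * 2 ^ (k + 1) := le_trans (by positivity) h2
  push_cast
  nlinarith

end Pool.Agent.MP_6b3410_lc.U5
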