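import Mathlib
import Pool.Agent.MP_6b3410_lc.U5.Spec

/-!
Row COMPL: uniqueness of a path with a given edge set, and completeness of the sieve.
-/

set_option autoImplicit false

namespace Pool.Agent.MP_6b3410_lc.U5

open Finset

theorem uniq : UniqStmt := by
  intro V _ n f g hf hg h0 hsub t
  induction t using Nat.strong_induction_on with
  | _ t ih =>
    intro ht
    rcases t with _ | t
    · exact h0
    · have h1 : f t = g t := ih t (by omega) (by omega)
      have hm : s(f t, f (t + 1)) ∈ pe n g :=
        hsub (mem_image.2 ⟨t, mem_range.2 (by omega), rfl⟩)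
      obtain ⟨u, hu, he⟩ := mem_image.1 hm
      have hu' := mem_range.1 hu
      rcases Sym2.eq_iff.1 he with ⟨e1, e2⟩ | ⟨e1, e2⟩
      · have : u = t := hg (show u < n by omega) (show t < n by omega) (e1.trans h1)
        subst this
        exact e2.symm
      · have h3 : u + 1 = t := hg (show u + 1 < n by omega) (show t < n by omega) (e2.trans h1)
        have h2 : f u = g u := ih u (by omega) (by omega)
        have h4 : u = t + 1 := hf (show u < n by omega) (show t + 1 < n from ht) (h2.trans e1)
        omega

namespace Compl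

/-- a nonzero polynomial of degree at most half the field size vanishes on at most half of
the points -/
lemma sz {σ F : Type} [Fintype σ] [DecidableEq σ] [Field F] [Fintype F] [DecidableEq F]
    (Q : MvPolynomial σ F) (hQ : Q ≠ 0) (hd : 2 * Q.totalDegree ≤ Fintype.card F) :
    Fintype.card (σ → F) ≤ 2 * (univ.filter fun z : σ → F => MvPolynomial.eval z Q ≠ 0).card := by
  set e := Fintype.equivFin σ with he
  set p := MvPolynomial.rename e Q with hp
  have hp0 : p ≠ 0 := by
    intro h
    exact hQ (MvPolynomial.rename_injective e e.injective (by rw [← hp, h, map_zero]))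
  have hdeg : p.totalDegree ≤ Q.totalDegree := MvPolynomial.totalDegree_rename_le _ _
  have h1 := MvPolynomial.schwartz_zippel_totalDegree hp0 (univ : Finset F)
  rw [Fintype.piFinset_univ, card_univ] at h1
  have h2 : (univ.filter fun x : Fin (Fintype.card σ) → F => MvPolynomial.eval x p = 0).card =
      (univ.filter fun z : σ → F => MvPolynomial.eval z Q = 0).card := by
    refine card_bij (fun x _ => x ∘ e) ?_ ?_ ?_
    · intro x hx
      rw [mem_filter] at hx ⊢
      refine ⟨mem_univ _, ?_⟩
      rw [← MvPolynomial.eval_rename]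
      exact hx.2
    · intro x _ y _ hxy
      exact e.surjective.injective_comp_right hxy
    · intro z hz
      refine ⟨z ∘ e.symm, ?_, by ext i; simp⟩
      rw [mem_filter] at hz ⊢
      refine ⟨mem_univ _, ?_⟩
      rw [hp, MvPolynomial.eval_rename]
      have : (z ∘ e.symm) ∘ e = z := by ext i; simp
      rw [this]
      exact hz.2
  rw [h2] at h1
  have hq : 0 < Fintype.card F := Fintype.card_pos
  have hq' : (0 : ℚ≥0) < Fintype.card F := by exact_mod_cast hq
  rw [div_le_div_iff₀ (by positivity) hq'] at h1
  have h3 : (univ.filter fun z : σ → F => MvPolynomial.eval z Q = 0).card * Fintype.card F ≤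
      p.totalDegree * Fintype.card F ^ Fintype.card σ := by exact_mod_cast h1
  have h4 : (univ.filter fun z : σ → F => MvPolynomial.eval z Q = 0).card +
      (univ.filter fun z : σ → F => MvPolynomial.eval z Q ≠ 0).card = Fintype.card (σ → F) := by
    rw [← card_univ]
    exact card_filter_add_card_filter_not _
  have h5 : Fintype.card (σ → F) = Fintype.card F ^ Fintype.card σ := Fintype.card_fun
  have h6 : 2 * (univ.filter fun z : σ → F => MvPolynomial.eval z Q = 0).card ≤
      Fintype.card F ^ Fintype.card σ := by
    refine Nat.le_of_mul_le_mul_right ?_ hq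
    calc 2 * (univ.filter fun z : σ → F => MvPolynomial.eval z Q = 0).card * Fintype.card F
        ≤ 2 * (p.totalDegree * Fintype.card F ^ Fintype.card σ) := by
          rw [mul_assoc]; exact Nat.mul_le_mul_left _ h3
      _ = (2 * p.totalDegree) * Fintype.card F ^ Fintype.card σ := by ring
      _ ≤ Fintype.card F * Fintype.card F ^ Fintype.card σ :=
          Nat.mul_le_mul_right _ (by omega)
      _ = _ := mul_comm _ _
  omega

variable {n m : ℕ}

open Classical in
/-- the sum over paths, over any commutative ring -/
noncomputable def rhs {R : Type} [CommRing R] (A : Fin n → Fin n → Bool) (a b : Fin n)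
    (W : Fin n → Bool) (z : Sym2 (Fin n) × Option (Fin m) → R) : R :=
  ∑ g : Fin n → Fin n,
    if IsPath n (fun u v => A u v = true) a b (ext a g) ∧ kc n W (ext a g) = m then
      ∑ S : Finset (Fin m), pw n (svV W z S 1) (svE W z S 1) (fun _ _ _ => 1) (ext a g)
    else 0

lemma map_rhs {R R' : Type} [CommRing R] [CommRing R'] (φ : R →+* R') (A : Fin n → Fin n → Bool)
    (a b : Fin n) (W : Fin n → Bool) (z : Sym2 (Fin n) × Option (Fin m) → R) :
    φ (rhs A a b W z) = rhs A a b W fun i => φ (z i) := by
  unfold rhs
  rw [map_sum]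
  refine sum_congr rfl fun g _ => ?_
  split_ifs
  · rw [map_sum]
    refine sum_congr rfl fun S _ => ?_
    simp only [pw, svV, svE, map_mul, map_prod, map_one, apply_ite φ, map_sum]
  · exact map_zero _

lemma deg_lab {F : Type} [Field F] (S : Finset (Fin m)) (e : Sym2 (Fin n)) :
    (1 * ∑ l ∈ S, (MvPolynomial.X (e, some l) :
      MvPolynomial (Sym2 (Fin n) × Option (Fin m)) F)).totalDegree ≤ 1 := by
  rw [one_mul]
  exact MvPolynomial.totalDegree_finsetSum_le fun l _ => (MvPolynomial.totalDegree_X _).le

lemma deg_prod {σ F : Type} [Field F] (k d : ℕ) (p : ℕ → MvPolynomial σ F)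
    (h : ∀ t, (p t).totalDegree ≤ d) : (∏ t ∈ range k, p t).totalDegree ≤ k * d := by
  refine (MvPolynomial.totalDegree_finsetProd _ _).trans ?_
  refine (sum_le_sum fun t _ => h t).trans ?_
  simp

lemma deg_rhs {F : Type} [Field F] (A : Fin n → Fin n → Bool) (a b : Fin n) (W : Fin n → Bool) :
    (rhs (m := m) A a b W (MvPolynomial.X :
      _ → MvPolynomial (Sym2 (Fin n) × Option (Fin m)) F)).totalDegree ≤ 3 * n := by
  unfold rhs
  refine MvPolynomial.totalDegree_finsetSum_le fun g _ => ?_
  split_ifs
  · refine MvPolynomial.totalDegree_finsetSum_le fun S _ => ?_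
    unfold pw
    rw [prod_const_one, mul_one]
    refine (MvPolynomial.totalDegree_mul _ _).trans ?_
    have h1 := deg_prod (F := F) n 1 (fun t => svV W MvPolynomial.X S 1 (ext a g t)) (by
      intro t
      unfold svV
      split_ifs
      · exact deg_lab S _
      · simp)
    have h2 := deg_prod (F := F) (n - 1) 2
      (fun t => svE W MvPolynomial.X S 1 (ext a g t) (ext a g (t + 1))) (by
      intro t
      unfold svE
      refine (MvPolynomial.totalDegree_mul _ _).trans ?_
      rw [MvPolynomial.totalDegree_X]
      split_ifs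
      · have := deg_lab (F := F) S s(ext a g t, ext a g (t + 1))
        omega
      · simp)
    omega
  · simp

/-- the labelled items of a path -/
def items (W : Fin n → Bool) (f : ℕ → Fin n) : Finset (Sym2 (Fin n)) :=
  (((range n).filter fun t => W (f t) = true).image fun t => s(f t, f t)) ∪
    (((range (n - 1)).filter fun t => W (f t) = false ∧ W (f (t + 1)) = false).image
      fun t => s(f t, f (t + 1)))

lemma card_items (W : Fin n → Bool) (f : ℕ → Fin n) (hf : Set.InjOn f {t | t < n}) :
    (items W f).card = kc n W f := by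
  unfold items kc
  rw [card_union_of_disjoint, card_image_of_injOn, card_image_of_injOn]
  · intro t ht u hu h
    have ht' : t < n - 1 := mem_range.1 (mem_filter.1 ht).1
    have hu' : u < n - 1 := mem_range.1 (mem_filter.1 hu).1
    rcases Sym2.eq_iff.1 h with ⟨e1, _⟩ | ⟨e1, e2⟩
    · exact hf (show t < n by omega) (show u < n by omega) e1
    · have h1 : t = u + 1 := hf (show t < n by omega) (show u + 1 < n by omega) e1
      have h2 : t + 1 = u := hf (show t + 1 < n by omega) (show u < n by omega) e2
      omega
  · intro t ht u hu h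
    have ht' : t < n := mem_range.1 (mem_filter.1 ht).1
    have hu' : u < n := mem_range.1 (mem_filter.1 hu).1
    rcases Sym2.eq_iff.1 h with ⟨e1, _⟩ | ⟨e1, _⟩ <;> exact hf ht' hu' e1
  · rw [disjoint_left]
    intro e h1 h2
    obtain ⟨t, _, rfl⟩ := mem_image.1 h1
    obtain ⟨u, hu, h⟩ := mem_image.1 h2
    have hu' : u < n - 1 := mem_range.1 (mem_filter.1 hu).1
    have h3 : f u = f (u + 1) := by
      rcases Sym2.eq_iff.1 h with ⟨e1, e2⟩ | ⟨e1, e2⟩ <;> exact e1.trans e2.symm
    have : u = u + 1 := hf (show u < n by omega) (show u + 1 < n by omega) h3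
    omega

/-- the test point -/
def z0 (F : Type) [Field F] (f : ℕ → Fin n) (it : Fin m → Sym2 (Fin n)) :
    Sym2 (Fin n) × Option (Fin m) → F
  | (e, none) => if e ∈ pe n f then 1 else 0
  | (e, some l) => if it l = e then 1 else 0

lemma lab_univ {F : Type} [Field F] (f : ℕ → Fin n) (it : Fin m → Sym2 (Fin n))
    (hi : Function.Injective it) (l : Fin m) : ∑ l' : Fin m, z0 F f it (it l, some l') = 1 := by
  simp [z0, hi.eq_iff]

lemma lab_miss {F : Type} [Field F] (f : ℕ → Fin n) (it : Fin m → Sym2 (Fin n))
    (hi : Function.Injective it) (l : Fin m) (S : Finset (Fin m)) (hl : l ∉ S) :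
    ∑ l' ∈ S, z0 F f it (it l, some l') = 0 := by
  simp [z0, hi.eq_iff, hl]

lemma sum_pw {F : Type} [Field F] (W : Fin n → Bool) (f : ℕ → Fin n)
    (it : Fin m → Sym2 (Fin n)) (hi : Function.Injective it)
    (hr : ∀ e, e ∈ items W f ↔ ∃ l, it l = e) :
    ∑ S : Finset (Fin m),
      pw n (svV W (z0 F f it) S 1) (svE W (z0 F f it) S 1) (fun _ _ _ => 1) f = 1 := by
  rw [sum_eq_single univ]
  · unfold pw
    rw [prod_const_one, mul_one, prod_eq_one, prod_eq_one, mul_one]
    · intro t ht
      unfold svE
      have h1 : z0 F f it (s(f t, f (t + 1)), none) = 1 := by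
        have : s(f t, f (t + 1)) ∈ pe n f := mem_image.2 ⟨t, ht, rfl⟩
        simp [z0, this]
      rw [h1, one_mul]
      split_ifs with h
      · obtain ⟨l, hl⟩ := (hr s(f t, f (t + 1))).1
          (mem_union_right _ (mem_image.2 ⟨t, mem_filter.2 ⟨ht, h⟩, rfl⟩))
        rw [← hl, one_mul, lab_univ f it hi]
      · rfl
    · intro t ht
      unfold svV
      split_ifs with h
      · obtain ⟨l, hl⟩ := (hr s(f t, f t)).1
          (mem_union_left _ (mem_image.2 ⟨t, mem_filter.2 ⟨ht, h⟩, rfl⟩))
        rw [← hl, one_mul, lab_univ f it hi]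
      · rfl
  · intro S _ hS
    obtain ⟨l, hl⟩ : ∃ l, l ∉ S := by
      by_contra h
      push Not at h
      exact hS (eq_univ_of_forall h)
    unfold pw
    rcases mem_union.1 ((hr (it l)).2 ⟨l, rfl⟩) with h | h
    · obtain ⟨t, ht, he⟩ := mem_image.1 h
      obtain ⟨ht1, ht2⟩ := mem_filter.1 ht
      rw [prod_eq_zero ht1, zero_mul, zero_mul]
      unfold svV
      rw [if_pos ht2, he, lab_miss f it hi l S hl, mul_zero]
    · obtain ⟨t, ht, he⟩ := mem_image.1 h
      obtain ⟨ht1, ht2⟩ := mem_filter.1 ht
      rw [prod_eq_zero ht1, mul_zero, zero_mul]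
      unfold svE
      rw [if_pos ht2, he, lab_miss f it hi l S hl, mul_zero, mul_zero]
  · intro h
    exact absurd (mem_univ _) h

lemma rhs_z0 {F : Type} [Field F] (A : Fin n → Fin n → Bool) (a b : Fin n) (W : Fin n → Bool)
    (f : ℕ → Fin n) (hn : 2 ≤ n) (hf : IsPath n (fun u v => A u v = true) a b f)
    (hk : kc n W f = m) (it : Fin m → Sym2 (Fin n)) (hi : Function.Injective it)
    (hr : ∀ e, e ∈ items W f ↔ ∃ l, it l = e) : rhs A a b W (z0 F f it) = 1 := by
  have hx : ∀ t < n, ext a (fun i : Fin n => f i) t = f t := by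
    intro t ht
    simp [ext, ht]
  unfold rhs
  rw [sum_eq_single (fun i : Fin n => f i)]
  · rw [if_pos]
    · refine Eq.trans ?_ (sum_pw (F := F) W f it hi hr)
      refine sum_congr rfl fun S _ => ?_
      unfold pw
      rw [prod_const_one]
      congr 2
      · exact prod_congr rfl fun t ht => by rw [hx t (mem_range.1 ht)]
      · refine prod_congr rfl fun t ht => ?_
        have := mem_range.1 ht
        rw [hx t (by omega), hx (t + 1) (by omega)]
    · obtain ⟨h1, h2, h3, h4⟩ := hf
      refine ⟨⟨?_, ?_, ?_, ?_⟩, ?_⟩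
      · intro t ht u hu h
        rw [hx t ht, hx u hu] at h
        exact h1 ht hu h
      · rw [hx 0 (by omega), h2]
      · rw [hx _ (by omega), h3]
      · intro t ht
        rw [hx t (by omega), hx _ ht]
        exact h4 t ht
      · rw [← hk]
        unfold kc
        congr 1
        · congr 1
          exact filter_congr fun t ht => by rw [hx t (mem_range.1 ht)]
        · congr 1
          refine filter_congr fun t ht => ?_
          have := mem_range.1 ht
          rw [hx t (by omega), hx (t + 1) (by omega)]
  · intro g _ hg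
    split_ifs with h
    · refine sum_eq_zero fun S _ => ?_
      have hns : ¬ pe n (ext a g) ⊆ pe n f := by
        intro hs
        refine hg (funext fun i => ?_)
        have := uniq (Fin n) n (ext a g) f h.1.1 hf.1 (h.1.2.1.trans hf.2.1.symm) hs i i.2
        simpa [ext] using this
      obtain ⟨e, he1, he2⟩ := not_subset.1 hns
      obtain ⟨t, ht, rfl⟩ := mem_image.1 he1
      unfold pw
      rw [prod_eq_zero ht, mul_zero, zero_mul]
      unfold svE
      have : z0 F f it (s(ext a g t, ext a g (t + 1)), none) = 0 := by simp [z0, he2]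
      rw [this, zero_mul]
    · rfl
  · intro h
    exact absurd (mem_univ _) h

end Compl

theorem compl : SoundStmt → ComplStmt := by
  intro hS n m F _ _ _ _ A a b W f hn hq hm hA hA0 hf hk
  have hc : (Compl.items W f).card = m := (Compl.card_items W f hf.1).trans hk
  set e := (Compl.items W f).equivFinOfCardEq hc with he
  have h1 : Compl.rhs A a b W (Compl.z0 F f fun l => (e.symm l : Sym2 (Fin n))) = 1 := by
    refine Compl.rhs_z0 A a b W f hn hf hk _ ?_ ?_
    · exact Subtype.val_injective.comp e.symm.injective
    · intro x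
      constructor
      · intro hx
        exact ⟨e ⟨x, hx⟩, by simp⟩
      · rintro ⟨l, rfl⟩
        exact (e.symm l).2
  have hev : ∀ z : Sym2 (Fin n) × Option (Fin m) → F,
      MvPolynomial.eval z (Compl.rhs A a b W MvPolynomial.X) = Compl.rhs A a b W z := by
    intro z
    rw [Compl.map_rhs]
    simp
  have hQ : (Compl.rhs (m := m) A a b W (MvPolynomial.X :
      _ → MvPolynomial (Sym2 (Fin n) × Option (Fin m)) F)) ≠ 0 := by
    intro h
    have := hev (Compl.z0 F f fun l => (e.symm l : Sym2 (Fin n)))
    rw [h, h1, map_zero] at this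
    exact zero_ne_one this
  have hd := Compl.deg_rhs (m := m) (F := F) A a b W
  have h2 := Compl.sz _ hQ (by omega)
  refine h2.trans (le_of_eq ?_)
  congr 2
  refine filter_congr fun z _ => ?_
  rw [hev, hS n m F A a b W z hn hq hm hA hA0]
  rfl

end Pool.Agent.MP_6b3410_lc.U5
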