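import Mathlib
import Pool.Agent.MP_6b3410_lc.U5.Spec

/-!
Row BAL: oblivious load balancing on the hypercube.
-/

set_option autoImplicit false

namespace Pool.Agent.MP_6b3410_lc.U5

open Finset

namespace BAL

variable {Ω : Type} {I P : Set (Ω → Bool)} {n N : ℕ}

/-- the validity bit of slot `r` of a buffer -/
def cv (L : Ω → List (Fin n → ZMod 2)) (r : ℕ) (ω : Ω) : Bool := decide (r < (L ω).length)

/-- the content of slot `r` of a buffer -/
def cp (L : Ω → List (Fin n → ZMod 2)) (r : ℕ) (ω : Ω) : Fin n → ZMod 2 := (L ω).getD r 0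

/-- the bits of the first `M` slots of a buffer -/
def SB (M : ℕ) (L : Ω → List (Fin n → ZMod 2)) : Set (Ω → Bool) :=
  {f | ∃ r, r < M ∧ (f ∈ Bits (cv L r) ∨ ∃ v, f ∈ Bits fun ω => cp L r ω v)}

lemma mux {α : Type} [Fintype α] (hα : Fintype.card α = 2) {b : Ω → Bool} {x y : Ω → α}
    (hb : TF I P 0 b) (hx : TF I P 0 x) (hy : TF I P 0 y) :
    TF I P 60 fun ω => if b ω = true then x ω else y ω := by
  have h1 := TF.op2 (fun (p : Bool × α) (z : α) => if p.1 = true then p.2 else z)
    (TF.op2 Prod.mk hb hx) hy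
  refine h1.le ?_
  simp [hα]

lemma push {M : ℕ} (hN : 7 ≤ N) (hn : n ≤ N) (hM : M ≤ N) (L : Ω → List (Fin n → ZMod 2))
    (b : Ω → Bool) (x : Ω → Fin n → ZMod 2) (hL : SB M L ⊆ P) (hb : Bits b ⊆ P)
    (hx : ∀ v, Bits (fun ω => x ω v) ⊆ P) :
    Gen I (N ^ 6) P (SB M fun ω => if b ω = true then x ω :: L ω else L ω) := by
  set L' : Ω → List (Fin n → ZMod 2) := fun ω => if b ω = true then x ω :: L ω else L ω with hL'
  have hv : ∀ r, r < M → TF I P 0 (cv L r) := fun r hr =>
    TF.of_subset (fun f hf => hL ⟨r, hr, Or.inl hf⟩) 0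
  have hp : ∀ r, r < M → ∀ v, TF I P 0 (fun ω => cp L r ω v) := fun r hr v =>
    TF.of_subset (fun f hf => hL ⟨r, hr, Or.inr ⟨v, hf⟩⟩) 0
  have hb0 : TF I P 0 b := TF.of_subset hb 0
  have h1 : ∀ r ∈ range M, TF I P 60 (cv L' r) := by
    intro r hr
    rw [mem_range] at hr
    cases r with
    | zero =>
      refine (mux (by simp) hb0 (TF.const true 0) (hv 0 hr)).congr fun ω => ?_
      by_cases h : b ω = true <;> simp [cv, hL', h]
    | succ r =>
      refine (mux (by simp) hb0 (hv r (by omega)) (hv (r + 1) hr)).congr fun ω => ?_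
      by_cases h : b ω = true <;> simp [cv, hL', h]
  have h2 : ∀ r ∈ range M, ∀ v, TF I P 60 (fun ω => cp L' r ω v) := by
    intro r hr v
    rw [mem_range] at hr
    cases r with
    | zero =>
      refine (mux (by simp) hb0 (TF.of_subset (hx v) 0) (hp 0 hr v)).congr fun ω => ?_
      by_cases h : b ω = true <;> simp [cp, hL', h]
    | succ r =>
      refine (mux (by simp) hb0 (hp r (by omega) v) (hp (r + 1) hr v)).congr fun ω => ?_
      by_cases h : b ω = true <;> simp [cp, hL', h]
  have h3 := Gen.all (I := I) (P := P) (range M)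
    (fun r => Bits (cv L' r) ∪ ⋃ v, Bits fun ω => cp L' r ω v)
    (fun r hr => Gen.union (h1 r hr) (Gen.iUnion _ (h2 r hr)))
  refine h3.mono ?_ subset_rfl ?_
  · rw [card_range, Fintype.card_fin]
    have e1 : 60 ≤ N ^ 3 := le_trans (by norm_num) (Nat.pow_le_pow_left hN 3)
    have e2 : 60 + n * 60 ≤ N ^ 2 * N ^ 3 := by
      have : 1 + n ≤ N ^ 2 := by nlinarith
      calc 60 + n * 60 = (1 + n) * 60 := by ring
        _ ≤ _ := Nat.mul_le_mul this e1
    calc _ ≤ N * (N ^ 2 * N ^ 3) := Nat.mul_le_mul hM e2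
      _ = _ := by ring
  · rintro f ⟨r, hr, hf⟩
    refine ⟨r, mem_range.2 hr, ?_⟩
    rcases hf with hf | ⟨v, hf⟩
    · exact Or.inl hf
    · exact Or.inr (Set.mem_iUnion.2 ⟨v, hf⟩)

/-- compaction of a finite set of items into a buffer -/
lemma compact {ι : Type} {M : ℕ} (hN : 7 ≤ N) (hn : n ≤ N) (hM : M ≤ N) (J : Finset ι)
    (vd : ι → Ω → Bool) (pl : ι → Ω → Fin n → ZMod 2) (hv : ∀ i ∈ J, Bits (vd i) ⊆ P)
    (hp : ∀ i ∈ J, ∀ v, Bits (fun ω => pl i ω v) ⊆ P) :
    ∃ L : Ω → List (Fin n → ZMod 2), Gen I (J.card * N ^ 6) P (SB M L) ∧ ∀ ω,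
      (L ω).length ≤ J.card ∧
      (L ω : Multiset (Fin n → ZMod 2)) = ∑ i ∈ J, if vd i ω = true then {pl i ω} else 0 := by
  classical
  induction J using Finset.induction_on with
  | empty =>
    refine ⟨fun _ => [], ?_, fun ω => by simp⟩
    intro K hK _
    refine ⟨K, hK, fun _ hf => hf, by omega, ?_⟩
    rintro f ⟨r, _, ⟨a, rfl⟩ | ⟨v, a, rfl⟩⟩
    · exact Or.inr (Or.inl ⟨decide (false = a), by funext ω; simp [cv]⟩)
    · exact Or.inr (Or.inl ⟨decide (0 = a), by funext ω; simp [cp]⟩)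
  | insert i J hi ih =>
    obtain ⟨L, h1, h2⟩ := ih (fun j hj => hv j (mem_insert_of_mem hj))
      (fun j hj => hp j (mem_insert_of_mem hj))
    refine ⟨fun ω => if vd i ω = true then pl i ω :: L ω else L ω, ?_, fun ω => ?_⟩
    · rw [card_insert_of_notMem hi, Nat.succ_mul]
      exact h1.trans (push hN hn hM L (vd i) (pl i) Set.subset_union_right
        ((hv i (mem_insert_self _ _)).trans Set.subset_union_left)
        fun v => (hp i (mem_insert_self _ _) v).trans Set.subset_union_left)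
    · rw [card_insert_of_notMem hi, sum_insert hi, ← (h2 ω).2]
      have := (h2 ω).1
      by_cases h : vd i ω = true
      · simp only [h, if_true, List.length_cons]
        exact ⟨by omega, by simp⟩
      · simp only [h]
        exact ⟨by simp; omega, by simp⟩

lemma list_sum {α : Type} (a : α) (l : List α) : ∀ M, l.length ≤ M →
    (∑ r ∈ range M, if r < l.length then ({l.getD r a} : Multiset α) else 0) = l := by
  induction l with
  | nil => intro M _; simp
  | cons x l ih =>
    intro M hM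
    cases M with
    | zero => simp at hM
    | succ M =>
      rw [sum_range_succ']
      have := ih M (by simpa using hM)
      simp only [List.length_cons, Nat.add_lt_add_iff_right, List.getD_cons_succ, this,
        Nat.zero_lt_succ, if_true, List.getD_cons_zero]
      rw [add_comm, Multiset.singleton_add, Multiset.cons_coe]

lemma slots_sum (L : Ω → List (Fin n → ZMod 2)) (ω : Ω) (M : ℕ) (h : (L ω).length ≤ M) :
    (∑ r ∈ range M, if cv L r ω = true then ({cp L r ω} : Multiset _) else 0) = L ω := by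
  simpa [cv, cp] using list_sum 0 (L ω) M h

lemma sum_double {A : Type} [AddCommMonoid A] (F : ℕ → A) (G : ℕ) :
    ∑ r ∈ range (2 * G), F r = ∑ β : Bool, ∑ r ∈ range G, F (2 * r + β.toNat) := by
  induction G with
  | zero => simp
  | succ G ih =>
    rw [show 2 * (G + 1) = 2 * G + 1 + 1 by ring, sum_range_succ, sum_range_succ, ih]
    simp only [Fintype.sum_bool, sum_range_succ, Bool.toNat_true, Bool.toNat_false, add_zero]
    abel

lemma half_card (L : Ω → List (Fin n → ZMod 2)) (ω : Ω) (c G : ℕ) :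
    Multiset.card (∑ r ∈ range G,
      if cv L (2 * r + c) ω = true then ({cp L (2 * r + c) ω} : Multiset _) else 0) ≤ G ∧
    2 * Multiset.card (∑ r ∈ range G,
      if cv L (2 * r + c) ω = true then ({cp L (2 * r + c) ω} : Multiset _) else 0) ≤
      (L ω).length + 1 := by
  induction G with
  | zero => simp
  | succ G ih =>
    rw [sum_range_succ, Multiset.card_add]
    by_cases h : cv L (2 * G + c) ω = true
    · rw [if_pos h, Multiset.card_singleton]
      have : 2 * G + c < (L ω).length := by simpa [cv] using h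
      omega
    · rw [if_neg h, Multiset.card_zero]
      omega

lemma ms_succ (d G : ℕ) (vd : (Fin (d + 1) → Bool) → ℕ → Ω → Bool)
    (pl : (Fin (d + 1) → Bool) → ℕ → Ω → Fin n → ZMod 2) (ω : Ω) :
    ms (d + 1) G vd pl ω =
      ∑ β : Bool, ms d G (fun w => vd (Fin.cons β w)) (fun w => pl (Fin.cons β w)) ω := by
  unfold ms
  rw [← Fintype.sum_prod_type']
  exact (Fintype.sum_equiv (Fin.consEquiv fun _ => Bool) _ _ fun p => rfl).symm

lemma aux {G : ℕ} (hN : 7 ≤ N) (hn : n ≤ N) (hG : 2 * G ≤ N) (d : ℕ) :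
    ∀ (P : Set (Ω → Bool)) (vd : (Fin d → Bool) → ℕ → Ω → Bool)
      (pl : (Fin d → Bool) → ℕ → Ω → Fin n → ZMod 2), ArrBits d G vd pl ⊆ P →
    ∃ (vd' : (Fin d → Bool) → ℕ → Ω → Bool) (pl' : (Fin d → Bool) → ℕ → Ω → Fin n → ZMod 2),
      Gen I ((d + 1) * (2 ^ d * N ^ 7)) P (ArrBits d G vd' pl') ∧
      ∀ ω, ms d G vd' pl' ω = ms d G vd pl ω ∧ ∀ u r, r < G → vd' u r ω = true →
        2 * 2 ^ d * (r + 1) ≤ 2 * Multiset.card (ms d G vd pl ω) + d * 2 ^ d := by
  induction d with
  | zero =>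
    intro P vd pl hP
    obtain ⟨L, h1, h2⟩ := compact (I := I) (P := P) (M := G) hN hn (by omega) (range G)
      (vd default) (pl default)
      (fun r hr f hf => hP ⟨default, r, mem_range.1 hr, Or.inl hf⟩)
      (fun r hr v f hf => hP ⟨default, r, mem_range.1 hr, Or.inr ⟨v, hf⟩⟩)
    refine ⟨fun _ => cv L, fun _ => cp L, h1.mono ?_ subset_rfl ?_, fun ω => ?_⟩
    · rw [card_range]
      calc G * N ^ 6 ≤ N * N ^ 6 := Nat.mul_le_mul_right _ (by omega)
        _ = _ := by ring
    · rintro f ⟨_, r, hr, hf⟩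
      exact ⟨r, hr, hf⟩
    · have e : ms 0 G vd pl ω = L ω := by
        rw [(h2 ω).2, ms, Fintype.sum_subsingleton _ default]
      refine ⟨?_, fun u r _ h => ?_⟩
      · rw [e, ms, Fintype.sum_unique]
        exact slots_sum L ω G (by simpa using (h2 ω).1)
      · have : r < (L ω).length := by simpa [cv] using h
        rw [e, Multiset.coe_card]
        omega
  | succ d ih =>
    intro P vd pl hP
    have hc := fun w : Fin d → Bool => compact (I := I) (P := P) (M := 2 * G) hN hn hG
      ((univ : Finset Bool) ×ˢ range G)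
      (fun i => vd (Fin.cons i.1 w) i.2) (fun i => pl (Fin.cons i.1 w) i.2)
      (fun i hi f hf => hP ⟨_, i.2, mem_range.1 (mem_product.1 hi).2, Or.inl hf⟩)
      (fun i hi v f hf => hP ⟨_, i.2, mem_range.1 (mem_product.1 hi).2, Or.inr ⟨v, hf⟩⟩)
    choose L h1 h2 using hc
    have hcard : ((univ : Finset Bool) ×ˢ range G).card = 2 * G := by simp
    rw [hcard] at h1 h2
    have hQ := Gen.iUnion (I := I) (P := P) (fun w => SB (2 * G) (L w)) h1
    have hr := fun β : Bool => ih (P ∪ ⋃ w, SB (2 * G) (L w))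
      (fun w r => cv (L w) (2 * r + β.toNat)) (fun w r => cp (L w) (2 * r + β.toNat)) (by
        rintro f ⟨w, r, hr, hf⟩
        refine Or.inr (Set.mem_iUnion.2 ⟨w, 2 * r + β.toNat, ?_, hf⟩)
        have := Bool.toNat_le β
        omega)
    choose vd' pl' g1 g2 using hr
    refine ⟨fun u => vd' (u 0) (Fin.tail u), fun u => pl' (u 0) (Fin.tail u),
      (hQ.trans ((g1 false).union (g1 true))).mono ?_ subset_rfl ?_, fun ω => ?_⟩
    · have e1 : 2 * G * N ^ 6 ≤ N ^ 7 := by
        calc 2 * G * N ^ 6 ≤ N * N ^ 6 := Nat.mul_le_mul_right _ hG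
          _ = _ := by ring
      have e2 : Fintype.card (Fin d → Bool) = 2 ^ d := by simp
      have e3 := Nat.mul_le_mul_left (2 ^ d) e1
      rw [e2]
      have e4 : (d + 1 + 1) * (2 ^ (d + 1) * N ^ 7) =
          2 * (2 ^ d * N ^ 7) + 2 * ((d + 1) * (2 ^ d * N ^ 7)) := by ring
      omega
    · rintro f ⟨u, r, hr, hf⟩
      cases h : u 0
      · simp only [h] at hf
        exact Or.inl ⟨Fin.tail u, r, hr, hf⟩
      · simp only [h] at hf
        exact Or.inr ⟨Fin.tail u, r, hr, hf⟩
    · have e : ms (d + 1) G vd pl ω = ∑ w, (L w ω : Multiset (Fin n → ZMod 2)) := by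
        rw [ms_succ]
        unfold ms
        rw [sum_comm]
        refine sum_congr rfl fun w _ => ?_
        rw [(h2 w ω).2, sum_product]
      refine ⟨?_, fun u r hr h => ?_⟩
      · rw [e, ms_succ]
        simp only [Fin.cons_zero, Fin.tail_cons]
        rw [sum_congr rfl fun β _ => (g2 β ω).1]
        unfold ms
        rw [sum_comm]
        refine sum_congr rfl fun w _ => ?_
        rw [← slots_sum (L w) ω (2 * G) (h2 w ω).1, sum_double]
      · have e1 := (g2 (u 0) ω).2 (Fin.tail u) r hr h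
        have e2 : 2 * Multiset.card (ms d G (fun w r => cv (L w) (2 * r + (u 0).toNat))
            (fun w r => cp (L w) (2 * r + (u 0).toNat)) ω) ≤
            Multiset.card (ms (d + 1) G vd pl ω) + 2 ^ d := by
          rw [e, ms, Multiset.card_sum, Multiset.card_sum, mul_sum]
          calc _ ≤ ∑ w : Fin d → Bool, ((L w ω).length + 1) :=
                sum_le_sum fun w _ => (half_card (L w) ω _ G).2
            _ = _ := by simp [sum_add_distrib]
        have e3 : 2 * 2 ^ (d + 1) * (r + 1) = 2 * (2 * 2 ^ d * (r + 1)) := by ring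
        have e4 : (d + 1) * 2 ^ (d + 1) = 2 * (d * 2 ^ d) + 2 * 2 ^ d := by ring
        omega

end BAL

theorem bal : BalStmt := by
  refine ⟨8, fun Ω I P N n d G vd pl hN hn hG hd hP => ?_⟩
  obtain ⟨vd', pl', h1, h2⟩ := BAL.aux (I := I) hN hn hG d P vd pl hP
  refine ⟨vd', pl', h1.le ?_, h2⟩
  calc (d + 1) * (2 ^ d * N ^ 7) ≤ N * (2 ^ d * N ^ 7) := Nat.mul_le_mul_right _ hd
    _ = _ := by ring

end Pool.Agent.MP_6b3410_lc.U5
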