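import Mathlib
import Pool.Agent.MP_6b3410_lc.U5.Spec

/-!
Row DP: walk sums have small circuits (dynamic programming over the last two vertices).
-/

set_option autoImplicit false

namespace Pool.Agent.MP_6b3410_lc.U5

open Finset

namespace DP

section alg

variable {V R : Type} [Fintype V] [DecidableEq V] [CommRing R]

/-- the total weight of the sequences of `t + 2` vertices starting at `a`, by the last two -/
def tab (a : V) (va : V → R) (e : V → V → R) (tr : V → V → V → R) : ℕ → V → V → R
  | 0, u, v => if u = a then va u * e u v * va v else 0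
  | t + 1, v, w => (∑ u, tab a va e tr t u v * tr u v w) * (e v w * va w)

omit [Fintype V] [DecidableEq V] in
lemma ext_snoc {l : ℕ} (a : V) (g : Fin l → V) (w : V) :
    ext a (Fin.snoc g w : Fin (l + 1) → V) = Function.update (ext a g) l w := by
  funext t
  by_cases h : t = l
  · subst h
    rw [Function.update_self]
    simp only [ext, Nat.lt_succ_self, dif_pos]
    exact Fin.snoc_last (α := fun _ => V) w g
  · rw [Function.update_of_ne h]
    by_cases h2 : t < l
    · have h3 : t < l + 1 := by omega
      simp only [ext, h2, h3, dif_pos]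
      exact Fin.snoc_castSucc (α := fun _ => V) w g ⟨t, h2⟩
    · have h3 : ¬ t < l + 1 := by omega
      simp only [ext, h2, h3, dif_neg, not_false_eq_true]

omit [DecidableEq V] in
lemma sum_succ (l : ℕ) (a : V) (G : (ℕ → V) → R) :
    ∑ g : Fin (l + 1) → V, G (ext a g) =
      ∑ g : Fin l → V, ∑ w, G (Function.update (ext a g) l w) := by
  rw [← (Fin.snocEquiv fun _ : Fin (l + 1) => V).sum_comp, Fintype.sum_prod_type, sum_comm]
  refine sum_congr rfl fun g _ => sum_congr rfl fun w _ => ?_
  rw [← ext_snoc]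
  rfl

omit [Fintype V] [DecidableEq V] in
lemma pw_update (va : V → R) (e : V → V → R) (tr : V → V → V → R) (t : ℕ) (f : ℕ → V) (w : V) :
    pw (t + 3) va e tr (Function.update f (t + 2) w) =
      pw (t + 2) va e tr f * tr (f t) (f (t + 1)) w * (e (f (t + 1)) w * va w) := by
  have hu : ∀ s, s < t + 2 → Function.update f (t + 2) w s = f s := fun s hs =>
    Function.update_of_ne (by omega) _ _
  have e1 : t + 3 - 1 = t + 1 + 1 := by omega
  have e2 : t + 3 - 2 = t + 1 := by omega
  have e3 : t + 2 - 1 = t + 1 := by omega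
  have e4 : t + 2 - 2 = t := by omega
  unfold pw
  rw [e1, e2, e3, e4]
  have h1 : ∏ s ∈ range (t + 2), va (Function.update f (t + 2) w s) =
      ∏ s ∈ range (t + 2), va (f s) :=
    prod_congr rfl fun s hs => by rw [hu s (mem_range.1 hs)]
  have h2 : ∏ s ∈ range (t + 1), e (Function.update f (t + 2) w s)
      (Function.update f (t + 2) w (s + 1)) = ∏ s ∈ range (t + 1), e (f s) (f (s + 1)) :=
    prod_congr rfl fun s hs => by
      have := mem_range.1 hs
      rw [hu s (by omega), hu (s + 1) (by omega)]
  have h3 : ∏ s ∈ range t, tr (Function.update f (t + 2) w s)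
      (Function.update f (t + 2) w (s + 1)) (Function.update f (t + 2) w (s + 2)) =
      ∏ s ∈ range t, tr (f s) (f (s + 1)) (f (s + 2)) :=
    prod_congr rfl fun s hs => by
      have := mem_range.1 hs
      rw [hu s (by omega), hu (s + 1) (by omega), hu (s + 2) (by omega)]
  rw [prod_range_succ _ (t + 2), h1, prod_range_succ _ (t + 1), prod_range_succ _ (t + 1), h2,
    prod_range_succ (fun s => tr (Function.update f (t + 2) w s)
      (Function.update f (t + 2) w (s + 1)) (Function.update f (t + 2) w (s + 2))) t, h3,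
    hu t (by omega), hu (t + 1) (by omega), Function.update_self]
  ring

lemma tab_eq (a : V) (va : V → R) (e : V → V → R) (tr : V → V → V → R) (t : ℕ) (u v : V) :
    tab a va e tr t u v = ∑ g : Fin (t + 2) → V,
      if ext a g 0 = a ∧ ext a g t = u ∧ ext a g (t + 1) = v then pw (t + 2) va e tr (ext a g)
      else 0 := by
  induction t generalizing u v with
  | zero =>
    rw [sum_succ 1 a fun f => if f 0 = a ∧ f 0 = u ∧ f (0 + 1) = v then pw (0 + 2) va e tr f
      else 0]
    rw [sum_succ 0 a fun f => ∑ w, if Function.update f 1 w 0 = a ∧ Function.update f 1 w 0 = u ∧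
      Function.update f 1 w (0 + 1) = v then pw (0 + 2) va e tr (Function.update f 1 w) else 0]
    rw [Fintype.sum_unique, Finset.sum_eq_single a, Finset.sum_eq_single v]
    · by_cases h : u = a
      · subst h
        simp [tab, pw, prod_range_succ]
        ring
      · simp [tab, h, Ne.symm h]
    · intro w _ hw
      simp [hw]
    · simp
    · intro w _ hw
      simp [hw]
    · simp
  | succ t ih =>
    rw [sum_succ (t + 2) a fun f => if f 0 = a ∧ f (t + 1) = u ∧ f (t + 1 + 1) = v then
      pw (t + 1 + 2) va e tr f else 0]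
    simp only [tab, ih, sum_mul]
    rw [sum_comm]
    refine sum_congr rfl fun g _ => ?_
    have hu : ∀ (w : V) s, s < t + 2 → Function.update (ext a g) (t + 2) w s = ext a g s :=
      fun w s hs => Function.update_of_ne (by omega) _ _
    rw [Finset.sum_eq_single (ext a g t), Finset.sum_eq_single v]
    · rw [hu v 0 (by omega), hu v (t + 1) (by omega), Function.update_self, pw_update]
      by_cases h : ext a g 0 = a ∧ ext a g (t + 1) = u
      · obtain ⟨h1, h2⟩ := h
        simp [h1, h2]
      · rw [if_neg (by tauto), if_neg (by tauto)]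
        simp
    · intro w _ hw
      rw [if_neg]
      rintro ⟨-, -, h⟩
      rw [Function.update_self] at h
      exact hw h
    · simp
    · intro w _ hw
      rw [if_neg (by rintro ⟨-, h, -⟩; exact hw h.symm)]
      simp
    · simp

lemma wsum_eq (a b : V) (va : V → R) (e : V → V → R) (tr : V → V → V → R) (t : ℕ) :
    wsum (t + 2) a b va e tr = ∑ u, tab a va e tr t u b := by
  simp only [tab_eq]
  rw [sum_comm]
  unfold wsum
  refine sum_congr rfl fun g _ => ?_
  have e3 : t + 2 - 1 = t + 1 := by omega
  rw [e3, Finset.sum_eq_single (ext a g t)]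
  · simp
  · intro w _ hw
    rw [if_neg (by rintro ⟨-, h, -⟩; exact hw h.symm)]
  · simp

end alg

end DP

theorem dp : DPStmt := by
  refine ⟨10, ?_⟩
  intro Ω I P N n F _ _ A a b va eb tr hN hn hF h2 hA
  obtain ⟨t, rfl⟩ : ∃ t, n = t + 2 := ⟨n - 2, by omega⟩
  let T : ℕ → Fin (t + 2) → Fin (t + 2) → Ω → F := fun s u v ω =>
    DP.tab a va (fun u v => if A ω u v = true then eb u v else 0) tr s u v
  let S : ℕ → Set (Ω → Bool) := fun s => ⋃ p : Fin (t + 2) × Fin (t + 2), Bits (T s p.1 p.2)
  have hc : Fintype.card (Fin (t + 2) × Fin (t + 2)) ≤ N ^ 2 := by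
    rw [Fintype.card_prod, Fintype.card_fin, sq]
    exact Nat.mul_le_mul hn hn
  have hcu : (univ : Finset (Fin (t + 2))).card ≤ N := by simpa using hn
  have h0 : Gen I (N ^ 2 * N ^ 3) P (S 0) := by
    refine (Gen.iUnion (s := N ^ 3) _ fun p => ?_).le (Nat.mul_le_mul_right _ hc)
    exact (PF.op1 (fun c : Bool => if p.1 = a then va p.1 * (if c = true then eb p.1 p.2 else 0) *
      va p.2 else 0) hN le_rfl (card_bool_le hN) (PF.of_subset (hA p.1 p.2) 2)).congr
      fun ω => rfl
  have hS : ∀ s u v, Bits (T s u v) ⊆ S s := fun s u v =>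
    Set.subset_iUnion (fun p : Fin (t + 2) × Fin (t + 2) => Bits (T s p.1 p.2)) (u, v)
  have h1 : Gen I (t * (N ^ 2 * N ^ 6)) (P ∪ S 0) (S t) := by
    refine Gen.iter S t Set.subset_union_right fun j _ => ?_
    refine (Gen.iUnion (s := N ^ 6) _ fun p => ?_).le (Nat.mul_le_mul_right _ hc)
    have k1 : PF I (P ∪ S 0 ∪ S j) N 5 fun ω => ∑ u, T j u p.1 ω * tr u p.1 p.2 :=
      PF.sum univ (fun u ω => T j u p.1 ω * tr u p.1 p.2) hN (by omega) hF hcu fun u _ =>
        PF.op1 (fun c : F => c * tr u p.1 p.2) hN le_rfl hF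
          (PF.of_subset ((hS j u p.1).trans Set.subset_union_right) 2)
    exact (PF.op2 (fun (x : F) (c : Bool) => x * ((if c = true then eb p.1 p.2 else 0) * va p.2))
      hN (by omega) hF (card_bool_le hN) k1
      (PF.of_subset ((hA p.1 p.2).trans
        (Set.subset_union_left.trans Set.subset_union_left)) 5)).congr fun ω => rfl
  have h3 : PF I (P ∪ S t) N 4 fun ω => ∑ u, T t u b ω :=
    PF.sum univ (fun u ω => T t u b ω) hN le_rfl hF hcu fun u _ =>
      PF.of_subset ((hS t u b).trans Set.subset_union_right) 2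
  refine ((TF.after (h0.trans h1) h3).le ?_).congr fun ω => (DP.wsum_eq a b va _ tr t).symm
  have p5 : N ^ 2 * N ^ 3 ≤ N ^ 9 := by
    rw [← pow_add]; exact Nat.pow_le_pow_right (by omega) (by omega)
  have p4 : N ^ 4 ≤ N ^ 9 := Nat.pow_le_pow_right (by omega) (by omega)
  have p9 : t * (N ^ 2 * N ^ 6) ≤ N ^ 9 := by
    calc _ ≤ N * (N ^ 2 * N ^ 6) := Nat.mul_le_mul_right _ (by omega)
      _ = N ^ 9 := by ring
  have p10 : N ^ 9 * 7 ≤ N ^ 9 * N := Nat.mul_le_mul_left _ hN
  rw [show N ^ 10 = N ^ 9 * N by ring]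
  omega

end Pool.Agent.MP_6b3410_lc.U5
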