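import Mathlib
import Pool.Agent.MP_6b3410_lc.U5.Spec

/-!
Row GAUSS: circuits for linear systems over the field with two elements.
-/

set_option autoImplicit false

namespace Pool.Agent.MP_6b3410_lc.U5

open Finset

namespace GAUSS

variable {n : ℕ}

/-- the values of the new linear form on the spanning vectors -/
def tt (al : Fin n → ZMod 2) (B : Fin n → Fin n → ZMod 2) (i : Fin n) : ZMod 2 :=
  ∑ j, al j * B i j

/-- the indicator of the first index with value one -/
def sel (t : Fin n → ZMod 2) (i : Fin n) : ZMod 2 :=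
  t i * ∏ i' ∈ univ.filter (· < i), (1 + t i')

/-- the pivot vector -/
def bs (al : Fin n → ZMod 2) (B : Fin n → Fin n → ZMod 2) (j : Fin n) : ZMod 2 :=
  ∑ i, sel (tt al B) i * B i j

/-- there is a pivot -/
def an (al : Fin n → ZMod 2) (B : Fin n → Fin n → ZMod 2) : ZMod 2 := ∑ i, sel (tt al B) i

/-- the defect of the base point -/
def rr (al : Fin n → ZMod 2) (c : ZMod 2) (p : Fin n → ZMod 2) : ZMod 2 := ∑ j, al j * p j + c

/-- the state describes the set `S` -/
def Inv (S : (Fin n → ZMod 2) → Prop) (ok : ZMod 2) (p : Fin n → ZMod 2)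
    (B : Fin n → Fin n → ZMod 2) : Prop :=
  ∀ y, S y ↔ ok = 1 ∧ ∃ z : Fin n → ZMod 2, ∀ j, y j = p j + ∑ i, z i * B i j

lemma z01 (x : ZMod 2) : x = 0 ∨ x = 1 := by revert x; decide

lemma two0 : (2 : ZMod 2) = 0 := by decide

lemma sel_cases (t : Fin n → ZMod 2) :
    (∀ i, t i = 0) ∨ ∃ i0, t i0 = 1 ∧ ∀ i, sel t i = if i = i0 then 1 else 0 := by
  by_cases h : ∃ i, t i = 1
  · right
    have hne : (univ.filter fun i => t i = 1).Nonempty := by
      obtain ⟨i, hi⟩ := h
      exact ⟨i, by simp [hi]⟩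
    have hm := (univ.filter fun i => t i = 1).min'_mem hne
    set i0 := (univ.filter fun i => t i = 1).min' hne with hi0
    have h1 : t i0 = 1 := by simpa using hm
    have hlt : ∀ i, i < i0 → t i = 0 := fun i hi => by
      rcases z01 (t i) with h2 | h2
      · exact h2
      · exact absurd (Finset.min'_le _ i (by simp [h2])) (not_le.2 hi)
    refine ⟨i0, h1, fun i => ?_⟩
    unfold sel
    rcases lt_trichotomy i i0 with h2 | h2 | h2
    · rw [hlt i h2, zero_mul, if_neg h2.ne]
    · rw [h2, if_pos rfl, h1, one_mul]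
      refine prod_eq_one fun j hj => ?_
      rw [hlt j (by simpa using hj), add_zero]
    · rw [if_neg h2.ne', prod_eq_zero (i := i0) (by simpa using h2) (by rw [h1]; decide),
        mul_zero]
  · left
    intro i
    rcases z01 (t i) with h2 | h2
    · exact h2
    · exact absurd ⟨i, h2⟩ h

lemma form_eq (al p y z : Fin n → ZMod 2) (B : Fin n → Fin n → ZMod 2)
    (h : ∀ j, y j = p j + ∑ i, z i * B i j) :
    ∑ j, al j * y j = ∑ j, al j * p j + ∑ i, z i * tt al B i := by
  simp only [h, tt, mul_add, sum_add_distrib, mul_sum]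
  rw [sum_comm]
  congr 1
  exact sum_congr rfl fun i _ => sum_congr rfl fun j _ => by ring

lemma step {S : (Fin n → ZMod 2) → Prop} {ok : ZMod 2} {p : Fin n → ZMod 2}
    {B : Fin n → Fin n → ZMod 2} (h : Inv S ok p B) (al : Fin n → ZMod 2) (c : ZMod 2) :
    Inv (fun y => (∑ j, al j * y j = c) ∧ S y)
      (ok * (an al B + (1 + an al B) * (1 + rr al c p)))
      (fun j => p j + rr al c p * bs al B j) (fun i j => B i j + tt al B i * bs al B j) := by
  intro y
  beta_reduce
  rw [h y]
  rcases sel_cases (tt al B) with h0 | ⟨i0, h1, h2⟩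
  · have hs : ∀ i, sel (tt al B) i = 0 := fun i => by rw [sel, h0 i, zero_mul]
    have hb : ∀ j, bs al B j = 0 := fun j => by simp [bs, hs]
    have ha : an al B = 0 := by simp [an, hs]
    simp only [hb, ha, mul_zero, add_zero, zero_add, one_mul]
    constructor
    · rintro ⟨e, hok, z, hz⟩
      refine ⟨?_, z, hz⟩
      rw [form_eq al p y z B hz] at e
      simp only [h0, mul_zero, sum_const_zero, add_zero] at e
      rw [hok, rr, e]
      linear_combination c * two0
    · rintro ⟨e, z, hz⟩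
      have e1 : ok = 1 ∧ rr al c p = 0 :=
        (by decide : ∀ x r : ZMod 2, x * (1 + r) = 1 → x = 1 ∧ r = 0) _ _ e
      refine ⟨?_, e1.1, z, hz⟩
      rw [form_eq al p y z B hz]
      simp only [h0, mul_zero, sum_const_zero, add_zero]
      have := e1.2
      rw [rr] at this
      linear_combination this - c * two0
  · have hb : ∀ j, bs al B j = B i0 j := fun j => by simp [bs, h2]
    have ha : an al B = 1 := by simp [an, h2]
    have hok : ok * (an al B + (1 + an al B) * (1 + rr al c p)) = ok := by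
      rw [ha]
      linear_combination ok * (1 + rr al c p) * two0
    have hsum : ∀ (z : Fin n → ZMod 2) j, ∑ i, z i * (B i j + tt al B i * B i0 j) =
        ∑ i, z i * B i j + (∑ i, z i * tt al B i) * B i0 j := fun z j => by
      simp only [mul_add, sum_add_distrib, sum_mul, mul_assoc]
    simp only [hb, hok, hsum]
    constructor
    · rintro ⟨e, hok, z, hz⟩
      refine ⟨hok, z, fun j => ?_⟩
      rw [form_eq al p y z B hz] at e
      rw [hz j, rr]
      linear_combination (- B i0 j) * e - c * B i0 j * two0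
    · rintro ⟨e, z, hz⟩
      have hz' : ∀ j, y j = p j + ∑ i, (z i + if i = i0 then
          rr al c p + ∑ i, z i * tt al B i else 0) * B i j := fun j => by
        rw [hz j]
        simp only [add_mul, sum_add_distrib, ite_mul, zero_mul, sum_ite_eq', mem_univ, if_true]
        ring
      refine ⟨?_, e, _, hz'⟩
      rw [form_eq al p y _ B hz']
      simp only [add_mul, sum_add_distrib, ite_mul, zero_mul, sum_ite_eq', mem_univ, if_true, h1,
        mul_one, rr]
      linear_combination (∑ j, al j * p j + ∑ i, z i * tt al B i) * two0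

lemma start : Inv (fun _ : Fin n → ZMod 2 => True) 1 (fun _ => 0)
    (fun i j => if i = j then 1 else 0) := by
  intro y
  simp only [true_and, true_iff]
  exact ⟨y, fun j => by simp⟩

lemma count {S : (Fin n → ZMod 2) → Prop} [DecidablePred S] {ok : ZMod 2} {p : Fin n → ZMod 2}
    {B : Fin n → Fin n → ZMod 2} (h : Inv S ok p B) :
    (((univ.filter S).card : ℕ) : ZMod 2) = ok * ∏ i, ∏ j, (1 + B i j) := by
  rcases z01 ok with h0 | h0
  · have : univ.filter S = ∅ := filter_eq_empty_iff.2 fun y _ hy => by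
      have := ((h y).1 hy).1
      rw [h0] at this
      exact absurd this (by decide)
    rw [this, h0]
    simp
  by_cases hB : ∀ i j, B i j = 0
  · have : univ.filter S = {p} := by
      ext y
      simp only [mem_filter, mem_univ, true_and, mem_singleton, h y, h0, hB, mul_zero,
        sum_const_zero, add_zero, exists_const]
      exact funext_iff.symm
    rw [this, h0]
    simp [hB]
  · push Not at hB
    obtain ⟨i0, j0, hij⟩ := hB
    have h1 : B i0 j0 = 1 := (z01 _).resolve_left hij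
    rw [prod_eq_zero (mem_univ i0) (prod_eq_zero (mem_univ j0) (by rw [h1]; decide)), mul_zero,
      card_eq_sum_ones, Nat.cast_sum]
    refine sum_involution (fun y _ => y + B i0) (fun _ _ => by decide) (fun y _ _ e => ?_)
      (fun y hy => ?_) (fun y _ => ?_)
    · have := congrFun e j0
      rw [Pi.add_apply, h1] at this
      exact absurd (add_eq_left.1 this) (by decide)
    · obtain ⟨-, z, hz⟩ := (h y).1 (mem_filter.1 hy).2
      refine mem_filter.2 ⟨mem_univ _, (h _).2 ⟨h0, fun i => z i + if i = i0 then 1 else 0,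
        fun j => ?_⟩⟩
      rw [Pi.add_apply, hz j]
      simp only [add_mul, sum_add_distrib, ite_mul, zero_mul, sum_ite_eq', mem_univ, if_true]
      ring
    · funext j
      simp only [Pi.add_apply]
      linear_combination B i0 j * two0

variable {Ω : Type}

/-- the bits of a state -/
def SB (ok : Ω → ZMod 2) (p : Ω → Fin n → ZMod 2) (B : Ω → Fin n → Fin n → ZMod 2) :
    Set (Ω → Bool) :=
  (Bits ok ∪ ⋃ j, Bits fun ω => p ω j) ∪ ⋃ q : Fin n × Fin n, Bits fun ω => B ω q.1 q.2

variable {I P : Set (Ω → Bool)} {N : ℕ}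

lemma gen_SB {ok : Ω → ZMod 2} {p : Ω → Fin n → ZMod 2} {B : Ω → Fin n → Fin n → ZMod 2}
    {s : ℕ} (h1 : TF I P s ok) (h2 : ∀ j, TF I P s fun ω => p ω j)
    (h3 : ∀ i j, TF I P s fun ω => B ω i j) : Gen I ((1 + n + n * n) * s) P (SB ok p B) := by
  have := (Gen.union h1 (Gen.iUnion _ h2)).union
    (Gen.iUnion (fun q : Fin n × Fin n => Bits fun ω => B ω q.1 q.2) fun q => h3 q.1 q.2)
  refine this.le (le_of_eq ?_)
  simp only [Fintype.card_prod, Fintype.card_fin]
  ring

lemma ok_SB (ok : Ω → ZMod 2) (p : Ω → Fin n → ZMod 2) (B : Ω → Fin n → Fin n → ZMod 2) :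
    Bits ok ⊆ P ∪ SB ok p B :=
  (Set.subset_union_left.trans Set.subset_union_left).trans Set.subset_union_right

lemma p_SB (ok : Ω → ZMod 2) (p : Ω → Fin n → ZMod 2) (B : Ω → Fin n → Fin n → ZMod 2)
    (j : Fin n) : (Bits fun ω => p ω j) ⊆ P ∪ SB ok p B :=
  (((Set.subset_iUnion (fun j => Bits fun ω => p ω j) j).trans Set.subset_union_right).trans
    Set.subset_union_left).trans Set.subset_union_right

lemma B_SB (ok : Ω → ZMod 2) (p : Ω → Fin n → ZMod 2) (B : Ω → Fin n → Fin n → ZMod 2)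
    (i j : Fin n) : (Bits fun ω => B ω i j) ⊆ P ∪ SB ok p B :=
  ((Set.subset_iUnion (fun q : Fin n × Fin n => Bits fun ω => B ω q.1 q.2) (i, j)).trans
    Set.subset_union_right).trans Set.subset_union_right

lemma pmul (hN : 7 ≤ N) {d : ℕ} (hd : 2 ≤ d) {φ ψ : Ω → ZMod 2} (h1 : PF I P N d φ)
    (h2 : PF I P N d ψ) : PF I P N (d + 1) fun ω => φ ω * ψ ω :=
  PF.op2 (· * ·) hN hd (card_zmod2_le hN) (card_zmod2_le hN) h1 h2

lemma padd (hN : 7 ≤ N) {d : ℕ} (hd : 2 ≤ d) {φ ψ : Ω → ZMod 2} (h1 : PF I P N d φ)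
    (h2 : PF I P N d ψ) : PF I P N (d + 1) fun ω => φ ω + ψ ω :=
  PF.op2 (· + ·) hN hd (card_zmod2_le hN) (card_zmod2_le hN) h1 h2

lemma psum (hN : 7 ≤ N) (hn : n ≤ N) {d : ℕ} (hd : 2 ≤ d) {φ : Fin n → Ω → ZMod 2}
    (h : ∀ i, PF I P N d (φ i)) : PF I P N (d + 2) fun ω => ∑ i, φ i ω :=
  PF.sum univ φ hN hd (card_zmod2_le hN) (by simpa using hn) fun i _ => h i

lemma pprod (hN : 7 ≤ N) (hn : n ≤ N) {d : ℕ} (hd : 2 ≤ d) (T : Finset (Fin n))
    {φ : Fin n → Ω → ZMod 2} (h : ∀ i, PF I P N d (φ i)) :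
    PF I P N (d + 2) fun ω => ∏ i ∈ T, φ i ω :=
  PF.prod T φ hN hd (card_zmod2_le hN) ((card_le_univ T).trans (by simpa using hn)) fun i _ => h i

lemma gen_step (hN : 7 ≤ N) (hn : n ≤ N) {ok : Ω → ZMod 2} {p : Ω → Fin n → ZMod 2}
    {B : Ω → Fin n → Fin n → ZMod 2} {al : Ω → Fin n → ZMod 2} {c : Ω → ZMod 2}
    (hok : Bits ok ⊆ P) (hp : ∀ j, (Bits fun ω => p ω j) ⊆ P)
    (hB : ∀ i j, (Bits fun ω => B ω i j) ⊆ P) (hal : ∀ j, (Bits fun ω => al ω j) ⊆ P)
    (hc : Bits c ⊆ P) :
    Gen I (N ^ 18) P (SB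
      (fun ω => ok ω * (an (al ω) (B ω) + (1 + an (al ω) (B ω)) * (1 + rr (al ω) (c ω) (p ω))))
      (fun ω j => p ω j + rr (al ω) (c ω) (p ω) * bs (al ω) (B ω) j)
      (fun ω i j => B ω i j + tt (al ω) (B ω) i * bs (al ω) (B ω) j)) := by
  have ht : ∀ i, PF I P N 5 fun ω => tt (al ω) (B ω) i := fun i =>
    psum hN hn (d := 3) (by omega) fun j =>
      pmul hN le_rfl (PF.of_subset (hal j) 2) (PF.of_subset (hB i j) 2)
  have hs : ∀ i, PF I P N 9 fun ω => sel (tt (al ω) (B ω)) i := fun i =>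
    pmul hN (d := 8) (by omega) ((ht i).le hN (by omega))
      (pprod hN hn (d := 6) (by omega) _ fun j =>
        padd hN (d := 5) (by omega) (PF.const 1 5) (ht j))
  have hb : ∀ j, PF I P N 12 fun ω => bs (al ω) (B ω) j := fun j =>
    psum hN hn (d := 10) (by omega) fun i =>
      pmul hN (d := 9) (by omega) (hs i) (PF.of_subset (hB i j) 9)
  have ha : PF I P N 11 fun ω => an (al ω) (B ω) := psum hN hn (d := 9) (by omega) hs
  have hr : PF I P N 6 fun ω => rr (al ω) (c ω) (p ω) :=
    padd hN (d := 5) (by omega) (psum hN hn (d := 3) (by omega) fun j =>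
      pmul hN le_rfl (PF.of_subset (hal j) 2) (PF.of_subset (hp j) 2)) (PF.of_subset hc 5)
  refine (gen_SB (s := N ^ 15) ?_ (fun j => ?_) fun i j => ?_).le ?_
  · exact pmul hN (d := 14) (by omega) (PF.of_subset hok 14)
      (padd hN (d := 13) (by omega) (ha.le hN (by omega))
        (pmul hN (d := 12) (by omega) (padd hN (d := 11) (by omega) (PF.const 1 11) ha)
          (padd hN (d := 11) (by omega) (PF.const 1 11) (hr.le hN (by omega)))))
  · exact PF.le (padd hN (d := 13) (by omega) (PF.of_subset (hp j) 13)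
      (pmul hN (d := 12) (by omega) (hr.le hN (by omega)) (hb j))) hN (by omega)
  · exact PF.le (padd hN (d := 13) (by omega) (PF.of_subset (hB i j) 13)
      (pmul hN (d := 12) (by omega) ((ht i).le hN (by omega)) (hb j))) hN (by omega)
  · rw [show N ^ 18 = (N * N * N) * N ^ 15 by ring]
    refine Nat.mul_le_mul_right _ ?_
    have h1 : n * n ≤ N * N := Nat.mul_le_mul hn hn
    have h2 : N * N * 7 ≤ N * N * N := Nat.mul_le_mul_left _ hN
    have h3 : N * 7 ≤ N * N := Nat.mul_le_mul_left _ hN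
    omega

lemma elim (hN : 7 ≤ N) (hn : n ≤ N) {κ : Type} (α : κ → Fin n → Ω → ZMod 2)
    (c : κ → Ω → ZMod 2) (hα : ∀ k i, Bits (α k i) ⊆ P) (hc : ∀ k, Bits (c k) ⊆ P)
    (T : Finset κ) :
    ∃ (ok : Ω → ZMod 2) (p : Ω → Fin n → ZMod 2) (B : Ω → Fin n → Fin n → ZMod 2),
      Gen I (T.card * N ^ 18) P (SB ok p B) ∧
      ∀ ω, Inv (fun y => ∀ k ∈ T, ∑ i, α k i ω * y i = c k ω) (ok ω) (p ω) (B ω) := by
  classical
  induction T using Finset.induction_on with
  | empty =>
    refine ⟨fun _ => 1, fun _ _ => 0, fun _ i j => if i = j then 1 else 0, ?_, fun ω => ?_⟩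
    · exact (gen_SB (s := 0) (TF.const 1 0) (fun _ => TF.const 0 0)
        fun i j => TF.const (if i = j then 1 else 0) 0).le (by simp)
    · simpa using start
  | insert k T hk ih =>
    obtain ⟨ok, p, B, h1, h2⟩ := ih
    refine ⟨_, _, _, (h1.trans (gen_step hN hn (al := fun ω i => α k i ω) (c := c k)
      (ok_SB ok p B) (p_SB ok p B) (B_SB ok p B)
      (fun j => (hα k j).trans Set.subset_union_left)
      ((hc k).trans Set.subset_union_left))).le ?_, fun ω => ?_⟩
    · rw [card_insert_of_notMem hk, add_mul, one_mul]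
    · simpa only [forall_mem_insert] using step (h2 ω) (fun i => α k i ω) (c k ω)

end GAUSS

open GAUSS in
theorem gauss : GaussStmt := by
  refine ⟨20, ?_⟩
  intro Ω I P N n κ _ α c hN hn hκ hα hc
  obtain ⟨ok, p, B, h1, h2⟩ := elim (I := I) hN hn α c hα hc univ
  have hle : (univ : Finset κ).card * N ^ 18 + N ^ 8 ≤ N ^ 20 := by
    have e1 : (univ : Finset κ).card * N ^ 18 ≤ N * N ^ 18 :=
      Nat.mul_le_mul_right _ (by rw [card_univ]; omega)
    have e2 : N ^ 8 ≤ N ^ 19 := Nat.pow_le_pow_right (by omega) (by omega)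
    have e3 : N ^ 19 * 7 ≤ N ^ 19 * N := Nat.mul_le_mul_left _ hN
    rw [show N ^ 20 = N ^ 19 * N by ring]
    rw [show N * N ^ 18 = N ^ 19 by ring] at e1
    omega
  have h3 : ∀ ω, Inv (fun y => ∀ k, ∑ i, α k i ω * y i = c k ω) (ok ω) (p ω) (B ω) := fun ω => by
    simpa only [mem_univ, forall_const] using h2 ω
  refine ⟨fun o ho => ?_, ?_⟩
  · have k1 : PF I (P ∪ SB ok p B) N 8 fun ω => decide (ok ω = 1) :=
      PF.op1 (fun x : ZMod 2 => decide (x = 1)) hN (d := 7) (by omega) (card_zmod2_le hN)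
        (PF.of_subset (ok_SB ok p B) 7)
    refine ((TF.after h1 k1).le hle).congr fun ω => ?_
    rw [Bool.eq_iff_iff, ho, decide_eq_true_iff]
    constructor
    · intro h
      exact ⟨p ω, (h3 ω _).2 ⟨h, 0, fun j => by simp⟩⟩
    · rintro ⟨y, hy⟩
      exact ((h3 ω y).1 hy).1
  · have k1 : PF I (P ∪ SB ok p B) N 8 fun ω => ok ω * ∏ i, ∏ j, (1 + B ω i j) :=
      pmul hN (d := 7) (by omega) (PF.of_subset (ok_SB ok p B) 7)
        (pprod hN hn (d := 5) (by omega) _ fun i => pprod hN hn (d := 3) (by omega) _ fun j =>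
          padd hN le_rfl (PF.const 1 2) (PF.of_subset (B_SB ok p B i j) 2))
    exact ((TF.after h1 k1).le hle).congr fun ω => (count (h3 ω)).symm

end Pool.Agent.MP_6b3410_lc.U5
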