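import Mathlib
import Pool.Agent.MP_6b3410_lc.U5.Spec

/-!
Random deletion leaves an odd number of members of a family of small Littlestone dimension.
-/

set_option autoImplicit false

namespace Pool.Agent.MP_6b3410_lc.U5

open Finset

namespace ISO

variable {ι ε : Type} [DecidableEq ε]

lemma sh_nonempty (E : ι → Finset ε) : ∀ (L : ℕ) (T : Finset ι), Sh E L T → T.Nonempty
  | 0, _, h => h
  | L + 1, _, ⟨_, h, _⟩ => (sh_nonempty E L _ h).mono (filter_subset _ _)

lemma sh_erase (E : ι → Finset ε) (e : ε) :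
    ∀ (L : ℕ) (T : Finset ι), Sh (fun i => (E i).erase e) L T → Sh E L T
  | 0, _, h => h
  | L + 1, T, ⟨e', h1, h2⟩ => by
    have hne : e' ≠ e := by
      obtain ⟨i, hi⟩ := sh_nonempty _ L _ h1
      exact (mem_erase.1 (mem_filter.1 hi).2).1
    refine ⟨e', ?_, ?_⟩
    · have := sh_erase E e L _ h1
      convert this using 2
      simp [hne]
    · have := sh_erase E e L _ h2
      convert this using 2
      simp [hne]

variable [Fintype ε]

/-- the product weight -/
noncomputable def wt (ρ : ℝ) (z : ε → Bool) : ℝ := ∏ e, (if z e = true then 1 - ρ else ρ)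

omit [DecidableEq ε] in
lemma wt_nonneg {ρ : ℝ} (h0 : 0 ≤ ρ) (h1 : ρ ≤ 1 / 2) (z : ε → Bool) : 0 ≤ wt ρ z :=
  prod_nonneg fun e _ => by split_ifs <;> linarith

lemma wt_update (ρ : ℝ) (z : ε → Bool) (e : ε) (b : Bool) :
    wt ρ (Function.update z e b) = (if b = true then 1 - ρ else ρ) *
      ∏ e' ∈ univ.erase e, (if z e' = true then 1 - ρ else ρ) := by
  unfold wt
  rw [← mul_prod_erase univ _ (mem_univ e), Function.update_self]
  congr 1
  exact prod_congr rfl fun e' he' => by rw [Function.update_of_ne (mem_erase.1 he').1]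

/-- flipping one coordinate -/
def flip (e : ε) : (ε → Bool) ≃ (ε → Bool) where
  toFun z := Function.update z e (!z e)
  invFun z := Function.update z e (!z e)
  left_inv z := by simp
  right_inv z := by simp

lemma resample (ρ : ℝ) (e : ε) (f : (ε → Bool) → ℝ) :
    ∑ z, wt ρ z * f z = ∑ z, wt ρ z *
      ((1 - ρ) * f (Function.update z e true) + ρ * f (Function.update z e false)) := by
  have key : ∀ h : (ε → Bool) → ℝ, 2 * ∑ z, h z = ∑ z, (h z + h (flip e z)) := by
    intro h
    rw [sum_add_distrib, Equiv.sum_comp (flip e) h]; ring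
  have : 2 * ∑ z, wt ρ z * f z = 2 * ∑ z, wt ρ z *
      ((1 - ρ) * f (Function.update z e true) + ρ * f (Function.update z e false)) := by
    rw [key, key]
    refine sum_congr rfl fun z _ => ?_
    have hz : wt ρ z = (if z e = true then 1 - ρ else ρ) *
        ∏ e' ∈ univ.erase e, (if z e' = true then 1 - ρ else ρ) := by
      rw [← wt_update, Function.update_eq_self]
    have hf : f z = f (Function.update z e (z e)) := by rw [Function.update_eq_self]
    simp only [flip, Equiv.coe_fn_mk, Function.update_idem, wt_update]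
    rw [hz, hf]
    cases z e <;> simp <;> ring
  linarith

/-- the number of surviving members -/
def cnt (E : ι → Finset ε) (T : Finset ι) (z : ε → Bool) : ℕ :=
  (T.filter fun i => ∀ e ∈ E i, z e = true).card

/-- the indicator of an odd number of survivors -/
noncomputable def ind (E : ι → Finset ε) (T : Finset ι) (z : ε → Bool) : ℝ :=
  if Odd (cnt E T z) then 1 else 0

lemma ind_nonneg (E : ι → Finset ε) (T : Finset ι) (z : ε → Bool) : 0 ≤ ind E T z := by
  unfold ind; split_ifs <;> norm_num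

lemma cnt_false (E : ι → Finset ε) (T : Finset ι) (z : ε → Bool) (e : ε) :
    cnt E T (Function.update z e false) = cnt E (T.filter fun i => e ∉ E i) z := by
  unfold cnt
  rw [filter_filter]
  congr 1
  refine filter_congr fun i _ => ⟨fun h => ?_, fun h e' he' => ?_⟩
  · have he : e ∉ E i := fun he => by simpa using h e he
    refine ⟨he, fun e' he' => ?_⟩
    have hne : e' ≠ e := fun h' => he (h' ▸ he')
    simpa [Function.update_of_ne hne] using h e' he'
  · have hne : e' ≠ e := fun h' => h.1 (h' ▸ he')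
    simpa [Function.update_of_ne hne] using h.2 e' he'

lemma cnt_true (E : ι → Finset ε) (T : Finset ι) (z : ε → Bool) (e : ε) :
    cnt E T (Function.update z e true) =
      cnt (fun i => (E i).erase e) (T.filter fun i => e ∈ E i) z +
        cnt E (T.filter fun i => e ∉ E i) z := by
  unfold cnt
  rw [← card_filter_add_card_filter_not (s := T.filter fun i =>
    ∀ e' ∈ E i, Function.update z e true e' = true) (fun i => e ∈ E i)]
  simp only [filter_filter]
  congr 2
  · refine filter_congr fun i _ => ⟨fun h => ⟨h.2, fun e' he' => ?_⟩, fun h => ⟨fun e' he' => ?_, h.1⟩⟩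
    · simpa [Function.update_of_ne (mem_erase.1 he').1] using h.1 e' (mem_erase.1 he').2
    · by_cases hne : e' = e
      · subst hne; simp
      · simpa [Function.update_of_ne hne] using h.2 e' (mem_erase.2 ⟨hne, he'⟩)
  · refine filter_congr fun i _ => ⟨fun h => ⟨h.2, fun e' he' => ?_⟩, fun h => ⟨fun e' he' => ?_, h.1⟩⟩
    · have hne : e' ≠ e := fun h' => h.2 (h' ▸ he')
      simpa [Function.update_of_ne hne] using h.1 e' he'
    · have hne : e' ≠ e := fun h' => h.1 (h' ▸ he')
      simpa [Function.update_of_ne hne] using h.2 e' he'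

lemma step_out {ρ : ℝ} (h0 : 0 ≤ ρ) (h1 : ρ ≤ 1 / 2) (E : ι → Finset ε) (T : Finset ι) (e : ε) :
    ρ * ∑ z, wt ρ z * ind E (T.filter fun i => e ∉ E i) z ≤ ∑ z, wt ρ z * ind E T z := by
  rw [resample ρ e (ind E T), mul_sum]
  refine sum_le_sum fun z _ => ?_
  have hw := wt_nonneg h0 h1 z
  have h2 : ind E T (Function.update z e false) = ind E (T.filter fun i => e ∉ E i) z := by
    unfold ind; rw [cnt_false]
  have h3 := ind_nonneg E T (Function.update z e true)
  have h4 : 0 ≤ wt ρ z * ((1 - ρ) * ind E T (Function.update z e true)) :=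
    mul_nonneg hw (mul_nonneg (by linarith) h3)
  rw [h2]; nlinarith

lemma step_in {ρ : ℝ} (h0 : 0 ≤ ρ) (h1 : ρ ≤ 1 / 2) (E : ι → Finset ε) (T : Finset ι) (e : ε) :
    ρ * ∑ z, wt ρ z * ind (fun i => (E i).erase e) (T.filter fun i => e ∈ E i) z ≤
      ∑ z, wt ρ z * ind E T z := by
  rw [resample ρ e (ind E T), mul_sum]
  refine sum_le_sum fun z _ => ?_
  have hw := wt_nonneg h0 h1 z
  have h2 : ρ * ind (fun i => (E i).erase e) (T.filter fun i => e ∈ E i) z ≤
      (1 - ρ) * ind E T (Function.update z e true) + ρ * ind E T (Function.update z e false) := by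
    unfold ind
    rw [cnt_true, cnt_false]
    by_cases ha : Odd (cnt (fun i => (E i).erase e) (T.filter fun i => e ∈ E i) z)
    · by_cases hb : Odd (cnt E (T.filter fun i => e ∉ E i) z)
      · rw [if_pos ha, if_pos hb]
        split_ifs <;> linarith
      · rw [if_pos ha, if_neg hb, if_pos (ha.add_even (Nat.not_odd_iff_even.1 hb))]
        linarith
    · rw [if_neg ha]
      split_ifs <;> linarith
  calc _ = wt ρ z * (ρ * ind (fun i => (E i).erase e) (T.filter fun i => e ∈ E i) z) := by ring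
    _ ≤ _ := mul_le_mul_of_nonneg_left h2 hw

lemma single (ρ : ℝ) (E : ι → Finset ε) (i : ι) :
    ∑ z, wt ρ z * ind E {i} z = (1 - ρ) ^ (E i).card := by
  have h1 : ∀ z : ε → Bool, wt ρ z * ind E {i} z =
      ∏ e, (if z e = true then 1 - ρ else if e ∈ E i then 0 else ρ) := by
    intro z
    unfold ind cnt wt
    rw [filter_singleton]
    by_cases h : ∀ e ∈ E i, z e = true
    · rw [if_pos h, if_pos (by simp), mul_one]
      refine prod_congr rfl fun e _ => ?_
      by_cases hz : z e = true
      · simp [hz]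
      · rw [if_neg hz, if_neg hz, if_neg fun he => hz (h e he)]
    · rw [if_neg h, if_neg (by simp), mul_zero]
      push Not at h
      obtain ⟨e, he, hz⟩ := h
      exact (prod_eq_zero (mem_univ e) (by rw [if_neg hz, if_pos he])).symm
  simp only [h1]
  have h2 := prod_univ_sum (fun _ : ε => (univ : Finset Bool))
    (fun e b => if b = true then 1 - ρ else if e ∈ E i then (0 : ℝ) else ρ)
  rw [Fintype.piFinset_univ] at h2
  rw [← h2]
  have h3 : ∀ e : ε, (∑ b : Bool, if b = true then 1 - ρ else if e ∈ E i then (0 : ℝ) else ρ) =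
      if e ∈ E i then 1 - ρ else 1 := by
    intro e
    rw [Fintype.sum_bool]
    by_cases he : e ∈ E i <;> simp [he]
  simp only [h3]
  rw [prod_ite_mem, univ_inter, prod_const]

lemma nosplit {ρ : ℝ} (h0 : 0 ≤ ρ) (h1 : ρ ≤ 1 / 2) (E : ι → Finset ε) (T : Finset ι) (L M : ℕ)
    (hT : T.Nonempty) (hinj : Set.InjOn E T) (hM : ∀ i ∈ T, (E i).card ≤ M)
    (h : ¬ ∃ e, (T.filter fun i => e ∈ E i).Nonempty ∧ (T.filter fun i => e ∉ E i).Nonempty) :
    ρ ^ L * (1 - ρ) ^ M ≤ ∑ z, wt ρ z * ind E T z := by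
  obtain ⟨i, hi⟩ := hT
  have hT : T = {i} := by
    refine eq_singleton_iff_unique_mem.2 ⟨hi, fun j hj => hinj hj hi ?_⟩
    ext e
    by_contra hne
    apply h
    by_cases he : e ∈ E i
    · exact ⟨e, ⟨i, mem_filter.2 ⟨hi, he⟩⟩, ⟨j, mem_filter.2 ⟨hj, fun h' => hne (by simp [he, h'])⟩⟩⟩
    · exact ⟨e, ⟨j, mem_filter.2 ⟨hj, by by_contra h'; exact hne (by simp [he, h'])⟩⟩,
        ⟨i, mem_filter.2 ⟨hi, he⟩⟩⟩
  rw [hT, single]
  have ha : ρ ^ L ≤ 1 := pow_le_one₀ h0 (by linarith)
  have hb : (1 - ρ) ^ M ≤ (1 - ρ) ^ (E i).card :=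
    pow_le_pow_of_le_one (by linarith) (by linarith) (hM i hi)
  have hc : 0 ≤ (1 - ρ) ^ M := pow_nonneg (by linarith) _
  nlinarith

lemma main {ρ : ℝ} (h0 : 0 ≤ ρ) (h1 : ρ ≤ 1 / 2) (M : ℕ) :
    ∀ (L : ℕ) (E : ι → Finset ε) (T : Finset ι), T.Nonempty → ¬ Sh E (L + 1) T →
      Set.InjOn E T → (∀ i ∈ T, (E i).card ≤ M) →
      ρ ^ L * (1 - ρ) ^ M ≤ ∑ z, wt ρ z * ind E T z := by
  intro L
  induction L with
  | zero =>
    intro E T hT hS hinj hM
    exact nosplit h0 h1 E T 0 M hT hinj hM hS
  | succ L ih =>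
    intro E T hT hS hinj hM
    by_cases h : ∃ e, (T.filter fun i => e ∈ E i).Nonempty ∧ (T.filter fun i => e ∉ E i).Nonempty
    · obtain ⟨e, ha, hb⟩ := h
      rw [pow_succ, mul_comm _ ρ, mul_assoc]
      by_cases hs : Sh E (L + 1) (T.filter fun i => e ∈ E i)
      · have hs' : ¬ Sh E (L + 1) (T.filter fun i => e ∉ E i) := fun h' => hS ⟨e, hs, h'⟩
        refine le_trans (mul_le_mul_of_nonneg_left (ih E _ hb hs'
          (hinj.mono (coe_subset.2 (filter_subset _ _)))
          fun i hi => hM i (mem_filter.1 hi).1) h0) (step_out h0 h1 E T e)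
      · refine le_trans (mul_le_mul_of_nonneg_left (ih (fun i => (E i).erase e) _ ha
          (fun h' => hs (sh_erase E e _ _ h')) ?_
          fun i hi => card_erase_le.trans (hM i (mem_filter.1 hi).1)) h0) (step_in h0 h1 E T e)
        intro i hi j hj hij
        have hi' := mem_filter.1 (mem_coe.1 hi)
        have hj' := mem_filter.1 (mem_coe.1 hj)
        refine hinj hi'.1 hj'.1 ?_
        rw [← insert_erase hi'.2, ← insert_erase hj'.2]
        exact congrArg (insert e) hij
    · exact nosplit h0 h1 E T (L + 1) M hT hinj hM h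

end ISO

theorem iso : IsoStmt := by
  intro ι ε _ _ E T L M ρ h0 h1 hT hS hinj hM
  refine (ISO.main h0 h1 M L E T hT hS hinj hM).trans (le_of_eq ?_)
  refine sum_congr rfl fun z _ => ?_
  unfold ISO.ind ISO.cnt ISO.wt
  split_ifs <;> simp

end Pool.Agent.MP_6b3410_lc.U5
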