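import Mathlib
import Pool.Agent.MP_6b3410_lc.U5.Spec

/-!
Row PAR: the parity formula for the number of Hamilton cycles and the random diagonal bound.
-/

set_option autoImplicit false

namespace Pool.Agent.MP_6b3410_lc.U5

open Finset
open Pool.Agent.MP_6b3410_lc.H5 (Cyc)

namespace Par

lemma zmod2_cases (t : ZMod 2) : t = 0 ∨ t = 1 := by
  revert t
  decide

lemma sum_zmod2 {M : Type} [AddCommMonoid M] (f : ZMod 2 → M) : ∑ t, f t = f 0 + f 1 := by
  have : (univ : Finset (ZMod 2)) = {0, 1} := by decide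
  rw [this, Finset.sum_pair (by decide)]

lemma sum_prod_pi {ι α R : Type} [Fintype ι] [DecidableEq ι] [Fintype α] [CommSemiring R]
    (f : ι → α → R) : ∑ x : ι → α, ∏ i, f i (x i) = ∏ i, ∑ t, f i t := by
  rw [Finset.prod_univ_sum, Fintype.piFinset_univ]

lemma prod_boole' {ι R : Type} [Fintype ι] [CommSemiring R] (p : ι → Prop) [DecidablePred p]
    [Decidable (∀ i, p i)] :
    (if ∀ i, p i then (1 : R) else 0) = ∏ i, if p i then 1 else 0 := by
  by_cases h : ∀ i, p i
  · rw [if_pos h]
    exact (Finset.prod_eq_one fun i _ => if_pos (h i)).symm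
  · rw [if_neg h]
    push Not at h
    obtain ⟨i, hi⟩ := h
    exact (Finset.prod_eq_zero (Finset.mem_univ i) (if_neg hi)).symm

open Classical in
/-- the sum over `x` of one expanded term -/
lemma sum_x {n : ℕ} (s : Fin n → Bool) (g : Fin n → Fin n) :
    ∑ x : Fin n → ZMod 2, ∏ v, (if s v = true then x (g v) else 1 + x v) =
      if (∀ u, s u = true ↔ ∃ v, s v = true ∧ g v = u) then 1 else 0 := by
  have h1 : ∀ x : Fin n → ZMod 2, ∏ v, (if s v = true then x (g v) else 1 + x v) =
      ∏ u, (x u ^ (univ.filter fun v => s v = true ∧ g v = u).card *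
        (if s u = true then 1 else 1 + x u)) := by
    intro x
    have e1 : ∏ v, (if s v = true then x (g v) else 1 + x v) =
        (∏ v, (if s v = true then x (g v) else 1)) * ∏ v, (if s v = true then 1 else 1 + x v) := by
      rw [← Finset.prod_mul_distrib]
      refine Finset.prod_congr rfl fun v _ => ?_
      split_ifs <;> simp
    rw [e1, Finset.prod_mul_distrib]
    congr 1
    rw [← Finset.prod_filter, ← Finset.prod_fiberwise (g := g)]
    refine Finset.prod_congr rfl fun u _ => ?_
    rw [Finset.filter_filter, ← Finset.prod_const]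
    refine Finset.prod_congr rfl fun v hv => ?_
    rw [(Finset.mem_filter.1 hv).2.2]
  simp_rw [h1]
  rw [sum_prod_pi (fun u (t : ZMod 2) => t ^ (univ.filter fun v => s v = true ∧ g v = u).card *
        (if s u = true then 1 else 1 + t))]
  rw [prod_boole']
  refine Finset.prod_congr rfl fun u _ => ?_
  rw [sum_zmod2]
  by_cases hu : ∃ v, s v = true ∧ g v = u
  · have hc : (univ.filter fun v => s v = true ∧ g v = u).card ≠ 0 := by
      obtain ⟨v, hv⟩ := hu
      exact Finset.card_ne_zero.2 ⟨v, Finset.mem_filter.2 ⟨Finset.mem_univ _, hv⟩⟩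
    rw [zero_pow hc]
    by_cases hs : s u = true
    · simp [hs, hu]
    · have : (1 + 1 : ZMod 2) = 0 := by decide
      simp [hs, hu, this]
  · have hc : (univ.filter fun v => s v = true ∧ g v = u).card = 0 := by
      rw [Finset.card_eq_zero, Finset.filter_eq_empty_iff]
      exact fun v _ hv => hu ⟨v, hv⟩
    rw [hc]
    have h2 : (1 + 1 : ZMod 2) = 0 := by decide
    by_cases hs : s u = true
    · simp only [hs, hu, pow_zero, if_true, mul_one, iff_false, not_true, if_false, h2]
    · simp only [hs, hu, pow_zero, if_false, one_mul, add_zero, h2, if_true, iff_self,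
        Bool.false_eq_true]

/-- every nonempty closed set is everything -/
def Clo {n : ℕ} (g : Fin n → Fin n) : Prop :=
  ∀ S : Set (Fin n), S.Nonempty → (∀ v ∈ S, g v ∈ S) → ∀ v, v ∈ S

/-- `s` is a two-sided invariant set avoiding `a` -/
def Inv {n : ℕ} (a : Fin n) (g : Fin n → Fin n) (s : Fin n → Bool) : Prop :=
  s a = false ∧ (∀ u, s u = true ↔ ∃ v, s v = true ∧ g v = u) ∧
    (∀ u, (!s u) = true ↔ ∃ v, (!s v) = true ∧ g v = u)

lemma inv_iff {n : ℕ} (a : Fin n) (g : Fin n → Fin n) (hg : Function.Injective g)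
    (s : Fin n → Bool) : Inv a g s ↔ s a = false ∧ ∀ v, s (g v) = s v := by
  have hsurj : Function.Surjective g := Finite.injective_iff_surjective.1 hg
  constructor
  · rintro ⟨h0, h1, h2⟩
    refine ⟨h0, fun v => ?_⟩
    cases hv : s v
    · have := (h2 (g v)).2 ⟨v, by simp [hv], rfl⟩
      simpa using this
    · exact (h1 (g v)).2 ⟨v, hv, rfl⟩
  · rintro ⟨h0, h1⟩
    refine ⟨h0, fun u => ?_, fun u => ?_⟩
    · obtain ⟨w, rfl⟩ := hsurj u
      constructor
      · intro h
        exact ⟨w, by rw [← h1 w]; exact h, rfl⟩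
      · rintro ⟨v, hv, hvw⟩
        rw [← hvw, h1 v]
        exact hv
    · obtain ⟨w, rfl⟩ := hsurj u
      constructor
      · intro h
        exact ⟨w, by rw [← h1 w]; exact h, rfl⟩
      · rintro ⟨v, hv, hvw⟩
        rw [← hvw, h1 v]
        exact hv

lemma exists_toggle {n : ℕ} (a : Fin n) (g : Fin n → Fin n) (hg : Function.Injective g)
    (hc : ¬ Clo g) : ∃ t : Fin n → Bool, t a = false ∧ (∀ v, t (g v) = t v) ∧ ∃ v, t v = true := by
  classical
  unfold Clo at hc
  push Not at hc
  obtain ⟨S, ⟨v0, hv0⟩, hS, v1, hv1⟩ := hc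
  have hinv : ∀ v, g v ∈ S ↔ v ∈ S := by
    intro v
    refine ⟨fun h => ?_, hS v⟩
    have hb : Set.BijOn g S S :=
      (Set.Finite.injOn_iff_bijOn_of_mapsTo (Set.toFinite S) hS).1 hg.injOn
    obtain ⟨w, hw, hwv⟩ := hb.surjOn h
    rw [← hg hwv]
    exact hw
  by_cases ha : a ∈ S
  · refine ⟨fun v => decide (v ∉ S), by simp [ha], fun v => ?_, v1, by simp [hv1]⟩
    simp only [hinv v]
  · refine ⟨fun v => decide (v ∈ S), by simp [ha], fun v => ?_, v0, by simp [hv0]⟩
    simp only [hinv v]

open Classical in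
/-- parity of the number of invariant sets -/
lemma sum_inv {n : ℕ} (a : Fin n) (g : Fin n → Fin n) :
    ∑ s : Fin n → Bool, (if Inv a g s then (1 : ZMod 2) else 0) =
      if Function.Injective g ∧ Clo g then 1 else 0 := by
  by_cases hg : Function.Injective g
  · by_cases hc : Clo g
    · rw [if_pos ⟨hg, hc⟩, Finset.sum_eq_single (fun _ => false)]
      · rw [if_pos ((inv_iff a g hg _).2 ⟨rfl, fun _ => rfl⟩)]
      · intro s _ hs
        rw [if_neg]
        intro hi
        obtain ⟨h0, h1⟩ := (inv_iff a g hg s).1 hi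
        apply hs
        funext v
        by_contra hv
        have hv' : s v = true := by simpa using hv
        have := hc {w | s w = true} ⟨v, hv'⟩ (fun w hw => by
          show s (g w) = true
          rw [h1 w]
          exact hw) a
        have h2 : s a = true := this
        rw [h0] at h2
        exact absurd h2 (by decide)
      · intro h
        exact absurd (Finset.mem_univ _) h
    · rw [if_neg (fun h => hc h.2)]
      obtain ⟨t, ht0, ht1, v0, hv0⟩ := exists_toggle a g hg hc
      refine Finset.sum_involution (fun s _ => fun v => xor (s v) (t v)) ?_ ?_ ?_ ?_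
      · intro s _
        have hiff : Inv a g (fun v => xor (s v) (t v)) ↔ Inv a g s := by
          rw [inv_iff a g hg, inv_iff a g hg]
          simp only [ht0, Bool.xor_false, ht1]
          refine and_congr Iff.rfl (forall_congr' fun v => ?_)
          cases s (g v) <;> cases s v <;> cases t v <;> simp
        by_cases hs : Inv a g s
        · rw [if_pos hs, if_pos (hiff.2 hs)]
          decide
        · rw [if_neg hs, if_neg (fun h => hs (hiff.1 h)), add_zero]
      · intro s _ _ h
        have := congrFun h v0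
        simp only [hv0] at this
        cases hs : s v0 <;> simp [hs] at this
      · intro s _
        exact Finset.mem_univ _
      · intro s _
        funext v
        show xor (xor (s v) (t v)) (t v) = s v
        cases s v <;> cases t v <;> rfl
  · rw [if_neg (fun h => hg h.1)]
    refine Finset.sum_eq_zero fun s _ => ?_
    rw [if_neg]
    rintro ⟨_, h1, h2⟩
    apply hg
    rw [Finite.injective_iff_surjective]
    intro u
    cases hu : s u
    · obtain ⟨v, _, hv⟩ := (h2 u).1 (by simp [hu])
      exact ⟨v, hv⟩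
    · obtain ⟨v, _, hv⟩ := (h1 u).1 hu
      exact ⟨v, hv⟩

/-- the expanded local factor -/
def w {n : ℕ} (B : Fin n → Fin n → ZMod 2) (a : Fin n) (x y : Fin n → ZMod 2) (v : Fin n)
    (b : Bool) (u : Fin n) : ZMod 2 :=
  B v u * (if b = true ∧ v = a then 0 else 1) * (if b = true then x u else 1 + x v) *
    (if (!b) = true then y u else 1 + y v)

lemma phi_eq {n : ℕ} (B : Fin n → Fin n → ZMod 2) (a : Fin n) (x y : Fin n → ZMod 2)
    (v : Fin n) : phi B a x y v = ∑ b : Bool, ∑ u, w B a x y v b u := by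
  rw [Fintype.sum_bool]
  unfold phi w
  by_cases hv : v = a
  · simp only [hv, if_true, and_self, mul_zero, zero_mul, Finset.sum_const_zero, zero_add,
      Bool.false_eq_true, false_and, if_false, Bool.not_false, mul_one, Finset.mul_sum]
    refine Finset.sum_congr rfl fun u _ => ?_
    ring
  · simp only [hv, if_false, and_false, if_true, Bool.not_true, Bool.false_eq_true,
      Bool.not_false, mul_one, Finset.mul_sum]
    congr 1
    · refine Finset.sum_congr rfl fun u _ => ?_
      ring
    · refine Finset.sum_congr rfl fun u _ => ?_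
      ring

open Classical in
lemma sum_xy {n : ℕ} (B : Fin n → Fin n → ZMod 2) (a : Fin n) (s : Fin n → Bool)
    (g : Fin n → Fin n) :
    ∑ x : Fin n → ZMod 2, ∑ y : Fin n → ZMod 2, ∏ v, w B a x y v (s v) (g v) =
      (∏ v, B v (g v)) * if Inv a g s then 1 else 0 := by
  have h1 : ∀ x y : Fin n → ZMod 2, ∏ v, w B a x y v (s v) (g v) =
      ((∏ v, B v (g v)) * ∏ v, (if s v = true ∧ v = a then (0 : ZMod 2) else 1)) *
        ((∏ v, (if s v = true then x (g v) else 1 + x v)) *
          ∏ v, (if (!s v) = true then y (g v) else 1 + y v)) := by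
    intro x y
    simp only [w, Finset.prod_mul_distrib]
    ring
  simp_rw [h1, ← Finset.mul_sum]
  rw [← Finset.sum_mul, sum_x s g, sum_x (fun v => !s v) g, mul_assoc]
  congr 1
  have h2 : ∏ v, (if s v = true ∧ v = a then (0 : ZMod 2) else 1) =
      if s a = false then 1 else 0 := by
    cases hs : s a
    · rw [if_pos rfl]
      refine Finset.prod_eq_one fun v _ => ?_
      rw [if_neg]
      rintro ⟨h, rfl⟩
      rw [hs] at h
      exact absurd h (by decide)
    · rw [if_neg (by decide)]
      exact Finset.prod_eq_zero (Finset.mem_univ a) (by rw [if_pos ⟨hs, rfl⟩])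
  rw [h2]
  by_cases c0 : s a = false
  · by_cases c1 : ∀ u, s u = true ↔ ∃ v, s v = true ∧ g v = u
    · by_cases c2 : ∀ u, (!s u) = true ↔ ∃ v, (!s v) = true ∧ g v = u
      · rw [if_pos c0, if_pos c1, if_pos c2, if_pos (show Inv a g s from ⟨c0, c1, c2⟩), mul_one,
          mul_one]
      · rw [if_neg c2, if_neg (fun h : Inv a g s => c2 h.2.2), mul_zero, mul_zero]
    · rw [if_neg c1, if_neg (fun h : Inv a g s => c1 h.2.1), zero_mul, mul_zero]
  · rw [if_neg c0, if_neg (fun h : Inv a g s => c0 h.1), zero_mul]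

open Classical in
lemma prod_B {n : ℕ} (B : Fin n → Fin n → ZMod 2) (g : Fin n → Fin n) :
    ∏ v, B v (g v) = if ∀ v, B v (g v) = 1 then 1 else 0 := by
  rw [prod_boole']
  refine Finset.prod_congr rfl fun v _ => ?_
  rcases zmod2_cases (B v (g v)) with h | h
  · rw [h, if_neg (by decide)]
  · rw [h, if_pos rfl]

/-- the value forced on the diagonal -/
def cv {n : ℕ} (B : Fin n → Fin n → ZMod 2) (x : Fin n → ZMod 2) (v : Fin n) : ZMod 2 :=
  1 - ∑ u ∈ univ.erase v, B v u * x u

lemma good_iff {n : ℕ} (k : ℕ) (B : Fin n → Fin n → ZMod 2) (r x : Fin n → ZMod 2) :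
    Good k (fun u v => if u = v then r u else B u v) x ↔
      ∀ v : Fin n, (v.val < k → x v = 1 → r v = cv B x v) := by
  unfold Good
  refine forall_congr' fun v => forall_congr' fun _ => forall_congr' fun hx => ?_
  rw [← Finset.add_sum_erase _ _ (Finset.mem_univ v)]
  have e : ∑ u ∈ univ.erase v, (if v = u then r v else B v u) * x u =
      ∑ u ∈ univ.erase v, B v u * x u := by
    refine Finset.sum_congr rfl fun u hu => ?_
    rw [if_neg (Finset.ne_of_mem_erase hu).symm]
  simp only [e, if_true, hx, mul_one, cv]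
  exact eq_sub_iff_add_eq.symm

lemma prod_lt (n k : ℕ) (hk : k ≤ n) :
    ∏ v : Fin n, (if v.val < k then 3 else 4 : ℕ) = 3 ^ k * 4 ^ (n - k) := by
  rw [Fin.prod_univ_eq_prod_range (fun v => (if v < k then 3 else 4 : ℕ)) n]
  obtain ⟨m, rfl⟩ := Nat.exists_eq_add_of_le hk
  rw [Finset.prod_range_add, Nat.add_sub_cancel_left]
  congr 1
  · rw [Finset.prod_congr rfl (g := fun _ => 3), Finset.prod_const, Finset.card_range]
    intro v hv
    rw [if_pos (Finset.mem_range.1 hv)]
  · rw [Finset.prod_congr rfl (g := fun _ => 4), Finset.prod_const, Finset.card_range]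
    intro v _
    rw [if_neg (by omega)]

lemma sum_ngood (n k : ℕ) (B : Fin n → Fin n → ZMod 2) (hk : k ≤ n) :
    ∑ r : Fin n → ZMod 2, ngood k (fun u v => if u = v then r u else B u v) =
      3 ^ k * 4 ^ (n - k) := by
  classical
  have h1 : ∀ r : Fin n → ZMod 2, ngood k (fun u v => if u = v then r u else B u v) =
      ∑ x : Fin n → ZMod 2, ∏ v : Fin n,
        (if (v.val < k → x v = 1 → r v = cv B x v) then 1 else 0 : ℕ) := by
    intro r
    unfold ngood
    rw [Finset.card_filter]
    refine Finset.sum_congr rfl fun x _ => ?_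
    rw [← prod_boole']
    simp only [good_iff]
  simp_rw [h1]
  rw [Finset.sum_comm]
  have h2 : ∀ x : Fin n → ZMod 2, ∑ r : Fin n → ZMod 2, ∏ v : Fin n,
        (if (v.val < k → x v = 1 → r v = cv B x v) then 1 else 0 : ℕ) =
      ∏ v : Fin n, (if v.val < k ∧ x v = 1 then 1 else 2 : ℕ) := by
    intro x
    rw [sum_prod_pi (fun (v : Fin n) (t : ZMod 2) =>
      (if (v.val < k → x v = 1 → t = cv B x v) then 1 else 0 : ℕ))]
    refine Finset.prod_congr rfl fun v _ => ?_
    by_cases h : v.val < k ∧ x v = 1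
    · rw [if_pos h]
      simp only [h.1, h.2, forall_true_left]
      rw [Finset.sum_ite_eq' univ (cv B x v) (fun _ => (1 : ℕ)), if_pos (Finset.mem_univ _)]
    · rw [if_neg h, sum_zmod2, if_pos (fun h1 h2 => absurd ⟨h1, h2⟩ h),
        if_pos (fun h1 h2 => absurd ⟨h1, h2⟩ h)]
  simp_rw [h2]
  rw [sum_prod_pi (fun (v : Fin n) (t : ZMod 2) => (if v.val < k ∧ t = 1 then 1 else 2 : ℕ)),
    ← prod_lt n k hk]
  refine Finset.prod_congr rfl fun v _ => ?_
  rw [sum_zmod2]
  have h01 : ¬ ((0 : ZMod 2) = 1) := by decide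
  by_cases h : v.val < k <;> simp [h, h01]

end Par

open Par in
theorem par : ParStmt := by
  classical
  intro n B a
  have h1 : ∀ x y : Fin n → ZMod 2, ∏ v, phi B a x y v =
      ∑ s : Fin n → Bool, ∑ g : Fin n → Fin n, ∏ v, w B a x y v (s v) (g v) := by
    intro x y
    simp_rw [phi_eq]
    rw [← sum_prod_pi (fun v b => ∑ u, w B a x y v b u)]
    refine Finset.sum_congr rfl fun s _ => ?_
    rw [← sum_prod_pi (fun v u => w B a x y v (s v) u)]
  simp_rw [h1]
  have h2 : ∑ x : Fin n → ZMod 2, ∑ y : Fin n → ZMod 2, ∑ s : Fin n → Bool,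
        ∑ g : Fin n → Fin n, ∏ v, w B a x y v (s v) (g v) =
      ∑ g : Fin n → Fin n, ∑ s : Fin n → Bool, ∑ x : Fin n → ZMod 2, ∑ y : Fin n → ZMod 2,
        ∏ v, w B a x y v (s v) (g v) := by
    calc _ = ∑ x : Fin n → ZMod 2, ∑ s : Fin n → Bool, ∑ g : Fin n → Fin n,
          ∑ y : Fin n → ZMod 2, ∏ v, w B a x y v (s v) (g v) := by
          refine Finset.sum_congr rfl fun x _ => ?_
          rw [Finset.sum_comm]
          refine Finset.sum_congr rfl fun s _ => ?_
          rw [Finset.sum_comm]
      _ = ∑ s : Fin n → Bool, ∑ g : Fin n → Fin n, ∑ x : Fin n → ZMod 2,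
          ∑ y : Fin n → ZMod 2, ∏ v, w B a x y v (s v) (g v) := by
          rw [Finset.sum_comm]
          refine Finset.sum_congr rfl fun s _ => ?_
          rw [Finset.sum_comm]
      _ = _ := Finset.sum_comm
  rw [h2]
  simp_rw [sum_xy, ← Finset.mul_sum, sum_inv, prod_B]
  unfold ncyc
  rw [Finset.card_filter, Nat.cast_sum]
  refine Finset.sum_congr rfl fun g _ => ?_
  by_cases hc : Cyc (fun u v => B u v = 1) g
  · rw [if_pos hc, if_pos hc.arc, if_pos ⟨hc.inj, hc.clo⟩]
    simp
  · rw [if_neg hc]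
    by_cases ha : ∀ v, B v (g v) = 1
    · rw [if_neg (fun h : Function.Injective g ∧ Clo g => hc ⟨h.1, ha, h.2⟩)]
      simp
    · rw [if_neg ha]
      simp

open Par in
theorem mark : MarkStmt := by
  classical
  intro n k B hk
  set X : (Fin n → ZMod 2) → ℕ := fun r => ngood k (fun u v => if u = v then r u else B u v)
    with hX
  set K : ℕ := 2 * 3 ^ k * 2 ^ (n - k) with hK
  have hs : ∑ r, X r = 3 ^ k * 4 ^ (n - k) := sum_ngood n k B hk
  have hcard := Finset.card_filter_add_card_filter_not (s := (univ : Finset (Fin n → ZMod 2)))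
    (fun r => X r * 2 ^ k ≤ K)
  have huniv : (univ : Finset (Fin n → ZMod 2)).card = 2 ^ n := by
    simp [Finset.card_univ, ZMod.card]
  rw [huniv] at hcard
  set bad := (univ.filter fun r => ¬ X r * 2 ^ k ≤ K) with hbad
  have h1 : bad.card * K ≤ ∑ r, X r * 2 ^ k := by
    calc bad.card * K = ∑ _r ∈ bad, K := by rw [Finset.sum_const, smul_eq_mul]
      _ ≤ ∑ r ∈ bad, X r * 2 ^ k := by
          refine Finset.sum_le_sum fun r hr => ?_
          have := (Finset.mem_filter.1 hr).2
          omega
      _ ≤ ∑ r, X r * 2 ^ k :=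
          Finset.sum_le_sum_of_subset (Finset.filter_subset _ _)
  rw [← Finset.sum_mul, hs] at h1
  have h2 : 3 ^ k * 4 ^ (n - k) * 2 ^ k = 2 ^ n * (3 ^ k * 2 ^ (n - k)) := by
    obtain ⟨m, rfl⟩ := Nat.exists_eq_add_of_le hk
    rw [Nat.add_sub_cancel_left, show (4 : ℕ) = 2 * 2 from rfl, mul_pow, pow_add]
    ring
  have h3 : bad.card * K = (2 * bad.card) * (3 ^ k * 2 ^ (n - k)) := by
    rw [hK]
    ring
  rw [h2, h3] at h1
  have h4 : 2 * bad.card ≤ 2 ^ n := Nat.le_of_mul_le_mul_right h1 (by positivity)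
  show 2 ^ n ≤ 2 * (univ.filter fun r => X r * 2 ^ k ≤ K).card
  omega

end Pool.Agent.MP_6b3410_lc.U5
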