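import Mathlib
import Pool.Agent.MP_6b3410_lc.U5.Spec

/-!
Row SEARCH: oblivious backtracking with load balancing.
-/

set_option autoImplicit false

namespace Pool.Agent.MP_6b3410_lc.U5

open Finset

namespace Search

variable {Ω : Type} {n : ℕ}

/-- the constant functions -/
def Cst (Ω : Type) : Set (Ω → Bool) := {f | ∃ c, f = fun _ => c}

lemma gen_cst (I P : Set (Ω → Bool)) : Gen I 0 P (Cst Ω) :=
  fun L hL _ => ⟨L, hL, fun _ hf => hf, by omega, fun _ hf => Or.inr (Or.inl hf)⟩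

lemma bits_const {α : Type} (a : α) : Bits (fun _ : Ω => a) ⊆ Cst Ω := by
  rintro f ⟨b, rfl⟩
  exact ⟨_, rfl⟩

lemma sum_range_two {M : Type} [AddCommMonoid M] (g : ℕ) (F : ℕ → M) :
    ∑ r ∈ range (2 * g), F r = ∑ r ∈ range g, (F (2 * r) + F (2 * r + 1)) := by
  induction g with
  | zero => simp
  | succ g ih =>
    rw [show 2 * (g + 1) = 2 * g + 1 + 1 by ring, sum_range_succ, sum_range_succ, ih,
      sum_range_succ, add_assoc]

lemma ms_map_sum {M : Type} [AddCommMonoid M] (d G : ℕ) (vd : (Fin d → Bool) → ℕ → Ω → Bool)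
    (pl : (Fin d → Bool) → ℕ → Ω → Fin n → ZMod 2) (ω : Ω) (F : (Fin n → ZMod 2) → M) :
    ((ms d G vd pl ω).map F).sum =
      ∑ u : Fin d → Bool, ∑ r ∈ range G, if vd u r ω = true then F (pl u r ω) else 0 := by
  let φ : Multiset (Fin n → ZMod 2) →+ M :=
    Multiset.sumAddMonoidHom.comp (Multiset.mapAddMonoidHom F)
  have hφ : ∀ s, (s.map F).sum = φ s := fun s => rfl
  rw [hφ, ms, map_sum]
  refine sum_congr rfl fun u _ => ?_
  rw [map_sum]
  refine sum_congr rfl fun r _ => ?_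
  split_ifs
  · rw [← hφ]; simp
  · simp

/-- the valid vectors of level `j` -/
def lev (val : ℕ → Ω → (Fin n → ZMod 2) → Bool) (j : ℕ) (ω : Ω) : Finset (Fin n → ZMod 2) :=
  univ.filter fun x : Fin n → ZMod 2 => (∀ v : Fin n, j ≤ v.val → x v = 0) ∧ val j ω x = true

/-- the valid children of a vector -/
def ch (val : ℕ → Ω → (Fin n → ZMod 2) → Bool) (j : Fin n) (ω : Ω) (x : Fin n → ZMod 2) :
    Multiset (Fin n → ZMod 2) :=
  ∑ β : ZMod 2, if val (j + 1) ω (Function.update x j β) = true then {Function.update x j β} else 0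

lemma sum_ch (val : ℕ → Ω → (Fin n → ZMod 2) → Bool) (j : Fin n) (ω : Ω)
    (h : ∀ x : Fin n → ZMod 2, (∀ v, j < v → x v = 0) → val (j + 1) ω x = true →
      val j ω (Function.update x j 0) = true) :
    ∑ x ∈ lev val j ω, ch val j ω x = (lev val (j + 1) ω).val := by
  rw [← Finset.sum_multiset_singleton (lev val (j + 1) ω)]
  simp only [ch]
  rw [← sum_product', ← sum_filter]
  refine sum_nbij' (fun p => Function.update p.1 j p.2) (fun y => (Function.update y j 0, y j))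
    ?_ ?_ ?_ ?_ ?_
  · rintro ⟨x, β⟩ hp
    simp only [lev, mem_filter, mem_product, mem_univ, true_and, and_true] at hp ⊢
    refine ⟨fun v hv => ?_, hp.2⟩
    rw [Function.update_of_ne (by rintro rfl; omega)]
    exact hp.1.1 v (by omega)
  · intro y hy
    simp only [lev, mem_filter, mem_product, mem_univ, true_and, and_true] at hy ⊢
    refine ⟨⟨fun v hv => ?_, h y (fun v hv => hy.1 v (by exact hv)) hy.2⟩, by simpa using hy.2⟩
    by_cases hvj : v = j
    · subst hvj; simp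
    · rw [Function.update_of_ne hvj]
      exact hy.1 v (by have := Fin.val_ne_of_ne hvj; omega)
  · rintro ⟨x, β⟩ hp
    simp only [lev, mem_filter, mem_product, mem_univ, true_and, and_true] at hp
    have := hp.1.1 j le_rfl
    simp only [Function.update_idem, Function.update_self, Prod.mk.injEq, and_true]
    rw [← this]; simp
  · intro y _
    simp
  · intro p _
    rfl

lemma sum_zmod2 {M : Type} [AddCommMonoid M] (F : ZMod 2 → M) : ∑ β, F β = F 0 + F 1 :=
  Fin.sum_univ_two F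

/-- payloads of the children -/
def pl1 {d : ℕ} (pl : (Fin d → Bool) → ℕ → Ω → Fin n → ZMod 2) (j : Fin n) (u : Fin d → Bool)
    (r : ℕ) (ω : Ω) : Fin n → ZMod 2 :=
  Function.update (pl u (r / 2) ω) j (r : ZMod 2)

/-- validity of the children -/
def vd1 {d : ℕ} (val : ℕ → Ω → (Fin n → ZMod 2) → Bool) (vd : (Fin d → Bool) → ℕ → Ω → Bool)
    (pl : (Fin d → Bool) → ℕ → Ω → Fin n → ZMod 2) (j : Fin n) (u : Fin d → Bool)
    (r : ℕ) (ω : Ω) : Bool :=
  vd u (r / 2) ω && val (j + 1) ω (pl1 pl j u r ω)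

lemma ms_child {d g : ℕ} (val : ℕ → Ω → (Fin n → ZMod 2) → Bool)
    (vd : (Fin d → Bool) → ℕ → Ω → Bool) (pl : (Fin d → Bool) → ℕ → Ω → Fin n → ZMod 2)
    (j : Fin n) (ω : Ω) :
    ms d (2 * g) (vd1 val vd pl j) (pl1 pl j) ω = ((ms d g vd pl ω).map (ch val j ω)).sum := by
  rw [ms_map_sum, ms]
  refine sum_congr rfl fun u _ => ?_
  rw [sum_range_two]
  refine sum_congr rfl fun r _ => ?_
  have h0 : ((2 * r : ℕ) : ZMod 2) = 0 := by
    rw [Nat.cast_mul]; simp [show ((2 : ZMod 2)) = 0 from rfl]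
  have h1 : ((2 * r + 1 : ℕ) : ZMod 2) = 1 := by rw [Nat.cast_add, h0]; simp
  have e0 : 2 * r / 2 = r := by omega
  have e1 : (2 * r + 1) / 2 = r := by omega
  simp only [vd1, pl1, ch, sum_zmod2, h0, h1, e0, e1]
  cases vd u r ω <;> simp

lemma ms_trunc {d g : ℕ} (vd : (Fin d → Bool) → ℕ → Ω → Bool)
    (pl : (Fin d → Bool) → ℕ → Ω → Fin n → ZMod 2) (ω : Ω)
    (h : ∀ u r, g ≤ r → r < 2 * g → vd u r ω = false) :
    ms d g vd pl ω = ms d (2 * g) vd pl ω := by
  refine sum_congr rfl fun u _ => sum_subset (range_subset_range.2 (by omega)) fun r h1 h2 => ?_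
  rw [h u r (by simpa using h2) (by simpa using h1)]
  simp

lemma gen_child {I P : Set (Ω → Bool)} {d g c : ℕ} (val : ℕ → Ω → (Fin n → ZMod 2) → Bool)
    (vd : (Fin d → Bool) → ℕ → Ω → Bool) (pl : (Fin d → Bool) → ℕ → Ω → Fin n → ZMod 2)
    (j : Fin n) (hA : ArrBits d g vd pl ⊆ P)
    (hval : ∀ (P' : Set (Ω → Bool)) (x : Ω → Fin n → ZMod 2), P ⊆ P' →
      (∀ v, Bits (fun ω => x ω v) ⊆ P') → TF I P' c fun ω => val (j + 1) ω (x ω)) :
    Gen I (2 ^ d * (2 * g) * (c + 20)) P (ArrBits d (2 * g) (vd1 val vd pl j) (pl1 pl j)) := by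
  have hpl : ∀ u r, r < 2 * g → ∀ v, Bits (fun ω => pl1 pl j u r ω v) ⊆ P ∪ Cst Ω := by
    intro u r hr v
    by_cases hv : v = j
    · subst hv
      simp only [pl1, Function.update_self]
      exact (bits_const _).trans Set.subset_union_right
    · simp only [pl1, Function.update_of_ne hv]
      exact fun f hf => Or.inl (hA ⟨u, r / 2, by omega, Or.inr ⟨v, hf⟩⟩)
  have h1 := Gen.all (I := I) (P := P ∪ Cst Ω) (s := c + 20)
    ((univ : Finset (Fin d → Bool)) ×ˢ range (2 * g))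
    (fun p => Bits (vd1 val vd pl j p.1 p.2)) (fun p hp => by
      have hr : p.2 < 2 * g := by simpa using hp
      have := TF.op2 (I := I) (P := P ∪ Cst Ω) (fun a b => a && b)
        (TF.of_subset (φ := vd p.1 (p.2 / 2))
          (fun f hf => Or.inl (hA ⟨p.1, p.2 / 2, by omega, Or.inl hf⟩)) 0)
        (hval (P ∪ Cst Ω) (pl1 pl j p.1 p.2) Set.subset_union_left (hpl _ _ hr))
      exact this.le (by simp))
  have h2 := ((gen_cst I P).trans' h1).keep
  refine h2.mono (by simp) subset_rfl ?_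
  rintro f ⟨u, r, hr, hf | ⟨v, hf⟩⟩
  · exact Or.inr (Or.inr ⟨(u, r), by simpa using hr, hf⟩)
  · rcases hpl u r hr v hf with h | h
    · exact Or.inl h
    · exact Or.inr (Or.inl h)

/-- the invariant of the search at level `j` -/
def Inv (I P : Set (Ω → Bool)) (d s : ℕ) (val : ℕ → Ω → (Fin n → ZMod 2) → Bool) (j : ℕ) : Prop :=
  ∃ (vd : (Fin d → Bool) → ℕ → Ω → Bool) (pl : (Fin d → Bool) → ℕ → Ω → Fin n → ZMod 2)
    (fl : Ω → Bool), Gen I s P (ArrBits d (d + 1) vd pl ∪ Bits fl) ∧ ∀ ω,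
      (fl ω = true → ms d (d + 1) vd pl ω = (lev val j ω).val) ∧
      ((∀ i ≤ j, (lev val i ω).card ≤ 2 ^ d) → fl ω = true)

lemma inv_zero {I P : Set (Ω → Bool)} {d c : ℕ} (val : ℕ → Ω → (Fin n → ZMod 2) → Bool)
    (hval : ∀ (P' : Set (Ω → Bool)) (x : Ω → Fin n → ZMod 2), P ⊆ P' →
      (∀ v, Bits (fun ω => x ω v) ⊆ P') → TF I P' c fun ω => val 0 ω (x ω)) :
    Inv I P d c val 0 := by
  refine ⟨fun u r ω => if u = (fun _ => false) ∧ r = 0 then val 0 ω 0 else false,
    fun _ _ _ => 0, fun _ => true, ?_, fun ω => ⟨fun _ => ?_, fun _ => rfl⟩⟩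
  · have h1 := (gen_cst I P).trans' (hval (P ∪ Cst Ω) (fun _ => 0) Set.subset_union_left
      fun v => (bits_const _).trans Set.subset_union_right)
    refine h1.mono (by simp) subset_rfl ?_
    rintro f (⟨u, r, _, hf | ⟨v, hf⟩⟩ | hf)
    · by_cases h : u = (fun _ => false) ∧ r = 0
      · simp only [h, and_self, if_true] at hf
        exact Or.inr hf
      · simp only [h, if_false] at hf
        exact Or.inl (bits_const _ hf)
    · exact Or.inl (bits_const _ hf)
    · exact Or.inl (bits_const _ hf)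
  · have h1 : lev val 0 ω = if val 0 ω 0 = true then {0} else ∅ := by
      ext x
      simp only [lev, mem_filter, mem_univ, true_and, zero_le, forall_const]
      constructor
      · rintro ⟨h1, h2⟩
        have : x = 0 := funext h1
        subst this
        simp [h2]
      · intro h
        split_ifs at h with h0
        · have : x = 0 := by simpa using h
          subst this
          exact ⟨fun _ => rfl, h0⟩
        · simp at h
    rw [h1, ms, sum_eq_single (fun _ => false), sum_eq_single 0]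
    · cases val 0 ω 0 <;> simp
    · intro r _ hr
      simp [hr]
    · simp
    · intro u _ hu
      simp [hu]
    · simp

lemma inv_succ {I P : Set (Ω → Bool)} {d c s t : ℕ} (val : ℕ → Ω → (Fin n → ZMod 2) → Bool)
    (j : Fin n)
    (hbal : ∀ (P' : Set (Ω → Bool)) (vd : (Fin d → Bool) → ℕ → Ω → Bool)
      (pl : (Fin d → Bool) → ℕ → Ω → Fin n → ZMod 2), ArrBits d (2 * (d + 1)) vd pl ⊆ P' →
      ∃ (vd' : (Fin d → Bool) → ℕ → Ω → Bool) (pl' : (Fin d → Bool) → ℕ → Ω → Fin n → ZMod 2),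
        Gen I t P' (ArrBits d (2 * (d + 1)) vd' pl') ∧
        ∀ ω, ms d (2 * (d + 1)) vd' pl' ω = ms d (2 * (d + 1)) vd pl ω ∧
          ∀ u r, r < 2 * (d + 1) → vd' u r ω = true →
          2 * 2 ^ d * (r + 1) ≤ 2 * Multiset.card (ms d (2 * (d + 1)) vd pl ω) + d * 2 ^ d)
    (hval : ∀ (P' : Set (Ω → Bool)) (x : Ω → Fin n → ZMod 2), P ⊆ P' →
      (∀ v, Bits (fun ω => x ω v) ⊆ P') → TF I P' c fun ω => val (j + 1) ω (x ω))
    (hpar : ∀ ω (x : Fin n → ZMod 2), (∀ v, j < v → x v = 0) → val (j + 1) ω x = true →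
      val j ω (Function.update x j 0) = true)
    (h : Inv I P d s val j) :
    Inv I P d (s + (2 ^ d * (2 * (d + 1)) * (c + 20) + t + (2 ^ d * (d + 1) * 3 + 21))) val
      (j + 1) := by
  classical
  obtain ⟨vd, pl, fl, hG, hI⟩ := h
  set P1 := P ∪ (ArrBits d (d + 1) vd pl ∪ Bits fl) with hP1
  have h1 := gen_child (I := I) (P := P1) (g := d + 1) (c := c) val vd pl j
    (fun f hf => Or.inr (Or.inl hf))
    (fun P' x hP hx => hval P' x (Set.subset_union_left.trans hP) hx)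
  obtain ⟨vd2, pl2, h2, hms⟩ := hbal
    (P1 ∪ ArrBits d (2 * (d + 1)) (vd1 val vd pl j) (pl1 pl j)) _ _ Set.subset_union_right
  have h12 := h1.trans h2
  set P2 := P1 ∪ ArrBits d (2 * (d + 1)) vd2 pl2 with hP2
  let T : Finset ((Fin d → Bool) × ℕ) := univ ×ˢ Ico (d + 1) (2 * (d + 1))
  let bad : Ω → Bool := fun ω => decide (∃ p ∈ T, vd2 p.1 p.2 ω = true)
  have h3 : TF I P2 (T.card * (0 + 3) + 1) bad :=
    TF.exists T (fun p => vd2 p.1 p.2) (fun p hp => TF.of_subset
      (fun f hf => Or.inr ⟨p.1, p.2, (mem_Ico.1 (mem_product.1 hp).2).2, Or.inl hf⟩) 0) bad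
      (fun ω => by simp only [bad, decide_eq_true_iff])
  have hT : T.card = 2 ^ d * (d + 1) := by
    simp only [T, card_product, card_univ, Fintype.card_fun, Fintype.card_bool, Fintype.card_fin,
      Nat.card_Ico]
    congr 1; omega
  have h4 : TF I P2 (2 ^ d * (d + 1) * 3 + 21) fun ω => fl ω && !(bad ω) := by
    have := TF.op2 (I := I) (P := P2) (fun a b => a && !b)
      (TF.of_subset (φ := fl) (fun f hf => Or.inl (Or.inr (Or.inr hf))) 0) h3
    exact this.le (by rw [hT]; simp)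
  refine ⟨vd2, pl2, fun ω => fl ω && !(bad ω), ?_, fun ω => ⟨fun hf => ?_, fun hc => ?_⟩⟩
  · refine (hG.trans (h12.trans' h4)).mono le_rfl subset_rfl ?_
    rintro f (⟨u, r, hr, hf⟩ | hf)
    · exact Or.inl ⟨u, r, by omega, hf⟩
    · exact Or.inr hf
  · simp only [Bool.and_eq_true, Bool.not_eq_true', bad, decide_eq_false_iff_not] at hf
    rw [ms_trunc vd2 pl2 ω, (hms ω).1, ms_child, (hI ω).1 hf.1]
    · exact sum_ch val j ω (hpar ω)
    · intro u r h1 h2
      by_contra hne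
      exact hf.2 ⟨(u, r), by simp [T, h1, h2], by simpa using hne⟩
  · have hf := (hI ω).2 fun i hi => hc i (by omega)
    simp only [Bool.and_eq_true, Bool.not_eq_true', bad, decide_eq_false_iff_not]
    refine ⟨hf, ?_⟩
    rintro ⟨p, hp, hv⟩
    have hp' := mem_Ico.1 (mem_product.1 hp).2
    have h5 := (hms ω).2 p.1 p.2 hp'.2 hv
    rw [ms_child, (hI ω).1 hf] at h5
    have h6 : ((lev val j ω).val.map (ch val j ω)).sum = (lev val (j + 1) ω).val :=
      sum_ch val j ω (hpar ω)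
    rw [h6] at h5
    have h7 : Multiset.card (lev val (j + 1) ω).val ≤ 2 ^ d := hc (j + 1) le_rfl
    have h8 : 0 < 2 ^ d := by positivity
    have h9 : 2 ^ d * (d + 2) ≤ 2 ^ d * (p.2 + 1) := Nat.mul_le_mul_left _ (by omega)
    nlinarith

end Search

open Search in
theorem search : BalStmt → SearchStmt := by
  rintro ⟨D, hD⟩
  refine ⟨D + 5, fun Ω I P N n d c val Φ hN hn hd hval hΦ hpar => ?_⟩
  set K := 2 ^ d * (c + 1) with hK
  set M := N ^ (D + 3) with hM
  have hM1 : N ^ D ≤ M := Nat.pow_le_pow_right (by omega) (by omega)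
  have hM2 : 49 * N ≤ M := by
    have h1 : N ^ 3 ≤ M := Nat.pow_le_pow_right (by omega) (by omega)
    have h2 : 7 * 7 * N ≤ N * N * N := Nat.mul_le_mul_right _ (Nat.mul_le_mul hN hN)
    calc 49 * N = 7 * 7 * N := by ring
      _ ≤ N * N * N := h2
      _ = N ^ 3 := by ring
      _ ≤ M := h1
  have h2d : 1 ≤ 2 ^ d := Nat.one_le_two_pow
  have hK1 : 2 ^ d ≤ K := Nat.le_mul_of_pos_right _ (by omega)
  have hK2 : c + 1 ≤ K := Nat.le_mul_of_pos_left _ (by omega)
  have hKM : ∀ a, a ≤ 49 * N → K * a ≤ K * M := fun a ha => Nat.mul_le_mul_left _ (ha.trans hM2)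
  have hstep : 2 ^ d * (2 * (d + 1)) * (c + 20) + 2 ^ d * N ^ D + (2 ^ d * (d + 1) * 3 + 21)
      ≤ 3 * (K * M) := by
    have a1 : 2 ^ d * (2 * (d + 1)) * (c + 20) ≤ K * M := by
      refine le_trans ?_ (hKM (40 * (d + 1)) (by omega))
      calc 2 ^ d * (2 * (d + 1)) * (c + 20) ≤ 2 ^ d * (2 * (d + 1)) * (20 * (c + 1)) :=
            Nat.mul_le_mul_left _ (by omega)
        _ = K * (40 * (d + 1)) := by rw [hK]; ring
    have a2 : 2 ^ d * N ^ D ≤ K * M := Nat.mul_le_mul hK1 hM1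
    have a3 : 2 ^ d * (d + 1) * 3 + 21 ≤ K * M := by
      refine le_trans ?_ (hKM ((d + 1) * 3 + 21) (by omega))
      calc 2 ^ d * (d + 1) * 3 + 21 ≤ 2 ^ d * ((d + 1) * 3) + 2 ^ d * 21 := by
            rw [mul_assoc]; omega
        _ = 2 ^ d * ((d + 1) * 3 + 21) := by ring
        _ ≤ K * ((d + 1) * 3 + 21) := Nat.mul_le_mul_right _ hK1
    omega
  have hinv : ∀ j ≤ n, Inv I P d (c + j * (3 * (K * M))) val j := by
    intro j
    induction j with
    | zero => intro _; simpa using inv_zero val (hval 0 (by omega))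
    | succ j ih =>
      intro hj
      obtain ⟨vd, pl, fl, h1, h2⟩ := inv_succ (c := c) (t := 2 ^ d * N ^ D) val ⟨j, hj⟩
        (fun P' vd pl hA => hD Ω I P' N n d (2 * (d + 1)) vd pl hN hn (by omega) (by omega) hA)
        (hval (j + 1) hj) (fun ω => hpar ω ⟨j, hj⟩) (ih (by omega))
      exact ⟨vd, pl, fl, h1.le (by rw [add_mul j 1, one_mul]; omega), h2⟩
  obtain ⟨vd, pl, fl, hG, hI⟩ := hinv n le_rfl
  set P1 := P ∪ (ArrBits d (d + 1) vd pl ∪ Bits fl) with hP1
  have h1 : TF I P1 (2 ^ d * ((d + 1) * (c + 40) + 20)) fun ω =>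
      ∑ u : Fin d → Bool, ∑ r ∈ range (d + 1), if vd u r ω = true then Φ ω (pl u r ω) else 0 := by
    refine (TF.sum (s := (d + 1) * (c + 40)) univ _ fun u _ => ?_).le (by simp)
    refine (TF.sum (s := c + 20) (range (d + 1)) _ fun r hr => ?_).le (by simp)
    have hr' : r < d + 1 := by simpa using hr
    have := TF.op2 (I := I) (P := P1) (fun (a : Bool) (b : ZMod 2) => if a = true then b else 0)
      (TF.of_subset (φ := vd u r) (fun f hf => Or.inr (Or.inl ⟨u, r, hr', Or.inl hf⟩)) 0)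
      (hΦ P1 (pl u r) Set.subset_union_left
        fun v f hf => Or.inr (Or.inl ⟨u, r, hr', Or.inr ⟨v, hf⟩⟩))
    exact this.le (by simp)
  have h2 := TF.op2 (I := I) (P := P1) (fun (a : Bool) (b : ZMod 2) => a && decide (b = 1))
    (TF.of_subset (φ := fl) (fun f hf => Or.inr (Or.inr hf)) 0) h1
  have hlev : ∀ ω, lev val n ω = univ.filter fun x => val n ω x = true := by
    intro ω
    refine filter_congr fun x _ => ⟨fun h => h.2, fun h => ⟨fun v hv => ?_, h⟩⟩
    exact absurd v.isLt (by omega)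
  have hsum : ∀ ω, fl ω = true →
      (∑ u : Fin d → Bool, ∑ r ∈ range (d + 1), if vd u r ω = true then Φ ω (pl u r ω) else 0) =
        ∑ x ∈ univ.filter (fun x => val n ω x = true), Φ ω x := by
    intro ω hf
    rw [← ms_map_sum, (hI ω).1 hf, hlev]
    rfl
  refine ⟨_, (TF.after hG h2).le ?_, fun ω => ⟨fun ho => ?_, fun hc hs => ?_⟩⟩
  · have a1 : c ≤ K * M := by
      have := hKM 1 (by omega)
      omega
    have a2 : 2 ^ d * ((d + 1) * (c + 40) + 20) + 20 ≤ K * M := by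
      refine le_trans ?_ (hKM (40 * (d + 1) + 40) (by omega))
      have b1 : (d + 1) * (c + 40) ≤ (d + 1) * (40 * (c + 1)) := Nat.mul_le_mul_left _ (by omega)
      calc 2 ^ d * ((d + 1) * (c + 40) + 20) + 20
          ≤ 2 ^ d * ((d + 1) * (40 * (c + 1)) + 20) + 2 ^ d * 20 :=
            Nat.add_le_add (Nat.mul_le_mul_left _ (by omega)) (by omega)
        _ = K * (40 * (d + 1)) + 2 ^ d * 40 := by rw [hK]; ring
        _ ≤ K * (40 * (d + 1)) + K * 40 := by omega
        _ = _ := by ring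
    have a3 : n * (3 * (K * M)) ≤ N * (3 * (K * M)) := Nat.mul_le_mul_right _ hn
    have a4 : 2 ^ d * N ^ (D + 5) * (c + 1) = N * N * (K * M) := by rw [hK, hM]; ring
    have a5 : (3 * N + 2) * (K * M) ≤ N * N * (K * M) := Nat.mul_le_mul_right _ (by nlinarith)
    simp only [Fintype.card_bool, ZMod.card]
    rw [a4]
    nlinarith
  · simp only [Bool.and_eq_true, decide_eq_true_iff] at ho
    rw [← hsum ω ho.1]
    exact ho.2
  · have hf := (hI ω).2 hc
    simp only [Bool.and_eq_true, decide_eq_true_iff]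
    exact ⟨hf, (hsum ω hf).trans hs⟩

end Pool.Agent.MP_6b3410_lc.U5
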