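import Mathlib
import Pool.Agent.MP_6b3410_lc.U5.Spec

/-!
Row SOUND: only paths survive in the labelled walk sieve.
-/

set_option autoImplicit false

namespace Pool.Agent.MP_6b3410_lc.U5

open Finset

namespace Sound

/-- fewer linear forms than labels: the sum over all label sets vanishes -/
lemma cube {F ι : Type} [CommRing F] [CharP F 2] {m : ℕ} (J : Finset ι) (y : ι → Fin m → F)
    (hJ : J.card < m) : ∑ S : Finset (Fin m), ∏ j ∈ J, ∑ l ∈ S, y j l = 0 := by
  classical
  have h1 : ∀ S : Finset (Fin m), ∏ j ∈ J, ∑ l ∈ S, y j l =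
      ∑ p : J → Fin m, if (∀ j, p j ∈ S) then ∏ j : J, y j (p j) else 0 := by
    intro S
    rw [← Finset.prod_coe_sort J (fun j => ∑ l ∈ S, y j l), Finset.prod_univ_sum,
      ← Finset.sum_filter]
    apply Finset.sum_congr _ (fun _ _ => rfl)
    ext p
    simp [Fintype.mem_piFinset]
  rw [Finset.sum_congr rfl (fun S _ => h1 S), Finset.sum_comm]
  apply Finset.sum_eq_zero
  intro p _
  have hns : ¬ Function.Surjective p := by
    intro hs
    have := Fintype.card_le_of_surjective p hs
    simp only [Fintype.card_fin, Fintype.card_coe] at this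
    omega
  obtain ⟨l0, hl0⟩ : ∃ l0, ∀ j, p j ≠ l0 := by
    by_contra hc
    push Not at hc
    exact hns hc
  refine Finset.sum_involution (fun S _ => symmDiff S {l0}) ?_ ?_ (fun _ _ => mem_univ _) ?_
  · intro S _
    have : (∀ j, p j ∈ symmDiff S {l0}) ↔ ∀ j, p j ∈ S := by
      refine forall_congr' fun j => ?_
      simp [Finset.mem_symmDiff, hl0 j]
    by_cases h : ∀ j, p j ∈ S
    · rw [if_pos h, if_pos (this.2 h)]
      exact CharTwo.add_self_eq_zero _
    · rw [if_neg h, if_neg (fun h' => h (this.1 h')), add_zero]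
  · intro S _ _ h
    have : l0 ∈ symmDiff S {l0} ↔ l0 ∈ S := by rw [h]
    simp [Finset.mem_symmDiff] at this
  · intro S _
    exact symmDiff_symmDiff_cancel_right _ _

/-- a repeated linear form -/
lemma rep {F ι : Type} [CommRing F] [CharP F 2] {m : ℕ} (J : Finset ι) (y : ι → Fin m → F)
    (hJ : J.card = m) {j1 j2 : ι} (h1 : j1 ∈ J) (h2 : j2 ∈ J) (hne : j1 ≠ j2)
    (hy : y j1 = y j2) : ∑ S : Finset (Fin m), ∏ j ∈ J, ∑ l ∈ S, y j l = 0 := by
  classical
  have h1' : j1 ∈ J.erase j2 := Finset.mem_erase.2 ⟨hne, h1⟩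
  have hc : (J.erase j2).card < m := by
    rw [← hJ]
    exact Finset.card_erase_lt_of_mem h2
  rw [← cube (J.erase j2) (Function.update y j1 fun l => y j1 l ^ 2) hc]
  apply Finset.sum_congr rfl
  intro S _
  rw [← Finset.mul_prod_erase J _ h2, ← Finset.mul_prod_erase (J.erase j2) _ h1',
    ← Finset.mul_prod_erase (J.erase j2) _ h1', Function.update_self, ← hy, ← mul_assoc, ← sq,
    CharTwo.sum_sq]
  refine congrArg _ (Finset.prod_congr rfl ?_)
  intro j hj
  rw [Function.update_of_ne (Finset.mem_erase.1 hj).1]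

/-- the sum over the units picks out one exponent -/
lemma units_sum {F : Type} [Field F] [Fintype F] [DecidableEq F] [CharP F 2] (k m : ℕ)
    (hk : k + 1 < Fintype.card F) (hm : m + 1 < Fintype.card F) :
    ∑ τ : Fˣ, ((τ⁻¹ : Fˣ) : F) ^ m * (τ : F) ^ k = if k = m then 1 else 0 := by
  have h : ∀ τ : Fˣ, ((τ⁻¹ : Fˣ) : F) ^ m * (τ : F) ^ k =
      (τ : F) ^ (k + (Fintype.card F - 1 - m)) := by
    intro τ
    have h0 : (τ : F) ≠ 0 := τ.ne_zero
    have h1 : (τ : F) ^ (Fintype.card F - 1) = 1 := FiniteField.pow_card_sub_one_eq_one _ h0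
    have h2 : (τ : F) ^ (Fintype.card F - 1 - m) * (τ : F) ^ m = 1 := by
      rw [← pow_add, Nat.sub_add_cancel (by omega), h1]
    have h3 : ((τ⁻¹ : Fˣ) : F) ^ m * (τ : F) ^ m = 1 := by
      rw [← mul_pow, Units.inv_mul, one_pow]
    have h4 : ((τ⁻¹ : Fˣ) : F) ^ m = (τ : F) ^ (Fintype.card F - 1 - m) :=
      mul_right_cancel₀ (pow_ne_zero m h0) (h3.trans h2.symm)
    rw [h4, pow_add, mul_comm]
  rw [Finset.sum_congr rfl (fun τ _ => h τ), FiniteField.sum_pow_units]
  by_cases hkm : k = m
  · subst hkm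
    rw [if_pos rfl, if_pos, CharTwo.neg_eq]
    rw [show k + (Fintype.card F - 1 - k) = Fintype.card F - 1 by omega]
  · rw [if_neg hkm, if_neg]
    rintro ⟨c, hc⟩
    rcases c with _ | _ | c
    · omega
    · omega
    · have : (Fintype.card F - 1) * (c + 1 + 1) = (Fintype.card F - 1) * c +
          2 * (Fintype.card F - 1) := by ring
      omega

/-- reflection of the interval from `i` to `j` -/
def rf (i j t : ℕ) : ℕ := if i ≤ t ∧ t ≤ j then i + j - t else t

lemma rf_rf (i j t : ℕ) : rf i j (rf i j t) = t := by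
  unfold rf
  split_ifs <;> omega

lemma rf_lt {i j n t : ℕ} (hj : j < n) (ht : t < n) : rf i j t < n := by
  unfold rf
  split_ifs <;> omega

lemma rf_out {V : Type} {f : ℕ → V} {i j t : ℕ} (hij : i < j) (hf : f i = f j)
    (ht : t ≤ i ∨ j ≤ t) : f (rf i j t) = f t := by
  unfold rf
  split_ifs with h
  · rcases ht with ht | ht
    · rw [show i + j - t = j by omega, show t = i by omega, hf]
    · rw [show i + j - t = i by omega, show t = j by omega, hf]
  · rfl

lemma rf_in {i j t : ℕ} (h1 : i ≤ t) (h2 : t ≤ j) : rf i j t = i + j - t := if_pos ⟨h1, h2⟩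

/-- the weight of a sequence is invariant under reversing a closed piece -/
lemma pw_rf {V R : Type} [CommRing R] {n i j : ℕ} (va : V → R) (eb : V → V → R)
    (tr : V → V → V → R) (f : ℕ → V) (hij : i < j) (hj : j < n) (hf : f i = f j)
    (he : ∀ u v, eb u v = eb v u) (ht : ∀ u v w, tr u v w = tr w v u)
    (hi : ∀ u w, tr u (f i) w = 1) :
    pw n va eb tr (fun t => f (rf i j t)) = pw n va eb tr f := by
  unfold pw
  have e1 : ∏ t ∈ range n, va (f (rf i j t)) = ∏ t ∈ range n, va (f t) := by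
    refine Finset.prod_nbij' (rf i j) (rf i j) ?_ ?_ ?_ ?_ ?_
    · intro t h
      exact mem_range.2 (rf_lt hj (mem_range.1 h))
    · intro t h
      exact mem_range.2 (rf_lt hj (mem_range.1 h))
    · intro t _
      exact rf_rf i j t
    · intro t _
      exact rf_rf i j t
    · intro t _
      rfl
  have e2 : ∏ t ∈ range (n - 1), eb (f (rf i j t)) (f (rf i j (t + 1))) =
      ∏ t ∈ range (n - 1), eb (f t) (f (t + 1)) := by
    refine Finset.prod_nbij' (rf i (j - 1)) (rf i (j - 1)) ?_ ?_ ?_ ?_ ?_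
    · intro t h
      exact mem_range.2 (rf_lt (by omega) (mem_range.1 h))
    · intro t h
      exact mem_range.2 (rf_lt (by omega) (mem_range.1 h))
    · intro t _
      exact rf_rf _ _ t
    · intro t _
      exact rf_rf _ _ t
    · intro t _
      by_cases h : i ≤ t ∧ t < j
      · rw [rf_in h.1 h.2.le, rf_in (t := t + 1) (by omega) (by omega),
          rf_in (j := j - 1) h.1 (by omega), he,
          show i + j - (t + 1) = i + (j - 1) - t by omega,
          show i + j - t = i + (j - 1) - t + 1 by omega]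
      · rw [rf_out hij hf (by omega), rf_out hij hf (by omega)]
        have : rf i (j - 1) t = t := if_neg (by omega)
        rw [this]
  have e3 : ∏ t ∈ range (n - 2), tr (f (rf i j t)) (f (rf i j (t + 1))) (f (rf i j (t + 2))) =
      ∏ t ∈ range (n - 2), tr (f t) (f (t + 1)) (f (t + 2)) := by
    refine Finset.prod_nbij' (fun t => if i ≤ t ∧ t + 1 < j then i + j - 2 - t else t)
      (fun t => if i ≤ t ∧ t + 1 < j then i + j - 2 - t else t) ?_ ?_ ?_ ?_ ?_
    · intro t h
      have := mem_range.1 h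
      refine mem_range.2 ?_
      split_ifs <;> omega
    · intro t h
      have := mem_range.1 h
      refine mem_range.2 ?_
      split_ifs <;> omega
    · intro t _
      split_ifs <;> omega
    · intro t _
      split_ifs <;> omega
    · intro t _
      by_cases h : i ≤ t ∧ t + 1 < j
      · rw [if_pos h, rf_in h.1 (by omega), rf_in (t := t + 1) (by omega) (by omega),
          rf_in (t := t + 2) (by omega) (by omega), ht,
          show i + j - (t + 2) = i + j - 2 - t by omega,
          show i + j - (t + 1) = i + j - 2 - t + 1 by omega,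
          show i + j - t = i + j - 2 - t + 2 by omega]
      · rw [if_neg h]
        by_cases h1 : t + 1 = i
        · rw [rf_out (t := t + 1) hij hf (by omega), h1, hi, hi]
        · by_cases h2 : t + 1 = j
          · rw [rf_out (t := t + 1) hij hf (by omega), h2, ← hf, hi, hi]
          · rw [rf_out (t := t) hij hf (by omega), rf_out (t := t + 1) hij hf (by omega),
              rf_out (t := t + 2) hij hf (by omega)]
  rw [e1, e2, e3]

/-- `i` is the first index of a repeated vertex outside `W`, `j` its last visit -/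
def Rp {V : Type} (n : ℕ) (W : V → Bool) (f : ℕ → V) (i j : ℕ) : Prop :=
  i < j ∧ j < n ∧ W (f i) = false ∧ f i = f j ∧
    (∀ i' < i, W (f i') = false → ∀ j', i' < j' → j' < n → f i' ≠ f j') ∧
    ∀ j', j < j' → j' < n → f i ≠ f j'

lemma Rp.exists {V : Type} {n : ℕ} {W : V → Bool} {f : ℕ → V}
    (h : ∃ i j, i < j ∧ j < n ∧ W (f i) = false ∧ f i = f j) : ∃ p : ℕ × ℕ, Rp n W f p.1 p.2 := by
  classical
  obtain ⟨j0, h1, h2, h3, h4⟩ := Nat.find_spec h
  have hmin := fun i' (hi' : i' < Nat.find h) => Nat.find_min h hi'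
  generalize Nat.find h = i at h1 h3 h4 hmin
  have hs := Nat.findGreatest_spec (P := fun j => i < j ∧ j < n ∧ f i = f j) h2.le ⟨h1, h2, h4⟩
  refine ⟨(i, Nat.findGreatest (fun j => i < j ∧ j < n ∧ f i = f j) n), hs.1, hs.2.1, h3, hs.2.2,
    ?_, ?_⟩
  · intro i' hi' hW j' a b c
    exact hmin i' hi' ⟨j', a, b, hW, c⟩
  · intro j' a b c
    exact Nat.findGreatest_is_greatest a b.le ⟨lt_trans hs.1 a, b, c⟩

lemma Rp.unique {V : Type} {n : ℕ} {W : V → Bool} {f : ℕ → V} {i j i' j' : ℕ}
    (h : Rp n W f i j) (h' : Rp n W f i' j') : i = i' ∧ j = j' := by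
  obtain ⟨a1, a2, a3, a4, a5, a6⟩ := h
  obtain ⟨b1, b2, b3, b4, b5, b6⟩ := h'
  have hi : i = i' := by
    rcases lt_trichotomy i i' with h | h | h
    · exact absurd a4 (b5 i h a3 j a1 a2)
    · exact h
    · exact absurd b4 (a5 i' h b3 j' b1 b2)
  subst hi
  refine ⟨rfl, ?_⟩
  rcases lt_trichotomy j j' with h | h | h
  · exact absurd b4 (a6 j' h b2)
  · exact h
  · exact absurd a4 (b6 j h a2)

lemma Rp.rf {V : Type} {n : ℕ} {W : V → Bool} {f : ℕ → V} {i j : ℕ} (h : Rp n W f i j) :
    Rp n W (fun t => f (rf i j t)) i j := by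
  obtain ⟨a1, a2, a3, a4, a5, a6⟩ := h
  have hi : f (Sound.rf i j i) = f i := rf_out a1 a4 (Or.inl le_rfl)
  have hj : f (Sound.rf i j j) = f j := rf_out a1 a4 (Or.inr le_rfl)
  refine ⟨a1, a2, ?_, ?_, ?_, ?_⟩
  · show W (f (Sound.rf i j i)) = false
    rw [hi, a3]
  · show f (Sound.rf i j i) = f (Sound.rf i j j)
    rw [hi, hj, a4]
  · intro i' hi' hW j' b1 b2
    have e : f (Sound.rf i j i') = f i' := rf_out a1 a4 (Or.inl hi'.le)
    show f (Sound.rf i j i') ≠ f (Sound.rf i j j')
    have hW' : W (f (Sound.rf i j i')) = false := hW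
    rw [e] at hW' ⊢
    refine a5 i' hi' hW' _ ?_ (rf_lt a2 b2)
    unfold Sound.rf
    split_ifs <;> omega
  · intro j' b1 b2
    show f (Sound.rf i j i) ≠ f (Sound.rf i j j')
    rw [hi, rf_out a1 a4 (Or.inr b1.le)]
    exact a6 j' b1 b2

lemma ext_rf {V : Type} {n i j : ℕ} (a : V) (g : Fin n → V) (hj : j < n) :
    ext a (fun t : Fin n => ext a g (rf i j t)) = fun t => ext a g (rf i j t) := by
  funext t
  by_cases ht : t < n
  · simp only [ext, dif_pos ht]
  · have : rf i j t = t := if_neg (by omega)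
    rw [this]
    simp only [ext, dif_neg ht]

lemma ext_val {V : Type} {n : ℕ} (a : V) (g : Fin n → V) (t : Fin n) : ext a g t = g t := by
  simp only [ext, dif_pos t.2]

section sieve

variable {n m : ℕ} {F : Type}

/-- the weight of one sequence in the sieve -/
def P [CommRing F] (A : Fin n → Fin n → Bool) (W : Fin n → Bool)
    (z : Sym2 (Fin n) × Option (Fin m) → F) (S : Finset (Fin m)) (τ : F) (f : ℕ → Fin n) : F :=
  pw n (svV W z S τ) (fun u v => if A u v = true then svE W z S τ u v else 0) (svT W) f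

lemma P_tau [CommRing F] (A : Fin n → Fin n → Bool) (W : Fin n → Bool)
    (z : Sym2 (Fin n) × Option (Fin m) → F) (S : Finset (Fin m)) (τ : F) (f : ℕ → Fin n) :
    P A W z S τ f = τ ^ kc n W f * P A W z S 1 f := by
  unfold P pw kc
  have e1 : ∏ t ∈ range n, svV W z S τ (f t) =
      τ ^ ((range n).filter fun t => W (f t) = true).card * ∏ t ∈ range n, svV W z S 1 (f t) := by
    rw [← Finset.prod_const, Finset.prod_filter, ← Finset.prod_mul_distrib]
    refine Finset.prod_congr rfl fun t _ => ?_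
    unfold svV
    split_ifs <;> simp
  have e2 : ∏ t ∈ range (n - 1),
        (if A (f t) (f (t + 1)) = true then svE W z S τ (f t) (f (t + 1)) else 0) =
      τ ^ ((range (n - 1)).filter fun t => W (f t) = false ∧ W (f (t + 1)) = false).card *
        ∏ t ∈ range (n - 1),
          (if A (f t) (f (t + 1)) = true then svE W z S 1 (f t) (f (t + 1)) else 0) := by
    rw [← Finset.prod_const, Finset.prod_filter, ← Finset.prod_mul_distrib]
    refine Finset.prod_congr rfl fun t _ => ?_
    unfold svE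
    split_ifs <;> ring
  rw [e1, e2, pow_add]
  ring

/-- the labelled items of a sequence -/
def item (f : ℕ → Fin n) : ℕ ⊕ ℕ → Sym2 (Fin n)
  | Sum.inl t => s(f t, f t)
  | Sum.inr t => s(f t, f (t + 1))

/-- the positions of the labelled items -/
def pos (W : Fin n → Bool) (f : ℕ → Fin n) : Finset (ℕ ⊕ ℕ) :=
  ((range n).filter fun t => W (f t) = true).disjSum
    ((range (n - 1)).filter fun t => W (f t) = false ∧ W (f (t + 1)) = false)

lemma card_pos (W : Fin n → Bool) (f : ℕ → Fin n) : (pos W f).card = kc n W f :=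
  Finset.card_disjSum _ _

lemma P_one [CommRing F] (A : Fin n → Fin n → Bool) (W : Fin n → Bool)
    (z : Sym2 (Fin n) × Option (Fin m) → F) (f : ℕ → Fin n) :
    ∃ C : F, ∀ S : Finset (Fin m),
      P A W z S 1 f = C * ∏ j ∈ pos W f, ∑ l ∈ S, z (item f j, some l) := by
  refine ⟨(∏ t ∈ range (n - 1),
    (if A (f t) (f (t + 1)) = true then z (s(f t, f (t + 1)), none) else 0)) *
      ∏ t ∈ range (n - 2), svT W (f t) (f (t + 1)) (f (t + 2)), fun S => ?_⟩
  unfold P pw pos
  rw [Finset.prod_disjSum]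
  have e1 : ∏ t ∈ range n, svV W z S 1 (f t) =
      ∏ t ∈ (range n).filter fun t => W (f t) = true, ∑ l ∈ S, z (item f (Sum.inl t), some l) := by
    rw [Finset.prod_filter]
    refine Finset.prod_congr rfl fun t _ => ?_
    unfold svV item
    split_ifs <;> simp
  have e2 : ∏ t ∈ range (n - 1),
        (if A (f t) (f (t + 1)) = true then svE W z S 1 (f t) (f (t + 1)) else 0) =
      (∏ t ∈ range (n - 1),
        (if A (f t) (f (t + 1)) = true then z (s(f t, f (t + 1)), none) else 0)) *
      ∏ t ∈ (range (n - 1)).filter fun t => W (f t) = false ∧ W (f (t + 1)) = false,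
        ∑ l ∈ S, z (item f (Sum.inr t), some l) := by
    rw [Finset.prod_filter, ← Finset.prod_mul_distrib]
    refine Finset.prod_congr rfl fun t _ => ?_
    unfold svE item
    split_ifs <;> simp
  rw [e1, e2]
  ring

lemma H_rep [CommRing F] [CharP F 2] (A : Fin n → Fin n → Bool) (W : Fin n → Bool)
    (z : Sym2 (Fin n) × Option (Fin m) → F) (f : ℕ → Fin n) (hk : kc n W f = m)
    {j1 j2 : ℕ ⊕ ℕ} (h1 : j1 ∈ pos W f) (h2 : j2 ∈ pos W f) (hne : j1 ≠ j2)
    (hy : item f j1 = item f j2) : ∑ S : Finset (Fin m), P A W z S 1 f = 0 := by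
  obtain ⟨C, hC⟩ := P_one A W z f
  rw [Finset.sum_congr rfl (fun S _ => hC S), ← Finset.mul_sum,
    rep (pos W f) (fun j l => z (item f j, some l)) ((card_pos W f).trans hk) h1 h2 hne
      (by rw [hy]), mul_zero]

lemma H_repW [CommRing F] [CharP F 2] (A : Fin n → Fin n → Bool) (W : Fin n → Bool)
    (z : Sym2 (Fin n) × Option (Fin m) → F) (f : ℕ → Fin n) (hk : kc n W f = m)
    {s t : ℕ} (hs : s < n) (ht : t < n) (hne : s ≠ t) (hf : f s = f t) (hW : W (f s) = true) :
    ∑ S : Finset (Fin m), P A W z S 1 f = 0 := by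
  refine H_rep A W z f hk (j1 := Sum.inl s) (j2 := Sum.inl t) ?_ ?_ ?_ ?_
  · exact Finset.inl_mem_disjSum.2 (mem_filter.2 ⟨mem_range.2 hs, hW⟩)
  · exact Finset.inl_mem_disjSum.2 (mem_filter.2 ⟨mem_range.2 ht, hf ▸ hW⟩)
  · intro h
    exact hne (Sum.inl.inj h)
  · show s(f s, f s) = s(f t, f t)
    rw [hf]

lemma P_nonedge [CommRing F] (A : Fin n → Fin n → Bool) (W : Fin n → Bool)
    (z : Sym2 (Fin n) × Option (Fin m) → F) (S : Finset (Fin m)) (f : ℕ → Fin n) {t : ℕ}
    (ht : t + 1 < n) (hA : ¬ A (f t) (f (t + 1)) = true) : P A W z S 1 f = 0 := by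
  unfold P pw
  rw [Finset.prod_eq_zero (s := range (n - 1)) (i := t) (mem_range.2 (by omega)) (if_neg hA),
    mul_zero, zero_mul]

/-- palindromic closed pieces have weight zero -/
lemma H_fixed [CommRing F] [CharP F 2] (A : Fin n → Fin n → Bool) (W : Fin n → Bool)
    (z : Sym2 (Fin n) × Option (Fin m) → F) (f : ℕ → Fin n) (hk : kc n W f = m)
    (hA : ∀ u, A u u = false) {i j : ℕ} (hij : i < j) (hj : j < n)
    (hf : ∀ t, f (rf i j t) = f t) : ∑ S : Finset (Fin m), P A W z S 1 f = 0 := by
  rcases Nat.even_or_odd' (i + j) with ⟨c, hc | hc⟩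
  · obtain ⟨d, rfl⟩ : ∃ d, c = d + 1 := ⟨c - 1, by omega⟩
    have e : f (d + 2) = f d := by
      have := hf d
      rwa [rf_in (by omega) (by omega), show i + j - d = d + 2 by omega] at this
    by_cases hu : W (f d) = true
    · exact H_repW A W z f hk (s := d) (t := d + 2) (by omega) (by omega) (by omega) e.symm hu
    · have hu' : W (f d) = false := by simpa using hu
      by_cases hv : W (f (d + 1)) = true
      · refine Finset.sum_eq_zero fun S _ => ?_
        unfold P pw
        have h0 : (svT W (f d) (f (d + 1)) (f (d + 2)) : F) = 0 := if_pos ⟨e.symm, hu', hv⟩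
        rw [Finset.prod_eq_zero (s := range (n - 2)) (i := d)
          (f := fun t => (svT W (f t) (f (t + 1)) (f (t + 2)) : F)) (mem_range.2 (by omega)) h0,
          mul_zero]
      · have hv' : W (f (d + 1)) = false := by simpa using hv
        refine H_rep A W z f hk (j1 := Sum.inr d) (j2 := Sum.inr (d + 1)) ?_ ?_ ?_ ?_
        · exact Finset.inr_mem_disjSum.2 (mem_filter.2 ⟨mem_range.2 (by omega), hu', hv'⟩)
        · refine Finset.inr_mem_disjSum.2 (mem_filter.2 ⟨mem_range.2 (by omega), hv', ?_⟩)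
          rw [show d + 1 + 1 = d + 2 from rfl, e, hu']
        · intro h
          have := Sum.inr.inj h
          omega
        · show s(f d, f (d + 1)) = s(f (d + 1), f (d + 2))
          rw [e, Sym2.eq_swap]
  · have e : f (c + 1) = f c := by
      have := hf c
      rwa [rf_in (by omega) (by omega), show i + j - c = c + 1 by omega] at this
    refine Finset.sum_eq_zero fun S _ => P_nonedge A W z S f (t := c) (by omega) ?_
    rw [e, hA]
    simp

/-- the contribution of one sequence -/
def G [Field F] [Fintype F] [DecidableEq F] (A : Fin n → Fin n → Bool) (a b : Fin n)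
    (W : Fin n → Bool) (z : Sym2 (Fin n) × Option (Fin m) → F) (f : ℕ → Fin n) : F :=
  if f 0 = a ∧ f (n - 1) = b then
    ∑ S : Finset (Fin m), ∑ τ : Fˣ, ((τ⁻¹ : Fˣ) : F) ^ m * P A W z S τ f else 0

lemma sv_eq [Field F] [Fintype F] [DecidableEq F] (A : Fin n → Fin n → Bool) (a b : Fin n)
    (W : Fin n → Bool) (z : Sym2 (Fin n) × Option (Fin m) → F) :
    sv A a b W z = ∑ g : Fin n → Fin n, G A a b W z (ext a g) := by
  unfold sv wsum
  simp only [Finset.mul_sum]
  rw [Finset.sum_congr rfl (fun S _ => Finset.sum_comm), Finset.sum_comm]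
  refine Finset.sum_congr rfl fun g _ => ?_
  unfold G P
  split_ifs <;> simp

lemma kc_le (W : Fin n → Bool) (f : ℕ → Fin n) : kc n W f ≤ 2 * n := by
  unfold kc
  have h1 := Finset.card_filter_le (range n) fun t => W (f t) = true
  have h2 := Finset.card_filter_le (range (n - 1))
    fun t => W (f t) = false ∧ W (f (t + 1)) = false
  rw [card_range] at h1 h2
  omega

lemma G_eq [Field F] [Fintype F] [DecidableEq F] [CharP F 2] (A : Fin n → Fin n → Bool)
    (a b : Fin n) (W : Fin n → Bool) (z : Sym2 (Fin n) × Option (Fin m) → F) (f : ℕ → Fin n)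
    (hn : 2 ≤ n) (hq : 8 * n ≤ Fintype.card F) (hm : m ≤ n) :
    G A a b W z f = if (f 0 = a ∧ f (n - 1) = b) ∧ kc n W f = m then
      ∑ S : Finset (Fin m), P A W z S 1 f else 0 := by
  unfold G
  have hk := kc_le W f
  have e : ∀ S : Finset (Fin m), ∑ τ : Fˣ, ((τ⁻¹ : Fˣ) : F) ^ m * P A W z S τ f =
      (if kc n W f = m then 1 else 0) * P A W z S 1 f := by
    intro S
    rw [← units_sum (F := F) (kc n W f) m (by omega) (by omega), Finset.sum_mul]
    refine Finset.sum_congr rfl fun τ _ => ?_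
    rw [P_tau A W z S τ, mul_assoc]
  rw [Finset.sum_congr rfl fun S _ => e S]
  by_cases h1 : f 0 = a ∧ f (n - 1) = b
  · by_cases h2 : kc n W f = m
    · rw [if_pos h1, if_pos h2, if_pos (And.intro h1 h2)]
      simp only [one_mul]
    · rw [if_pos h1, if_neg h2, if_neg (fun h => h2 h.2)]
      simp only [zero_mul, Finset.sum_const_zero]
  · rw [if_neg h1, if_neg (fun h => h1 h.1)]

lemma G_rf [Field F] [Fintype F] [DecidableEq F] (A : Fin n → Fin n → Bool)
    (a b : Fin n) (W : Fin n → Bool) (z : Sym2 (Fin n) × Option (Fin m) → F) (f : ℕ → Fin n)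
    (hA : ∀ u v, A u v = A v u) {i j : ℕ} (h : Rp n W f i j) :
    G A a b W z (fun t => f (rf i j t)) = G A a b W z f := by
  obtain ⟨a1, a2, a3, a4, -, -⟩ := h
  have e : ∀ (S : Finset (Fin m)) (τ : F),
      P A W z S τ (fun t => f (rf i j t)) = P A W z S τ f := by
    intro S τ
    refine pw_rf _ _ _ f a1 a2 a4 ?_ ?_ ?_
    · intro u v
      unfold svE
      rw [hA u v, Sym2.eq_swap (a := u) (b := v)]
      simp only [and_comm]
    · intro u v w
      unfold svT
      by_cases huw : u = w
      · rw [huw]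
      · rw [if_neg (fun h => huw h.1), if_neg (fun h => huw h.1.symm)]
    · intro u w
      unfold svT
      rw [if_neg]
      rintro ⟨-, -, h⟩
      rw [a3] at h
      exact Bool.false_ne_true h
  unfold G
  simp only [e]
  rw [rf_out (t := 0) a1 a4 (by omega), rf_out (t := n - 1) a1 a4 (by omega)]

open Classical in
/-- the sequences with a repeated vertex outside `W` cancel -/
lemma sum_bad [Field F] [Fintype F] [DecidableEq F] [CharP F 2] (A : Fin n → Fin n → Bool)
    (a b : Fin n) (W : Fin n → Bool) (z : Sym2 (Fin n) × Option (Fin m) → F)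
    (hn : 2 ≤ n) (hq : 8 * n ≤ Fintype.card F) (hm : m ≤ n)
    (hA : ∀ u v, A u v = A v u) (hA' : ∀ u, A u u = false) :
    ∑ g ∈ univ.filter (fun g : Fin n → Fin n => ∃ p : ℕ × ℕ, Rp n W (ext a g) p.1 p.2),
      G A a b W z (ext a g) = 0 := by
  have hch : ∀ g ∈ univ.filter (fun g : Fin n → Fin n => ∃ p : ℕ × ℕ, Rp n W (ext a g) p.1 p.2),
      ∃ p : ℕ × ℕ, Rp n W (ext a g) p.1 p.2 := fun g hg => (mem_filter.1 hg).2
  choose p hp using hch
  have hmem : ∀ g hg, (fun t : Fin n => ext a g (rf (p g hg).1 (p g hg).2 t)) ∈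
      univ.filter (fun g : Fin n → Fin n => ∃ p : ℕ × ℕ, Rp n W (ext a g) p.1 p.2) := by
    intro g hg
    refine mem_filter.2 ⟨mem_univ _, p g hg, ?_⟩
    rw [ext_rf a g (hp g hg).2.1]
    exact (hp g hg).rf
  refine Finset.sum_involution (fun g hg t => ext a g (rf (p g hg).1 (p g hg).2 t)) ?_ ?_ hmem ?_
  · intro g hg
    rw [ext_rf a g (hp g hg).2.1, G_rf A a b W z _ hA (hp g hg)]
    exact CharTwo.add_self_eq_zero _
  · intro g hg hne he
    apply hne
    have h1 := ext_rf (i := (p g hg).1) a g (hp g hg).2.1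
    rw [he] at h1
    rw [G_eq A a b W z _ hn hq hm]
    split_ifs with h
    · exact H_fixed A W z _ h.2 hA' (hp g hg).1 (hp g hg).2.1 fun t => (congrFun h1 t).symm
    · rfl
  · intro g hg
    have h1 := hp _ (hmem g hg)
    have h2 := (hp g hg).rf
    rw [← ext_rf a g (hp g hg).2.1] at h2
    obtain ⟨e1, e2⟩ := h1.unique h2
    funext t
    rw [e1, e2, ext_rf a g (hp g hg).2.1]
    show ext a g (rf _ _ (rf _ _ t)) = g t
    rw [rf_rf, ext_val]

lemma P_path [CommRing F] (A : Fin n → Fin n → Bool) (W : Fin n → Bool)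
    (z : Sym2 (Fin n) × Option (Fin m) → F) (S : Finset (Fin m)) (f : ℕ → Fin n)
    (hinj : Set.InjOn f {t | t < n}) (hA : ∀ t, t + 1 < n → A (f t) (f (t + 1)) = true) :
    P A W z S 1 f = pw n (svV W z S 1) (svE W z S 1) (fun _ _ _ => 1) f := by
  unfold P pw
  have e2 : ∏ t ∈ range (n - 1),
        (if A (f t) (f (t + 1)) = true then svE W z S 1 (f t) (f (t + 1)) else 0) =
      ∏ t ∈ range (n - 1), svE W z S 1 (f t) (f (t + 1)) := by
    refine Finset.prod_congr rfl fun t ht => if_pos (hA t ?_)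
    have := mem_range.1 ht
    omega
  have e3 : ∏ t ∈ range (n - 2), (svT W (f t) (f (t + 1)) (f (t + 2)) : F) =
      ∏ t ∈ range (n - 2), (1 : F) := by
    refine Finset.prod_congr rfl fun t ht => if_neg ?_
    have := mem_range.1 ht
    rintro ⟨h, -⟩
    have := hinj (show t < n by omega) (show t + 2 < n by omega) h
    omega
  rw [e2, e3]

end sieve

end Sound

open Sound in
theorem sound : SoundStmt := by
  classical
  intro n m F _ _ _ _ A a b W z hn hq hm hA hA'
  rw [sv_eq, ← Finset.sum_filter_add_sum_filter_not univ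
    (fun g : Fin n → Fin n => ∃ p : ℕ × ℕ, Rp n W (ext a g) p.1 p.2),
    sum_bad A a b W z hn hq hm hA hA', zero_add, Finset.sum_filter]
  refine Finset.sum_congr rfl fun g _ => ?_
  generalize ext a g = f
  by_cases hb : ∃ p : ℕ × ℕ, Rp n W f p.1 p.2
  · rw [if_neg (not_not.2 hb), if_neg]
    rintro ⟨⟨hinj, -⟩, -⟩
    obtain ⟨p, a1, a2, -, a4, -⟩ := hb
    have := hinj (show p.1 < n by omega) (show p.2 < n from a2) a4
    omega
  · rw [if_pos hb, G_eq A a b W z f hn hq hm]
    by_cases hP : IsPath n (fun u v => A u v = true) a b f ∧ kc n W f = m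
    · rw [if_pos hP, if_pos ⟨⟨hP.1.2.1, hP.1.2.2.1⟩, hP.2⟩]
      exact Finset.sum_congr rfl fun S _ => P_path A W z S f hP.1.1 hP.1.2.2.2
    · rw [if_neg hP]
      split_ifs with h
      · by_cases hinj : Set.InjOn f {t | t < n}
        · have : ∃ t, t + 1 < n ∧ ¬ A (f t) (f (t + 1)) = true := by
            by_contra hc
            push Not at hc
            exact hP ⟨⟨hinj, h.1.1, h.1.2, hc⟩, h.2⟩
          obtain ⟨t, ht, hAt⟩ := this
          exact Finset.sum_eq_zero fun S _ => P_nonedge A W z S f ht hAt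
        · have : ∃ s t, s < t ∧ t < n ∧ f s = f t := by
            by_contra hc
            apply hinj
            intro s hs t ht hst
            rcases lt_trichotomy s t with h | h | h
            · exact absurd ⟨s, t, h, ht, hst⟩ hc
            · exact h
            · exact absurd ⟨t, s, h, hs, hst.symm⟩ hc
          obtain ⟨s, t, hst, ht, hf⟩ := this
          by_cases hW : W (f s) = true
          · exact H_repW A W z f h.2 (by omega) ht hst.ne hf hW
          · exact absurd (Rp.exists ⟨s, t, hst, ht, by simpa using hW, hf⟩) hb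
      · rfl

end Pool.Agent.MP_6b3410_lc.U5
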