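import Mathlib
import Pool.Agent.MP_6b3410_lc.U5.Main
import Pool.Agent.MP_6b3410_lc.U5.Dp
import Pool.Agent.MP_6b3410_lc.U5.Sound
import Pool.Agent.MP_6b3410_lc.U5.Compl
import Pool.Agent.MP_6b3410_lc.U5.Cap
import Pool.Agent.MP_6b3410_lc.U5.Iso
import Pool.Agent.MP_6b3410_lc.U5.Par
import Pool.Agent.MP_6b3410_lc.U5.Gauss
import Pool.Agent.MP_6b3410_lc.U5.Bal
import Pool.Agent.MP_6b3410_lc.U5.Search
import Pool.Agent.MP_6b3410_lc.U5.Parc

namespace Pool.Agent.MP_6b3410_lc.U5.RetiredBelowBjorklund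

open Pool.Agent.MP_6b3410_lc.U5

/-- For all large `n`, Hamiltonicity of graphs on `n` vertices is decided by a network of fan-in
two NAND gates with at most `(4 / (1 + √2) - 10⁻⁶) ^ n` gates, input gates included. -/
theorem result :
    ∃ n₀ : ℕ, ∀ n : ℕ, n₀ ≤ n → ∃ s : ℕ,
      ((n.choose 2 + s : ℕ) : ℝ) ≤ (4 / (1 + Real.sqrt 2) - 1 / 10 ^ 6) ^ n ∧
      ∃ a b : Fin s → ({p : Fin n × Fin n // p.1 < p.2} ⊕ Fin s), ∃ o : Fin s,
        (∀ g j : Fin s, (a g = Sum.inr j → j < g) ∧ (b g = Sum.inr j → j < g)) ∧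
        ∀ x : {p : Fin n × Fin n // p.1 < p.2} → Bool, ∀ val : Fin s → Bool,
          (∀ g : Fin s, val g = !(Sum.elim x val (a g) && Sum.elim x val (b g))) →
          (val o = true ↔
            (SimpleGraph.fromRel
              (fun i j : Fin n => ∃ h : i < j, x ⟨(i, j), h⟩ = true)).IsHamiltonian) :=
  main dp sound (compl sound) cap (parc par gauss (search bal)) mark iso uniq

end Pool.Agent.MP_6b3410_lc.U5.RetiredBelowBjorklund
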